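import Mathlib
import Pool.Agent.Work.MP_787500_nt.HC.Defs

/-!
Definitions for the canonical form of the tower (all modules of this folder). Do not change.
-/

set_option autoImplicit false

namespace Pool.Agent.Work.MP_787500_nt.HD

open WithZero IsDedekindDomain NumberField Pool.Agent.Work.CM
open scoped nonZeroDivisors

universe u

/-- The complex conjugate of a lattice. -/
def stL (L : Submodule ℤ ℂ) : Submodule ℤ ℂ where
  carrier := {z | starRingEnd ℂ z ∈ L}
  zero_mem' := by
    show starRingEnd ℂ 0 ∈ L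
    rw [map_zero]
    exact L.zero_mem
  add_mem' := by
    intro x y hx hy
    show starRingEnd ℂ (x + y) ∈ L
    rw [map_add]
    exact L.add_mem hx hy
  smul_mem' := by
    intro n x hx
    show starRingEnd ℂ (n • x) ∈ L
    rw [map_zsmul]
    exact L.smul_mem n hx

theorem mem_stL {L : Submodule ℤ ℂ} {z : ℂ} : z ∈ stL L ↔ starRingEnd ℂ z ∈ L := Iff.rfl

/-- `c` is a ring automorphism with `c s = -s` and `c i = -i` which exchanges the functions `W`, `W'` up to an
involution of the index. -/
structure IsCj {A Ω : Type*} [One A] [Field Ω] (s : Ω) (W W' : A → Ω) (c : Ω ≃+* Ω) : Prop where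
  neg : c s = -s
  imag : ∀ j : Ω, j ^ 2 = -1 → c j = -j
  ex : ∃ f : A → A, f 1 = 1 ∧ (∀ a, f (f a) = a) ∧ ∀ a, c (W a) = W' (f a) ∧ c (W' a) = W (f a)

/-- `c` is a conjugation with `c (b m) = i b m` for `1 ≤ m ≤ N`. -/
structure GoodCj {A Ω : Type*} [One A] [Field Ω] (s i : Ω) (W W' : A → Ω) (a b : ℕ → Ω) (N : ℕ)
    (c : Ω ≃+* Ω) : Prop where
  cj : IsCj s W W' c
  zero : c (b 0) = i * a 0
  pos : ∀ m, 1 ≤ m → m ≤ N → c (b m) = i * b m

/-- Every automorphism `c` with `c s = -s` maps `F` into itself, and its square is trivial on `F`. -/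
def DihI {K Ω : Type*} [Field K] [Field Ω] [Algebra K Ω] (s : K) (F : IntermediateField K Ω) : Prop :=
  ∀ c : Ω ≃+* Ω, c (algebraMap K Ω s) = -algebraMap K Ω s → ∀ x ∈ F, c x ∈ F ∧ c (c x) = x

/-- The number field `F` is Galois over `ℚ`, its degree over `K` is a power of 2, it is unramified over `K` at all primes
not above 2, and all automorphisms `t` of `F` with `t s = -s` are of order two. -/
def DihField (K F : Type u) [Field K] [NumberField K] [Field F] [NumberField F] [Algebra K F] (s : K) :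
    Prop :=
  IsGalois ℚ F ∧ (∃ m : ℕ, Module.finrank K F = 2 ^ m) ∧
    (∀ Q : HeightOneSpectrum (𝓞 F), (2 : 𝓞 F) ∉ Q.asIdeal → Algebra.IsUnramifiedAt (𝓞 K) Q.asIdeal) ∧
    ∀ t : F ≃+* F, t (algebraMap K F s) = -algebraMap K F s → ∀ x, t (t x) = x

end Pool.Agent.Work.MP_787500_nt.HD
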