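import Mathlib
import Pool.Agent.Work.MP_787500_nt.HD.Defs
import Pool.Agent.Work.MP_787500_nt.HC.LyC

/-!
# Module AgA: a conjugation with `c (b m) = i b m`

Write `Ω = AlgebraicClosure K`. `Sq4`: `a 0 = w^2`, `b 0 = -i w'^2`, `a (m+1) = (a m + b m)/2`, `b (m+1)^2 = a m * b m`,
`w = W 1`, `w' = W' 1`; `c w = w'`, `c w' = w`, `c i = -i` (`IsCj`, `f 1 = 1`). Induction on `N`.
`N = 0`: `c (b 0) = i w^2 = i * a 0`; take `c' = c`.
Step: let `c` be good for `N`. `c (a 0) = w'^2 = i * b 0`, so `c (a 1) = i * a 1`, and `c (a m) = i * a m` for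
`1 ≤ m ≤ N + 1` by induction. So `c (b (N+1))^2 = c (a N) * c (b N) = -(a N * b N) = (i * b (N+1))^2` (also for `N = 0`:
`c (a 0) * c (b 0) = i * b 0 * (i * a 0)`), hence `c (b (N+1)) = ± i * b (N+1)`. If the sign is `-`, take
`c' x = c (τ x)` with `τ = (g ^ hK K) ^ (2 ^ N)`, `g` from `exists_gen4`: `τ (b (N+1)) = -b (N+1)`, `τ (b m) = b m` for `m ≤ N`,
`τ i = i`, `τ` fixes all `W a`, `W' a` (`pow_fix`, `(g^h)^(2^N) = (g^(2^N))^h`) and `s`. So `c'` is good for `N + 1`
(`IsCj`: `j^2 = -1` gives `j = ± i`, so `τ j = j`; `a 0` is fixed by `τ`).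
-/

set_option autoImplicit false

namespace Pool.Agent.Work.MP_787500_nt.HD

open WithZero IsDedekindDomain NumberField HC

universe u

variable {K : Type u} [Field K] [NumberField K] {q : ℕ} {s : K} {v : HeightOneSpectrum (𝓞 K)}
variable {α : Kˣ} {W W' : ClassGroup (𝓞 K) → AlgebraicClosure K} {i : AlgebraicClosure K}
variable {a b u : ℕ → AlgebraicClosure K}

omit [NumberField K] in
private theorem pow_id {τ : AlgebraicClosure K ≃ₐ[K] AlgebraicClosure K}
    {x : AlgebraicClosure K} (h : τ x = x) (k : ℕ) : (τ ^ k) x = x := by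
  induction k with
  | zero => rfl
  | succ k ih => rw [pow_succ, AlgEquiv.mul_apply, h, ih]

theorem exists_good (hC : Ctx K q s v α W W') (hS : ∀ n, Sq4 (W 1) (W' 1) i a b u n)
    {c : AlgebraicClosure K ≃+* AlgebraicClosure K}
    (hc : IsCj (algebraMap K (AlgebraicClosure K) s) W W' c) (N : ℕ) :
    ∃ c' : AlgebraicClosure K ≃+* AlgebraicClosure K,
      GoodCj (algebraMap K (AlgebraicClosure K) s) i W W' a b N c' := by
  have hi := (hS 0).i2
  induction N with
  | zero =>
    refine ⟨c, hc, ?_, fun m h1 h2 => by omega⟩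
    obtain ⟨f, hf1, -, hf⟩ := hc.ex
    have h1 := (hf 1).2
    rw [hf1] at h1
    rw [(hS 0).b0, (hS 0).a0, map_mul, map_neg, map_pow, hc.imag i hi, h1, neg_neg]
  | succ N ih =>
    obtain ⟨d, hd⟩ := ih
    obtain ⟨f, hf1, hff, hf⟩ := hd.cj.ex
    have hdi : d i = -i := hd.cj.imag i hi
    have hW : d (W 1) = W' 1 := by
      have h1 := (hf 1).1
      rwa [hf1] at h1
    have ha0 : d (a 0) = i * b 0 := by
      rw [(hS 0).a0, (hS 0).b0, map_pow, hW]
      linear_combination ((W' 1) ^ 2) * hi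
    have ha : ∀ m, 1 ≤ m → m ≤ N + 1 → d (a m) = i * a m := by
      intro m h1
      induction m, h1 using Nat.le_induction with
      | base =>
        intro _
        rw [(hS 1).as 0 (by omega), map_div₀, map_add, map_ofNat, ha0, hd.zero]
        ring
      | succ m hm ihm =>
        intro h2
        rw [(hS (m + 1)).as m (by omega), map_div₀, map_add, map_ofNat, ihm (by omega),
          hd.pos m hm (by omega)]
        ring
    have hb2 : (d (b (N + 1))) ^ 2 = (i * b (N + 1)) ^ 2 := by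
      rw [← map_pow, mul_pow, (hS (N + 1)).bs N (by omega), map_mul]
      rcases Nat.eq_zero_or_pos N with h0 | h0
      · subst h0
        rw [ha0, hd.zero]
        ring
      · rw [ha N h0 (by omega), hd.pos N h0 le_rfl]
        ring
    rcases sq_eq_sq_iff_eq_or_eq_neg.1 hb2 with h | h
    · refine ⟨d, hd.cj, hd.zero, fun m h1 h2 => ?_⟩
      rcases Nat.lt_or_ge m (N + 1) with h3 | h3
      · exact hd.pos m h1 (by omega)
      · obtain rfl : m = N + 1 := by omega
        exact h
    · obtain ⟨g, hgi, hg⟩ := exists_gen4 hC hS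
      obtain ⟨h1, h2⟩ := hg N
      obtain ⟨τ, hτ⟩ : ∃ τ, τ = (g ^ hK K) ^ 2 ^ N := ⟨_, rfl⟩
      rw [← hτ] at h1 h2
      have hτi : τ i = i := by
        rw [hτ]
        exact pow_id hgi _
      have hτW : ∀ x, τ (W x) = W x ∧ τ (W' x) = W' x := by
        intro x
        rw [hτ]
        exact ⟨pow_id (pow_fix hC g x).1 _, pow_id (pow_fix hC g x).2 _⟩
      have hap : ∀ x, (τ.toRingEquiv.trans d) x = d (τ x) := fun x => rfl
      refine ⟨τ.toRingEquiv.trans d, ⟨?_, fun j hj => ?_, f, hf1, hff, fun x => ?_⟩, ?_,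
        fun m h3 h4 => ?_⟩
      · rw [hap, τ.commutes, hd.cj.neg]
      · have h3 : j ^ 2 = i ^ 2 := by rw [hj, hi]
        have h4 : τ j = j := by
          rcases sq_eq_sq_iff_eq_or_eq_neg.1 h3 with rfl | rfl
          · exact hτi
          · rw [map_neg, hτi]
        rw [hap, h4, hd.cj.imag j hj]
      · rw [hap, hap, (hτW x).1, (hτW x).2]
        exact hf x
      · rw [hap, h2 0 (Nat.zero_le _), hd.zero]
      · rw [hap]
        rcases Nat.lt_or_ge m (N + 1) with h5 | h5
        · rw [h2 m (by omega), hd.pos m h3 (by omega)]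
        · obtain rfl : m = N + 1 := by omega
          rw [h1, map_neg, h, neg_neg]

end Pool.Agent.Work.MP_787500_nt.HD
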