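import Mathlib
import Pool.Agent.Work.MP_787500_nt.HD.Defs
import Pool.Agent.Work.MP_787500_nt.HC.Basic
import Pool.Agent.Work.MP_787500_nt.HC.LyA

/-!
# Module AgB: the conjugation on the layers

`Ω = AlgebraicClosure K`.
* `exists_res`: every `x : K` is `r + t s` with rational `r`, `t` (`Quad.exists_coords`), so
  `c (algebraMap x) = algebraMap (σ x)` with `σ : K ≃+* K`, `σ s = -s` of `Quad.exists_conj` (a ring homomorphism fixes the
  rational numbers).
* `exists_cj`: `τ' = c τ c⁻¹` as a ring automorphism; it is `K`-linear by `exists_res` for `c` (and `σ (σ x) = x`).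
* `exists_diff`: `c⁻¹ c'` is `K`-linear.
* `good_layM`: by `IntermediateField.adjoin_induction` for the generators of `layM W W' i b N`: `c (W a) = W' (f a)`,
  `c (c (W a)) = W (f (f a)) = W a`, the same for `W'`; `c i = -i`, `c (c i) = i`; `c (b 0) = i * a 0`,
  `c (a 0) = (W' 1)^2 = i * b 0`, `c (c (b 0)) = c i * c (a 0) = -i * (i * b 0) = b 0`; `c (b m) = i * b m`,
  `c (c (b m)) = -i * (i * b m) = b m` for `1 ≤ m ≤ N`. All images are in `layM` (`mem_a`, `mem_b`, `mem_i`, `mem_W`,
  `mem_W'`). On `K`: `exists_res`. Sums, products, inverses: clear.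
-/

set_option autoImplicit false

namespace Pool.Agent.Work.MP_787500_nt.HD

open WithZero IsDedekindDomain NumberField HC

universe u

variable {K : Type u} [Field K] [NumberField K] {q : ℕ} {s : K} {v : HeightOneSpectrum (𝓞 K)}
variable {α : Kˣ} {W W' : ClassGroup (𝓞 K) → AlgebraicClosure K} {i : AlgebraicClosure K}
variable {a b u : ℕ → AlgebraicClosure K}

theorem exists_res (hb : IsBase K q s) :
    ∃ σ : K ≃+* K, σ s = -s ∧ (∀ x, σ (σ x) = x) ∧
      ∀ c : AlgebraicClosure K ≃+* AlgebraicClosure K,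
        c (algebraMap K (AlgebraicClosure K) s) = -algebraMap K (AlgebraicClosure K) s →
        ∀ x, c (algebraMap K (AlgebraicClosure K) x) = algebraMap K (AlgebraicClosure K) (σ x) := by
  obtain ⟨hK, hs, hq, -⟩ := hb
  obtain ⟨σ, hσ⟩ := Quad.exists_conj hK hs hq.pos
  refine ⟨σ, hσ, fun x => ?_, fun c hc x => ?_⟩
  · obtain ⟨r, t, rfl⟩ := Quad.exists_coords hK hs hq.pos x
    rw [map_add, map_mul, map_ratCast, map_ratCast, hσ, map_add, map_mul, map_ratCast,
      map_ratCast, map_neg, hσ, neg_neg]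
  · obtain ⟨r, t, rfl⟩ := Quad.exists_coords hK hs hq.pos x
    rw [map_add σ, map_mul σ, map_ratCast σ, map_ratCast σ, hσ]
    rw [map_add (algebraMap K (AlgebraicClosure K)), map_mul (algebraMap K (AlgebraicClosure K)),
      map_ratCast (algebraMap K (AlgebraicClosure K)),
      map_ratCast (algebraMap K (AlgebraicClosure K)), map_add c, map_mul c, map_ratCast c,
      map_ratCast c, hc, map_add (algebraMap K (AlgebraicClosure K)),
      map_mul (algebraMap K (AlgebraicClosure K)),
      map_ratCast (algebraMap K (AlgebraicClosure K)),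
      map_ratCast (algebraMap K (AlgebraicClosure K)), map_neg]

theorem exists_cj (hb : IsBase K q s) {c : AlgebraicClosure K ≃+* AlgebraicClosure K}
    (hc : c (algebraMap K (AlgebraicClosure K) s) = -algebraMap K (AlgebraicClosure K) s)
    (τ : AlgebraicClosure K ≃ₐ[K] AlgebraicClosure K) :
    ∃ τ' : AlgebraicClosure K ≃ₐ[K] AlgebraicClosure K, ∀ x, τ' (c x) = c (τ x) := by
  obtain ⟨σ, -, hσ2, hres⟩ := exists_res hb
  let f : AlgebraicClosure K ≃+* AlgebraicClosure K := c.symm.trans (τ.toRingEquiv.trans c)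
  have hf : ∀ x, f x = c (τ (c.symm x)) := fun _ => rfl
  have hK : ∀ r : K, f (algebraMap K (AlgebraicClosure K) r) =
      algebraMap K (AlgebraicClosure K) r := by
    intro r
    have h1 : c.symm (algebraMap K (AlgebraicClosure K) r) =
        algebraMap K (AlgebraicClosure K) (σ r) := by
      rw [RingEquiv.symm_apply_eq, hres c hc, hσ2]
    rw [hf, h1, τ.commutes, hres c hc, hσ2]
  refine ⟨AlgEquiv.ofRingEquiv (f := f) hK, fun x => ?_⟩
  show f (c x) = c (τ x)
  rw [hf, RingEquiv.symm_apply_apply]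

theorem exists_diff (hb : IsBase K q s) {c c' : AlgebraicClosure K ≃+* AlgebraicClosure K}
    (hc : c (algebraMap K (AlgebraicClosure K) s) = -algebraMap K (AlgebraicClosure K) s)
    (hc' : c' (algebraMap K (AlgebraicClosure K) s) = -algebraMap K (AlgebraicClosure K) s) :
    ∃ τ : AlgebraicClosure K ≃ₐ[K] AlgebraicClosure K, ∀ x, c' x = c (τ x) := by
  obtain ⟨σ, -, hσ2, hres⟩ := exists_res hb
  let f : AlgebraicClosure K ≃+* AlgebraicClosure K := c'.trans c.symm
  have hf : ∀ x, f x = c.symm (c' x) := fun _ => rfl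
  have hK : ∀ r : K, f (algebraMap K (AlgebraicClosure K) r) =
      algebraMap K (AlgebraicClosure K) r := by
    intro r
    rw [hf, RingEquiv.symm_apply_eq, hres c hc, hres c' hc']
  refine ⟨AlgEquiv.ofRingEquiv (f := f) hK, fun x => ?_⟩
  show c' x = c (f x)
  rw [hf, RingEquiv.apply_symm_apply]

theorem good_layM (hb : IsBase K q s) (hS : ∀ n, Sq4 (W 1) (W' 1) i a b u n)
    {c : AlgebraicClosure K ≃+* AlgebraicClosure K} {N : ℕ}
    (hc : GoodCj (algebraMap K (AlgebraicClosure K) s) i W W' a b N c) {x : AlgebraicClosure K}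
    (hx : x ∈ layM W W' i b N) : c x ∈ layM W W' i b N ∧ c (c x) = x := by
  obtain ⟨σ, -, hσ2, hres⟩ := exists_res hb
  obtain ⟨f, hf1, hff, hf⟩ := hc.cj.ex
  have hi2 : i * i = -1 := by rw [← sq]; exact (hS 0).i2
  have hci : c i = -i := hc.cj.imag i (hS 0).i2
  unfold layM at hx
  induction hx using IntermediateField.adjoin_induction with
  | mem z hz =>
    rcases hz with (hz | ⟨m, hm, rfl⟩) | (⟨d, rfl⟩ | ⟨d, rfl⟩)
    · rw [Set.mem_singleton_iff.1 hz, hci]
      refine ⟨neg_mem (mem_i N), ?_⟩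
      rw [map_neg, hci, neg_neg]
    · rcases Nat.eq_zero_or_pos m with rfl | hm0
      · rw [hc.zero]
        refine ⟨mul_mem (mem_i N) (mem_a hS (Nat.zero_le _)), ?_⟩
        have ha : c (a 0) = W' 1 ^ 2 := by rw [(hS 0).a0, map_pow, (hf 1).1, hf1]
        rw [map_mul, hci, ha, (hS 0).b0]
      · rw [hc.pos m hm0 hm]
        refine ⟨mul_mem (mem_i N) (mem_b hm), ?_⟩
        rw [map_mul, hci, hc.pos m hm0 hm, ← mul_assoc, neg_mul, hi2, neg_neg, one_mul]
    · rw [(hf d).1]
      refine ⟨mem_W' N _, ?_⟩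
      rw [(hf (f d)).2, hff]
    · rw [(hf d).2]
      refine ⟨mem_W N _, ?_⟩
      rw [(hf (f d)).1, hff]
  | algebraMap r =>
    rw [hres c hc.cj.neg]
    refine ⟨IntermediateField.algebraMap_mem _ _, ?_⟩
    rw [hres c hc.cj.neg, hσ2]
  | add x y _ _ h1 h2 =>
    rw [map_add]
    refine ⟨add_mem h1.1 h2.1, ?_⟩
    rw [map_add, h1.2, h2.2]
  | inv x _ h1 =>
    rw [map_inv₀]
    refine ⟨inv_mem h1.1, ?_⟩
    rw [map_inv₀, h1.2]
  | mul x y _ _ h1 h2 =>
    rw [map_mul]
    refine ⟨mul_mem h1.1 h2.1, ?_⟩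
    rw [map_mul, h1.2, h2.2]

end Pool.Agent.Work.MP_787500_nt.HD
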