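import Mathlib
import Pool.Agent.Work.MP_787500_nt.HD.AgB
import Pool.Agent.Work.MP_787500_nt.HC.LyB
import Pool.Agent.Work.MP_787500_nt.HC.LyC
import Pool.Agent.Work.MP_787500_nt.HC.LyD

/-!
# Module AgC: the conjugate of the generator is its inverse

`σ` fixes `i` and all `W a`, `W' a`, and `σ^(2^n)` negates `b (n+1)` and fixes `b m`, `m ≤ n`. `σ' = c σ c⁻¹`.
`order`: if `σ^m` fixes `b N`, `N = n + 1`, then `2^N ∣ m`: otherwise `m = 2^e r`, `r` odd, `e ≤ n`, and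
`(σ^m)^(2^(n-e)) = (σ^(2^n))^r` maps `b N` to `(-1)^r b N = -b N ≠ b N`  (`b N ≠ 0`, see `sq4_ne`, or: `b N ≠ 0` because
`σ^(2^n)` negates it and ... use the nonvanishing theorem of the library: grep `sq4_ne`).
`conj_gen`: 1. `σ' i = i` (`σ' (c i) = c (σ i) = c i` and `c i = -i`); `σ'` fixes `W' (f a) = c (W a)` and `W (f a) = c (W' a)`, so
all `W a`, `W' a` (`f` is surjective). `aut_eq_pow` gives `k` with `σ' = σ^k` on `layM N`.
2. `4 ∣ k + 1`: `b 1^2 = a 0 b 0`, `a 1 = (a 0 + b 0)/2` is fixed by `σ`, `b 2^2 = a 1 b 1`, so `σ (b 2)^2 = -b 2^2`,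
`σ (b 2) = j b 2` with `j = i` or `j = -i`. `c (i b 2) = (-i)(i b 2) = b 2`, so
`σ' (b 2) = σ' (c (i b 2)) = c (σ (i b 2)) = c (i j b 2) = (-i)(-j)(i b 2) = -j b 2`. Also `σ' (b 2) = σ^k (b 2) = j^k b 2`
(`σ j = j`). `b 2 ≠ 0`, so `j^k = -j = j⁻¹`, `j^(k+1) = 1`, `4 ∣ k + 1` (`j^2 = -1`).
3. For `x ∈ layM N`: `c x ∈ layM N`, `c (c x) = x` (`good_layM`), so `c (σ (c x)) = σ' (c (c x)) = σ' x = σ^k x`. Hence
`c (σ^l (c x)) = σ^(k l) x` by induction on `l` (`σ` maps `layM N` into itself: `layM_le_ab` and `ab_galois`, or by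
`σ^k x = c (..) ∈ layM`; simplest: `ab_galois`), and
`σ x = c (c (σ (c (c x)))) = c (σ^k (c x)) = σ^(k k) x`. With `x = b N`: `σ^(k^2 - 1)` fixes `b N` (`k ≥ 1` by 2.), so
`2^N ∣ (k-1)(k+1)` by `order`; `k - 1 ≡ 2 mod 4`, so `2^(N-1) ∣ k + 1`.
-/

set_option autoImplicit false

namespace Pool.Agent.Work.MP_787500_nt.HD

open WithZero IsDedekindDomain NumberField HC

universe u

variable {K : Type u} [Field K] [NumberField K] {q : ℕ} {s : K} {v : HeightOneSpectrum (𝓞 K)}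
variable {α : Kˣ} {W W' : ClassGroup (𝓞 K) → AlgebraicClosure K} {i : AlgebraicClosure K}
variable {a b u : ℕ → AlgebraicClosure K}

omit [NumberField K] in
private theorem pow_id' {τ : AlgebraicClosure K ≃ₐ[K] AlgebraicClosure K}
    {x : AlgebraicClosure K} (h : τ x = x) (k : ℕ) : (τ ^ k) x = x := by
  induction k with
  | zero => rfl
  | succ k ih => rw [pow_succ, AlgEquiv.mul_apply, h, ih]

omit [NumberField K] in
private theorem pow_neg' {τ : AlgebraicClosure K ≃ₐ[K] AlgebraicClosure K}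
    {x : AlgebraicClosure K} (h : τ x = -x) (k : ℕ) : (τ ^ k) x = (-1) ^ k * x := by
  induction k with
  | zero =>
    rw [pow_zero, pow_zero, one_mul]
    rfl
  | succ k ih =>
    rw [pow_succ, AlgEquiv.mul_apply, h, map_neg, ih, pow_succ]
    ring

omit [NumberField K] in
private theorem pow_mul_j {τ : AlgebraicClosure K ≃ₐ[K] AlgebraicClosure K}
    {x j : AlgebraicClosure K} (hj : τ j = j) (h : τ x = j * x) (k : ℕ) :
    (τ ^ k) x = j ^ k * x := by
  induction k with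
  | zero =>
    rw [pow_zero, pow_zero, one_mul]
    rfl
  | succ k ih =>
    rw [pow_succ, AlgEquiv.mul_apply, h, map_mul, ih, pow_id' hj, pow_succ]
    ring

private theorem four_dvd {F : Type*} [Field F] [CharZero F] {j : F} (hj : j ^ 2 = -1) {m : ℕ}
    (h : j ^ m = 1) : 4 ∣ m := by
  have h2 : (2 : F) ≠ 0 := two_ne_zero
  have h4 : j ^ 4 = 1 := by
    rw [show (4 : ℕ) = 2 * 2 from rfl, pow_mul, hj]
    norm_num
  have h5 : j ^ (m % 4) = 1 := by
    have h6 : j ^ (4 * (m / 4) + m % 4) = 1 := by rw [Nat.div_add_mod, h]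
    rwa [pow_add, pow_mul, h4, one_pow, one_mul] at h6
  have h7 : m % 4 < 4 := Nat.mod_lt _ (by norm_num)
  apply Nat.dvd_of_mod_eq_zero
  generalize m % 4 = r at h5 h7
  interval_cases r
  · rfl
  · exfalso
    rw [pow_one] at h5
    rw [h5] at hj
    apply h2
    linear_combination hj
  · exfalso
    rw [hj] at h5
    apply h2
    linear_combination -h5
  · exfalso
    have h8 : j = -1 := by
      linear_combination j * hj - h5
    rw [h8] at hj
    apply h2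
    linear_combination hj

private theorem dvd_aux {n k : ℕ} (h4 : 4 ∣ k + 1) (h : 2 ^ (n + 2) ∣ k * k - 1) :
    2 ^ (n + 1) ∣ k + 1 := by
  obtain ⟨t, ht⟩ := h4
  have ht1 : 1 ≤ t := by omega
  obtain ⟨w, rfl⟩ : ∃ w, t = w + 1 := ⟨t - 1, by omega⟩
  obtain rfl : k = 4 * w + 3 := by omega
  have h1 : (4 * w + 3) * (4 * w + 3) - 1 = 2 * ((2 * w + 1) * (4 * w + 3 + 1)) := by
    have h2 : (4 * w + 3) * (4 * w + 3) = 2 * ((2 * w + 1) * (4 * w + 3 + 1)) + 1 := by ring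
    omega
  rw [h1, pow_succ, mul_comm _ 2] at h
  have h3 : 2 ^ (n + 1) ∣ (2 * w + 1) * (4 * w + 3 + 1) :=
    Nat.dvd_of_mul_dvd_mul_left (by norm_num) h
  refine Nat.Coprime.dvd_of_dvd_mul_left ?_ h3
  apply Nat.Coprime.pow_left
  rw [Nat.coprime_two_left]
  exact ⟨w, rfl⟩

theorem order (hC : Ctx K q s v α W W') (hS : ∀ n, Sq4 (W 1) (W' 1) i a b u n)
    {σ : AlgebraicClosure K ≃ₐ[K] AlgebraicClosure K}
    (hσ : ∀ n, (σ ^ 2 ^ n) (b (n + 1)) = -b (n + 1) ∧ ∀ m ≤ n, (σ ^ 2 ^ n) (b m) = b m) {n m : ℕ}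
    (h : (σ ^ m) (b (n + 1)) = b (n + 1)) : 2 ^ (n + 1) ∣ m := by
  have hb0 : b (n + 1) ≠ 0 := (sq4_ne (hS (n + 1)) le_rfl).2.1
  rcases Nat.eq_zero_or_pos m with rfl | hm
  · exact dvd_zero _
  obtain ⟨e, r, hr, hmr⟩ := Nat.exists_eq_two_pow_mul_odd hm.ne'
  rcases Nat.lt_or_ge n e with he | he
  · rw [hmr]
    exact Dvd.dvd.mul_right (pow_dvd_pow 2 he) r
  exfalso
  have h1 : ((σ ^ m) ^ 2 ^ (n - e)) (b (n + 1)) = b (n + 1) := pow_id' h _
  have h2 : (σ ^ m) ^ 2 ^ (n - e) = (σ ^ 2 ^ n) ^ r := by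
    rw [← pow_mul, ← pow_mul, hmr]
    congr 1
    rw [mul_right_comm, ← pow_add, Nat.add_sub_cancel' he]
  rw [h2, pow_neg' (hσ n).1, hr.neg_one_pow] at h1
  apply hb0
  have h3 : (2 : AlgebraicClosure K) ≠ 0 := two_ne_zero
  have h4 : (2 : AlgebraicClosure K) * b (n + 1) = 0 := by linear_combination -h1
  exact (mul_eq_zero.1 h4).resolve_left h3

theorem conj_gen (hC : Ctx K q s v α W W') (hS : ∀ n, Sq4 (W 1) (W' 1) i a b u n)
    {σ : AlgebraicClosure K ≃ₐ[K] AlgebraicClosure K} (hσi : σ i = i)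
    (hσW : ∀ d, σ (W d) = W d ∧ σ (W' d) = W' d)
    (hσ : ∀ n, (σ ^ 2 ^ n) (b (n + 1)) = -b (n + 1) ∧ ∀ m ≤ n, (σ ^ 2 ^ n) (b m) = b m)
    {c : AlgebraicClosure K ≃+* AlgebraicClosure K} {n : ℕ}
    (hc : GoodCj (algebraMap K (AlgebraicClosure K) s) i W W' a b (n + 2) c)
    {σ' : AlgebraicClosure K ≃ₐ[K] AlgebraicClosure K} (hσ' : ∀ x, σ' (c x) = c (σ x)) :
    ∃ k : ℕ, 4 ∣ k + 1 ∧ 2 ^ (n + 1) ∣ k + 1 ∧ ∀ x ∈ layM W W' i b (n + 2), σ' x = (σ ^ k) x := by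
  have hi2 : i ^ 2 = -1 := (hS 0).i2
  obtain ⟨f, hf1, hff, hfW⟩ := hc.cj.ex
  have hci : c i = -i := hc.cj.imag i hi2
  have hσ'i : σ' i = i := by
    have h1 := hσ' (-i)
    rw [map_neg c, hci, neg_neg, map_neg σ, hσi, map_neg c, hci, neg_neg] at h1
    exact h1
  have hσ'W : ∀ d, σ' (W d) = W d ∧ σ' (W' d) = W' d := by
    intro d
    have h1 := hσ' (W' (f d))
    have h2 := hσ' (W (f d))
    rw [(hfW (f d)).2, hff, (hσW (f d)).2, (hfW (f d)).2, hff] at h1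
    rw [(hfW (f d)).1, hff, (hσW (f d)).1, (hfW (f d)).1, hff] at h2
    exact ⟨h1, h2⟩
  obtain ⟨k, hk⟩ := aut_eq_pow hS hσi hσW hσ hσ'i hσ'W (n + 2)
  have hb2 : b 2 ≠ 0 := (sq4_ne (hS 2) le_rfl).2.1
  have hσ1 : σ (b 1) = -b 1 := by
    have h1 := (hσ 0).1
    rwa [pow_zero, pow_one] at h1
  have hσa : σ (a 1) = a 1 := by
    rw [(hS 1).as 0 (by norm_num), (hS 1).a0, (hS 1).b0, map_div₀, map_add, map_mul, map_neg,
      map_pow, map_pow, (hσW 1).1, (hσW 1).2, hσi, map_ofNat]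
  have hbs2 : b 2 ^ 2 = a 1 * b 1 := (hS 2).bs 1 (by norm_num)
  have hσ2 : σ (b 2) ^ 2 = -b 2 ^ 2 := by
    rw [← map_pow, hbs2, map_mul, hσa, hσ1]
    ring
  obtain ⟨j, hj, hjb⟩ : ∃ j, (j = i ∨ j = -i) ∧ σ (b 2) = j * b 2 := by
    have h1 : (σ (b 2) - i * b 2) * (σ (b 2) + i * b 2) = 0 := by
      linear_combination hσ2 - b 2 ^ 2 * hi2
    rcases mul_eq_zero.1 h1 with h2 | h2
    · exact ⟨i, Or.inl rfl, by linear_combination h2⟩
    · exact ⟨-i, Or.inr rfl, by linear_combination h2⟩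
  have hj2 : j ^ 2 = -1 := by
    rcases hj with rfl | rfl
    · exact hi2
    · rw [neg_sq, hi2]
  have hσj : σ j = j := by
    rcases hj with rfl | rfl
    · exact hσi
    · rw [map_neg, hσi]
  have hcj : c j = -j := hc.cj.imag j hj2
  have hcb2 : c (b 2) = i * b 2 := hc.pos 2 (by norm_num) (by omega)
  have h4 : 4 ∣ k + 1 := by
    apply four_dvd hj2
    have h1 : σ' (b 2) = -j * b 2 := by
      have h2 : c (i * b 2) = b 2 := by
        rw [map_mul, hci, hcb2]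
        linear_combination -b 2 * hi2
      have h3 := hσ' (i * b 2)
      rw [h2, map_mul σ, hσi, hjb, map_mul c, map_mul c, hci, hcj, hcb2] at h3
      rw [h3]
      linear_combination j * b 2 * hi2
    have h2 : σ' (b 2) = j ^ k * b 2 := by
      rw [hk (b 2) (mem_b (by omega)), pow_mul_j hσj hjb]
    have h3 : j ^ k = -j := by
      apply mul_right_cancel₀ hb2
      rw [← h2, h1]
    rw [pow_succ, h3]
    linear_combination -hj2
  have hk1 : 1 ≤ k := by omega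
  have := layM_finite (K := K) (W := W) (W' := W') (i := i) (b := b) (n + 2)
  have hst := (ab_galois (layM W W' i b (n + 2)) (layM_le_ab hC hS (n + 2))).2.2.1
  have hgood : ∀ x ∈ layM W W' i b (n + 2), c x ∈ layM W W' i b (n + 2) ∧ c (c x) = x :=
    fun x hx => good_layM hC.base hS hc hx
  have hstep : ∀ x ∈ layM W W' i b (n + 2), c (σ (c x)) = (σ ^ k) x := by
    intro x hx
    rw [← hσ' (c x), (hgood x hx).2, hk x hx]
  have hind : ∀ l : ℕ, ∀ x ∈ layM W W' i b (n + 2), c ((σ ^ l) (c x)) = (σ ^ (k * l)) x := by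
    intro l
    induction l with
    | zero =>
      intro x hx
      rw [mul_zero, pow_zero]
      exact (hgood x hx).2
    | succ l ih =>
      intro x hx
      have h1 := ih x hx
      have h2 : (σ ^ l) (c x) ∈ layM W W' i b (n + 2) := hst _ _ (hgood x hx).1
      have h3 := (hgood _ h2).2
      have h5 : (σ ^ (k * l)) x ∈ layM W W' i b (n + 2) := hst _ _ hx
      rw [h1] at h3
      have h6 := hstep _ h5
      rw [h3] at h6
      rw [pow_succ', AlgEquiv.mul_apply, h6, mul_add, mul_one, add_comm, pow_add,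
        AlgEquiv.mul_apply]
  have hb : b (n + 2) ∈ layM W W' i b (n + 2) := mem_b le_rfl
  have hkk : σ (b (n + 2)) = (σ ^ (k * k)) (b (n + 2)) := by
    have h1 := hind k _ hb
    have h2 := hstep _ (hgood _ hb).1
    rw [(hgood _ hb).2] at h2
    rw [← h2, (hgood _ (hst σ _ hb)).2] at h1
    exact h1
  have hfix : (σ ^ (k * k - 1)) (b (n + 1 + 1)) = b (n + 1 + 1) := by
    apply σ.injective
    have h1 : 1 ≤ k * k := Nat.mul_pos hk1 hk1
    have h2 : σ ^ (k * k) = σ * σ ^ (k * k - 1) := by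
      rw [← pow_succ', Nat.sub_add_cancel h1]
    rw [h2, AlgEquiv.mul_apply] at hkk
    exact hkk.symm
  exact ⟨k, h4, dvd_aux h4 (order hC hS hσ hfix), hk⟩

end Pool.Agent.Work.MP_787500_nt.HD
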