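import Mathlib
import Pool.Agent.Work.MP_787500_nt.HD.AgA
import Pool.Agent.Work.MP_787500_nt.HD.AgB
import Pool.Agent.Work.MP_787500_nt.HD.AgC
import Pool.Agent.Work.MP_787500_nt.HC.Fin2

/-!
# Module AgD: the layers are dihedral

`Ω = AlgebraicClosure K`, `G = Ω ≃ₐ[K] Ω`, `h = hK K`.
`order_layF`: `σ = g^h` of `exists_gen4`; if `σ^m` is trivial on `layF (n+1)` then `2^(n+1) ∣ m`: otherwise `m = 2^e r`,
`r` odd, `e ≤ n`, and `σ^(2^(n+1))` is trivial on `layM (n+1)` (`fix_layM`), so `σ^(2^n)` is trivial on `layF (n+1)` (it is a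
power of `σ^m` times a power of `σ^(2^(n+1))`: Bezout, gcd `2^e`; compare `twd_gcd` in `HC/TwD.lean`), so
`layF (n+1) ≤ layF n` by `mem_layF_of_fixed`, contradiction to `finrank_layF`.
`dih_layF`: let `N = n + 2`, `c` good for `N` (`exists_good`); it is good for `n` and `n + 1` too. Write `L_m = layF m`.
(a) `c` maps `layM m` into itself for `m ≤ N`, and `c (c x) = x` there (`good_layM`). `c` maps `L_m` into itself for
`m ≤ N`: for `x ∈ L_m` and `τ ∈ G` with `τ^h = 1` on `layM m`, let `τ₁ = c⁻¹ τ c` (`K`-linear; `exists_cj` for `c⁻¹ = c.symm`);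
`τ₁^h = 1` on `layM m`, so `τ₁ x = x`, `τ (c x) = c x`; use `mem_layF`.
(b) Let `τ ∈ G`, `τ' (c x) = c (τ x)` (`exists_cj`). CLAIM: `τ' (τ x) = x` for `x ∈ L_n`.
 Let `σ'` be the conjugate of `σ`, `k` from `conj_gen` (`σ' = σ^k` on `layM N`, `2^(n+1) ∣ k + 1`, `4 ∣ k + 1`).
 Case `τ i = i`: `aut_layF`: `τ = σ^l` on `L_n`, so `τ' = σ'^l` on `L_n` (conjugate, (a)) `= σ^(k l)`; so
 `τ' τ = σ^((k+1) l)` on `L_n`, trivial as `σ^(2^(n+1))` is trivial on `layM n` (`fix_layM`).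
 Case `τ i = -i` (the only other case, `i^2 = -1`): `ρ = τ' τ` has `ρ i = i` (`τ' i = -i` from `τ' (c i) = c (τ i)`). By `aut_layF`
 `ρ = σ^m` on `L_(n+1)`. The conjugate of `ρ` (by `c`) is the conjugate of `τ'` times `τ'`; the conjugate of `τ'` is `τ` on
 `L_(n+1)` (`c c = 1` there), and everything commutes on `L_(n+1)` (`layF_galois`, `ab_galois`), so the conjugate of `ρ`
 is `ρ` on `L_(n+1)`; it is also `σ'^m = σ^(k m)`. So `σ^(k m) = σ^m` on `L_(n+1)`, `σ^((k-1) m)` is trivial there,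
 `2^(n+1) ∣ (k-1) m` (`order_layF`), `k - 1 ≡ 2 mod 4`, so `2^n ∣ m` and `ρ = σ^m` is trivial on `layM n`
 (`fix_layM` with `hσ n`), so on `L_n`.
(c) Let `c'` be any automorphism with `c' s = -s`: `c' x = c (τ x)` (`exists_diff`). For `x ∈ L_n`, `τ x ∈ L_n` (`ab_galois`),
 `c' x ∈ L_n` by (a), and `c' (c' x) = c (τ (c (τ x))) = τ' (c (c (τ x))) = τ' (τ x) = x`.
-/

set_option autoImplicit false

namespace Pool.Agent.Work.MP_787500_nt.HD

open WithZero IsDedekindDomain NumberField HC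

universe u

variable {K : Type u} [Field K] [NumberField K] {q : ℕ} {s : K} {v : HeightOneSpectrum (𝓞 K)}
variable {α : Kˣ} {W W' : ClassGroup (𝓞 K) → AlgebraicClosure K} {i : AlgebraicClosure K}
variable {a b u : ℕ → AlgebraicClosure K}

omit [NumberField K] in
private theorem agd_pow_id {τ : AlgebraicClosure K ≃ₐ[K] AlgebraicClosure K}
    {x : AlgebraicClosure K} (h : τ x = x) (k : ℕ) : (τ ^ k) x = x := by
  induction k with
  | zero => rfl
  | succ k ih => rw [pow_succ, AlgEquiv.mul_apply, h, ih]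

omit [NumberField K] in
private theorem agd_gcd {τ : AlgebraicClosure K ≃ₐ[K] AlgebraicClosure K}
    {x : AlgebraicClosure K} {k l : ℕ} (h1 : (τ ^ k) x = x) (h2 : (τ ^ l) x = x) :
    (τ ^ Nat.gcd k l) x = x := by
  have hit : ∀ m : ℕ, (τ ^ m) x = (τ : AlgebraicClosure K → AlgebraicClosure K)^[m] x := by
    intro m
    induction m with
    | zero => simp
    | succ m ih => rw [pow_succ', AlgEquiv.mul_apply, ih, Function.iterate_succ_apply']
  rw [hit] at h1 h2 ⊢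
  exact Function.IsPeriodicPt.gcd h1 h2

omit [NumberField K] in
private theorem agd_cj_pow {c : AlgebraicClosure K ≃+* AlgebraicClosure K}
    {τ τ' : AlgebraicClosure K ≃ₐ[K] AlgebraicClosure K} (h : ∀ x, τ' (c x) = c (τ x)) (l : ℕ)
    (x : AlgebraicClosure K) : (τ' ^ l) (c x) = c ((τ ^ l) x) := by
  induction l generalizing x with
  | zero => rfl
  | succ l ih => rw [pow_succ, pow_succ, AlgEquiv.mul_apply, AlgEquiv.mul_apply, h, ih]

private theorem agd_mono {Ω A : Type*} [One A] [Field Ω] {s i : Ω} {W W' : A → Ω} {a b : ℕ → Ω}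
    {m N : ℕ} {c : Ω ≃+* Ω} (h : HD.GoodCj s i W W' a b N c) (hm : m ≤ N) :
    HD.GoodCj s i W W' a b m c :=
  ⟨h.cj, h.zero, fun k hk hkm => h.pos k hk (hkm.trans hm)⟩

private theorem agd_dvd {n k m : ℕ} (h4 : 4 ∣ k + 1) (h : 2 ^ (n + 1) ∣ (k - 1) * m) :
    2 ^ n ∣ m := by
  obtain ⟨t, ht⟩ := h4
  obtain ⟨w, rfl⟩ : ∃ w, t = w + 1 := ⟨t - 1, by omega⟩
  obtain rfl : k = 4 * w + 3 := by omega
  have h1 : (4 * w + 3 - 1) * m = 2 * ((2 * w + 1) * m) := by
    have h2 : 4 * w + 3 - 1 = 2 * (2 * w + 1) := by omega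
    rw [h2, mul_assoc]
  rw [h1, pow_succ, mul_comm _ 2] at h
  have h3 : 2 ^ n ∣ (2 * w + 1) * m := Nat.dvd_of_mul_dvd_mul_left (by norm_num) h
  refine Nat.Coprime.dvd_of_dvd_mul_left ?_ h3
  apply Nat.Coprime.pow_left
  rw [Nat.coprime_two_left]
  exact ⟨w, rfl⟩

/-- `σ ^ (2 ^ n)` is trivial on `layM n` -/
private theorem agd_triv {σ : AlgebraicClosure K ≃ₐ[K] AlgebraicClosure K} (hσi : σ i = i)
    (hσW : ∀ d, σ (W d) = W d ∧ σ (W' d) = W' d)
    (hσ : ∀ n, (σ ^ 2 ^ n) (b (n + 1)) = -b (n + 1) ∧ ∀ m ≤ n, (σ ^ 2 ^ n) (b m) = b m) {n m : ℕ}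
    (hm : 2 ^ n ∣ m) {x : AlgebraicClosure K} (hx : x ∈ layM W W' i b n) : (σ ^ m) x = x := by
  obtain ⟨r, rfl⟩ := hm
  rw [pow_mul]
  exact agd_pow_id (fix_layM (agd_pow_id hσi _) (hσ n).2
    (fun c => ⟨agd_pow_id (hσW c).1 _, agd_pow_id (hσW c).2 _⟩) hx) r

/-- a good conjugation maps the layers into themselves -/
private theorem agd_layF (hb : IsBase K q s) (hS : ∀ n, Sq4 (W 1) (W' 1) i a b u n)
    {c : AlgebraicClosure K ≃+* AlgebraicClosure K} {m : ℕ}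
    (hc : GoodCj (algebraMap K (AlgebraicClosure K) s) i W W' a b m c) {x : AlgebraicClosure K}
    (hx : x ∈ layF W W' i b m) : c x ∈ layF W W' i b m ∧ c (c x) = x := by
  obtain ⟨hxM, hxF⟩ := mem_layF.1 hx
  obtain ⟨h1, h2⟩ := good_layM hb hS hc hxM
  refine ⟨mem_layF.2 ⟨h1, fun τ hτ => ?_⟩, h2⟩
  have hc' : c.symm (algebraMap K (AlgebraicClosure K) s) =
      -algebraMap K (AlgebraicClosure K) s := by
    rw [RingEquiv.symm_apply_eq, map_neg, hc.cj.neg, neg_neg]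
  obtain ⟨τ₁, hτ₁⟩ := exists_cj hb hc' τ
  have h3 : τ₁ x = x := by
    apply hxF
    intro y hy
    have h4 := agd_cj_pow hτ₁ (hK K) (c y)
    rw [RingEquiv.symm_apply_apply, hτ _ (good_layM hb hS hc hy).1,
      RingEquiv.symm_apply_apply] at h4
    exact h4
  have h5 := hτ₁ (c x)
  rw [RingEquiv.symm_apply_apply, h3] at h5
  exact (RingEquiv.symm_apply_eq c).1 h5.symm

theorem order_layF (hC : Ctx K q s v α W W') (hS : ∀ n, Sq4 (W 1) (W' 1) i a b u n)
    {σ : AlgebraicClosure K ≃ₐ[K] AlgebraicClosure K} (hσi : σ i = i)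
    (hσW : ∀ d, σ (W d) = W d ∧ σ (W' d) = W' d)
    (hσ : ∀ n, (σ ^ 2 ^ n) (b (n + 1)) = -b (n + 1) ∧ ∀ m ≤ n, (σ ^ 2 ^ n) (b m) = b m) {n m : ℕ}
    (h : ∀ x ∈ layF W W' i b (n + 1), (σ ^ m) x = x) : 2 ^ (n + 1) ∣ m := by
  obtain ⟨e, he, hgcd⟩ := (Nat.dvd_prime_pow Nat.prime_two).1 (Nat.gcd_dvd_right m (2 ^ (n + 1)))
  rcases eq_or_lt_of_le he with hen | hen
  · rw [← hen, ← hgcd]
    exact Nat.gcd_dvd_left _ _
  · exfalso
    have hle : layF W W' i b (n + 1) ≤ layF W W' i b n := by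
      intro y hy
      have h2 := agd_gcd (h y hy) (agd_triv hσi hσW hσ (dvd_refl _) (layF_le _ hy))
      rw [hgcd] at h2
      have h3 : (σ ^ 2 ^ n) y = y := by
        obtain ⟨r, hr⟩ : (2 : ℕ) ^ e ∣ 2 ^ n := pow_dvd_pow 2 (by omega)
        rw [hr, pow_mul]
        exact agd_pow_id h2 r
      exact mem_layF_of_fixed hC hS hσi hσW hσ hy h3
    have h4 : layF W W' i b n = layF W W' i b (n + 1) :=
      le_antisymm (layF_mono (Nat.le_succ n)) hle
    have h5 := finrank_layF hC hS n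
    rw [h4, finrank_layF hC hS (n + 1), pow_succ 2 (n + 1)] at h5
    have h6 : 0 < 2 ^ (n + 1) := Nat.two_pow_pos _
    omega

theorem dih_layF (hC : Ctx K q s v α W W') (hS : ∀ n, Sq4 (W 1) (W' 1) i a b u n)
    {c : AlgebraicClosure K ≃+* AlgebraicClosure K}
    (hc : IsCj (algebraMap K (AlgebraicClosure K) s) W W' c) (n : ℕ) :
    DihI s (layF W W' i b n) := by
  have hi2 : i ^ 2 = -1 := (hS 0).i2
  obtain ⟨c₀, hgood⟩ := exists_good hC hS hc (n + 2)
  have hci : c₀ i = -i := hgood.cj.imag i hi2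
  have hL : ∀ m ≤ n + 2, ∀ x ∈ layF W W' i b m, c₀ x ∈ layF W W' i b m ∧ c₀ (c₀ x) = x :=
    fun m hm x hx => agd_layF hC.base hS (agd_mono hgood hm) hx
  obtain ⟨g, hgi, hg⟩ := exists_gen4 hC hS
  obtain ⟨σ, hσdef⟩ : ∃ σ : AlgebraicClosure K ≃ₐ[K] AlgebraicClosure K, σ = g ^ hK K := ⟨_, rfl⟩
  rw [← hσdef] at hgi hg
  have hσW : ∀ d, σ (W d) = W d ∧ σ (W' d) = W' d := by
    intro d
    rw [hσdef]
    exact pow_fix hC g d
  obtain ⟨σ', hσ'⟩ := exists_cj hC.base hgood.cj.neg σ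
  obtain ⟨k, h4, hk2, hk⟩ := conj_gen hC hS hgi hσW hg hgood hσ'
  have hst : ∀ m, ∀ τ : AlgebraicClosure K ≃ₐ[K] AlgebraicClosure K,
      ∀ x ∈ layF W W' i b m, τ x ∈ layF W W' i b m := by
    intro m
    have := layF_finite (K := K) (W := W) (W' := W') (i := i) (b := b) m
    exact (ab_galois (layF W W' i b m) ((layF_le m).trans (layM_le_ab hC hS m))).2.2.1
  have hpow : ∀ l : ℕ, ∀ m ≤ n + 2, ∀ x ∈ layF W W' i b m, (σ' ^ l) x = (σ ^ (k * l)) x := by
    intro l m hm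
    induction l with
    | zero =>
      intro x _
      rw [mul_zero, pow_zero, pow_zero]
    | succ l ih =>
      intro x hx
      have h1 : σ' x = (σ ^ k) x := hk x (layM_mono hm (layF_le m hx))
      rw [pow_succ, AlgEquiv.mul_apply, h1, ih _ (hst m _ _ hx), ← AlgEquiv.mul_apply, ← pow_add,
        mul_add, mul_one]
  have key : ∀ l m, m ≤ n + 2 → ∀ y ∈ layF W W' i b m, c₀ ((σ ^ l) (c₀ y)) = (σ ^ (k * l)) y := by
    intro l m hm y hy
    rw [← agd_cj_pow hσ', (hL m hm y hy).2, hpow l m hm y hy]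
  have claim : ∀ τ τ' : AlgebraicClosure K ≃ₐ[K] AlgebraicClosure K, (∀ x, τ' (c₀ x) = c₀ (τ x)) →
      ∀ x ∈ layF W W' i b n, τ' (τ x) = x := by
    intro τ τ' hτ' x hx
    have h1 : (τ i) ^ 2 = i ^ 2 := by rw [← map_pow, hi2, map_neg, map_one]
    rcases sq_eq_sq_iff_eq_or_eq_neg.1 h1 with h2 | h2
    · obtain ⟨l, hl⟩ := aut_layF hC hS hgi hσW hg h2 n
      have h3 : τ x ∈ layF W W' i b n := hst n τ x hx
      have h5 : c₀ (τ x) ∈ layF W W' i b n := (hL n (by omega) _ h3).1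
      have h6 := hτ' (c₀ (τ x))
      rw [(hL n (by omega) _ h3).2, hl _ h5, key l n (by omega) _ h3] at h6
      rw [h6, hl x hx, ← AlgEquiv.mul_apply, ← pow_add]
      refine agd_triv hgi hσW hg ?_ (layF_le n hx)
      have h7 : k * l + l = (k + 1) * l := by ring
      rw [h7]
      exact Dvd.dvd.mul_right ((pow_dvd_pow 2 (Nat.le_succ n)).trans hk2) l
    · have hτ'i : τ' i = -i := by
        have h3 := hτ' i
        rw [hci, h2, map_neg, map_neg, hci, neg_neg] at h3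
        exact neg_eq_iff_eq_neg.1 h3
      have hρi : (τ' * τ) i = i := by
        rw [AlgEquiv.mul_apply, h2, map_neg, hτ'i, neg_neg]
      obtain ⟨m, hm⟩ := aut_layF hC hS hgi hσW hg hρi (n + 1)
      obtain ⟨-, -, hcomm, hres⟩ := layF_galois hC hS (n + 1)
      obtain ⟨ρ₁, hρ₁⟩ := hres τ
      obtain ⟨ρ₂, hρ₂⟩ := hres τ'
      have hcm : ∀ y ∈ layF W W' i b (n + 1), τ (τ' y) = τ' (τ y) := by
        intro y hy
        have h5 := congrArg (fun e => ((e ⟨y, hy⟩ : layF W W' i b (n + 1)) : AlgebraicClosure K))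
          (hcomm ρ₁ ρ₂)
        simp only [AlgEquiv.mul_apply, hρ₁, hρ₂] at h5
        exact h5
      have hall : ∀ y ∈ layF W W' i b (n + 1), (σ ^ ((k - 1) * m)) y = y := by
        intro y hy
        have hcy := (hL (n + 1) (by omega) y hy).1
        have h5 : c₀ ((τ' * τ) (c₀ y)) = (τ' * τ) y := by
          rw [AlgEquiv.mul_apply, AlgEquiv.mul_apply]
          have hw : τ (c₀ y) ∈ layF W W' i b (n + 1) := hst _ τ _ hcy
          have h6 := hτ' (c₀ (τ (c₀ y)))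
          rw [(hL (n + 1) (by omega) _ hw).2] at h6
          have hv : τ (c₀ (τ (c₀ y))) ∈ layF W W' i b (n + 1) :=
            hst _ τ _ (hL (n + 1) (by omega) _ hw).1
          rw [h6, (hL (n + 1) (by omega) _ hv).2, ← hτ' (c₀ y), (hL (n + 1) (by omega) y hy).2,
            hcm y hy]
        rw [hm _ hcy, key m (n + 1) (by omega) y hy, hm y hy] at h5
        have h6 : (σ ^ m) ((σ ^ ((k - 1) * m)) y) = (σ ^ m) y := by
          rw [← AlgEquiv.mul_apply, ← pow_add]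
          have h7 : m + (k - 1) * m = k * m := by
            obtain ⟨w, hw⟩ : ∃ w, k = w + 1 := ⟨k - 1, by omega⟩
            rw [hw, Nat.add_sub_cancel]
            ring
          rw [h7, h5]
        exact (σ ^ m).injective h6
      have h5 : 2 ^ n ∣ m := agd_dvd h4 (order_layF hC hS hgi hσW hg hall)
      have h6 := hm x (layF_mono (Nat.le_succ n) hx)
      rw [AlgEquiv.mul_apply] at h6
      rw [h6]
      exact agd_triv hgi hσW hg h5 (layF_le n hx)
  intro c' hc' x hx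
  obtain ⟨τ, hτ⟩ := exists_diff hC.base hgood.cj.neg hc'
  obtain ⟨τ', hτ'⟩ := exists_cj hC.base hgood.cj.neg τ
  have h1 : τ x ∈ layF W W' i b n := hst n τ x hx
  obtain ⟨h2, h3⟩ := hL n (by omega) _ h1
  refine ⟨?_, ?_⟩
  · rw [hτ]
    exact h2
  · rw [hτ x, hτ (c₀ (τ x)), ← hτ', h3]
    exact claim τ τ' hτ' x hx

end Pool.Agent.Work.MP_787500_nt.HD
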