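import Mathlib
import Pool.Agent.Work.MP_787500_nt.HD.AgD
import Pool.Agent.Work.MP_787500_nt.HC.Fin2
import Pool.Agent.Work.MP_787500_nt.RS.Unr

/-!
# Module FnA: the subfields of the layers satisfy the definition

`Ω = AlgebraicClosure K`, `E ≤ layF n` a number field.
* `dihI_mono`: `DihI s E`. Let `c'` be an automorphism with `c' s = -s`. For `x ∈ E` and `τ ∈ G = Ω ≃ₐ[K] Ω` which fixes `E`
  pointwise: as in `GrC` (`dih_ab`), on `layF n` the conjugate `c' τ c'⁻¹` is `τ⁻¹` (because `(c' τ)^2 = 1 = c'^2` on `layF n`), so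
  `τ⁻¹ (c' x) = c' (τ x) = c' x` and `τ (c' x) = c' x`; so `c' x` is in the fixed field of the fixing subgroup of `E`, which is
  `E` (`InfiniteGalois.fixedField_fixingSubgroup`). `c' (c' x) = x` from `dih_layF`.
* `dihField_of`: `F = E`. `IsGalois ℚ E`: every `ℚ`-automorphism `t` of `Ω` has `t s = s` (it is in `G`, `t s = s` means `K`-linear
  by `Quad.exists_coords`) or `t s = -s` (`(t s)^2 = -q`), and maps `E` into itself (`ab_galois` resp. `DihI`); `Ω` is an algebraic
  closure of `ℚ` (normal over `ℚ`), so `E` is normal over `ℚ` (`IntermediateField.restrictScalars ℚ E`,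
  `IntermediateField.normal_iff_forall_map_le'` or the like). Degree: `E ≤ layF n` gives `finrank K E ∣ 2^(n+1)`
  (`finrank_layF`, tower law), so it is a power of 2 (`Nat.dvd_prime_pow`).
  Unramified: if `Q` is a prime of `𝓞 E`, `2 ∉ Q`: as in the proof of `InTwoTower` in `HC/LyN.lean` (`tower_sub`, with
  `unram_sub` from `HC/LyM.lean`: look at the statements; `E' = layM n`, inertia elements `g` have `g^h = 1`).
  Involutions: `t : E ≃+* E` with `t s = -s` extends to an automorphism `c'` of `Ω` (`Ω` algebraically closed and algebraic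
  over `E`: e.g. `IsAlgClosure.equivOfEquiv` for `t`, or `IsAlgClosed.lift` with the algebra structure through `t`), and
  `c' s = -s`, so `t (t x) = x` by `DihI`.
-/

set_option autoImplicit false

namespace Pool.Agent.Work.MP_787500_nt.HD

open WithZero IsDedekindDomain NumberField HC

universe u

variable {K : Type u} [Field K] [NumberField K] {q : ℕ} {s : K} {v : HeightOneSpectrum (𝓞 K)}
variable {α : Kˣ} {W W' : ClassGroup (𝓞 K) → AlgebraicClosure K} {i : AlgebraicClosure K}
variable {a b u : ℕ → AlgebraicClosure K}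

theorem dihI_mono (hC : Ctx K q s v α W W') (hS : ∀ n, Sq4 (W 1) (W' 1) i a b u n)
    {c : AlgebraicClosure K ≃+* AlgebraicClosure K}
    (hc : IsCj (algebraMap K (AlgebraicClosure K) s) W W' c)
    {E : IntermediateField K (AlgebraicClosure K)} {n : ℕ} (hE : E ≤ layF W W' i b n) :
    DihI s E := by
  intro c' hc' x hx
  have hD := dih_layF hC hS hc n
  obtain ⟨-, h2⟩ := hD c' hc' x (hE hx)
  refine ⟨?_, h2⟩
  rw [← InfiniteGalois.fixedField_fixingSubgroup E, IntermediateField.mem_fixedField_iff]
  intro τ hτ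
  have hτx : τ x = x := (IntermediateField.mem_fixingSubgroup_iff E τ).1 hτ x hx
  have h3 := (hD (τ.toRingEquiv.trans c') (by
    show c' (τ (algebraMap K (AlgebraicClosure K) s)) = _
    rw [τ.commutes]
    exact hc') x (hE hx)).2
  have h4 : c' (τ (c' (τ x))) = x := h3
  rw [hτx] at h4
  exact c'.injective (h4.trans h2.symm)

private theorem fna_galois (hb : IsBase K q s) (E : IntermediateField K (AlgebraicClosure K))
    (hst : ∀ σ : AlgebraicClosure K ≃ₐ[K] AlgebraicClosure K, ∀ x ∈ E, σ x ∈ E)
    (hD : DihI s E) [NumberField E] : IsGalois ℚ E := by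
  obtain ⟨hK2, hs, hq, -⟩ := hb
  have hK : Algebra.IsAlgebraic ℚ K := inferInstance
  have hΩ : Algebra.IsAlgebraic ℚ (AlgebraicClosure K) := Algebra.IsAlgebraic.trans ℚ K _
  have hcl : IsAlgClosure ℚ (AlgebraicClosure K) := ⟨inferInstance, hΩ⟩
  have hN : Normal ℚ (AlgebraicClosure K) := IsAlgClosure.normal ℚ (AlgebraicClosure K)
  have hnorm0 := (IntermediateField.normal_iff_forall_map_le'
      (K := E.restrictScalars ℚ)).2 (by
    rintro σ _ ⟨x, hx, rfl⟩
    have hxE : x ∈ E := hx
    show σ x ∈ E
    set z := algebraMap K (AlgebraicClosure K) s with hz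
    have hz2 : z ^ 2 = -(q : AlgebraicClosure K) := by
      rw [hz, ← map_pow, hs, map_neg, map_natCast]
    have hσz : σ z ^ 2 = z ^ 2 := by
      rw [← map_pow, hz2, map_neg, map_natCast]
    rcases sq_eq_sq_iff_eq_or_eq_neg.1 hσz with h | h
    · have hcomm : ∀ k : K, σ (algebraMap K (AlgebraicClosure K) k) =
          algebraMap K (AlgebraicClosure K) k := by
        intro k
        obtain ⟨a, b, rfl⟩ := Quad.exists_coords hK2 hs hq.pos k
        rw [map_add, map_mul, map_add, map_mul, map_ratCast, map_ratCast, map_ratCast,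
          map_ratCast, ← hz, h]
      have h1 := hst (AlgEquiv.ofRingEquiv (f := (σ : AlgebraicClosure K ≃+* AlgebraicClosure K))
        hcomm) x hxE
      exact h1
    · exact (hD (σ : AlgebraicClosure K ≃+* AlgebraicClosure K) h x hxE).1)
  have hnorm : Normal ℚ (E.restrictScalars ℚ) := by
    convert hnorm0
    exact Subsingleton.elim _ _
  let e : (E.restrictScalars ℚ) ≃+* E :=
    { toFun := fun x => ⟨x.1, x.2⟩
      invFun := fun x => ⟨x.1, x.2⟩
      left_inv := fun x => rfl
      right_inv := fun x => rfl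
      map_mul' := fun x y => rfl
      map_add' := fun x y => rfl }
  let e' : (E.restrictScalars ℚ) ≃ₐ[ℚ] E := AlgEquiv.ofRingEquiv (f := e) (fun r => by
    rw [eq_ratCast, eq_ratCast, map_ratCast])
  have hnE : Normal ℚ E := Normal.of_algEquiv e'
  exact { }

theorem dihField_of (hC : Ctx K q s v α W W') (hS : ∀ n, Sq4 (W 1) (W' 1) i a b u n)
    {E : IntermediateField K (AlgebraicClosure K)} [NumberField E] {n : ℕ}
    (hE : E ≤ layF W W' i b n) (hD : DihI s E) : DihField K E s := by
  have hEab : E ≤ RS.abField K (AlgebraicClosure K) :=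
    (hE.trans (layF_le n)).trans (layM_le_ab hC hS n)
  have hfin : FiniteDimensional K E := Module.Finite.of_restrictScalars_finite ℚ K E
  obtain ⟨g1, g2, g3, -⟩ := ab_galois E hEab
  have hdeg : ∃ m : ℕ, Module.finrank K E = 2 ^ m := by
    have h1 := IntermediateField.finrank_dvd_of_le_right hE
    rw [finrank_layF hC hS n] at h1
    obtain ⟨m, -, hm⟩ := (Nat.dvd_prime_pow Nat.prime_two).1 h1
    exact ⟨m, hm⟩
  refine ⟨fna_galois hC.base E g3 hD, hdeg, fun Q hQ => ?_, ?_⟩
  · obtain ⟨m, hm⟩ := hdeg
    have hM : FiniteDimensional K (layM W W' i b n) := layM_finite n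
    have hN : NumberField (layM W W' i b n) := NumberField.of_module_finite K (layM W W' i b n)
    obtain ⟨h1, -⟩ := ab_galois (layM W W' i b n) (layM_le_ab hC hS n)
    let _ : Algebra E (layM W W' i b n) :=
      (IntermediateField.inclusion (hE.trans (layF_le n))).toRingHom.toAlgebra
    have : IsScalarTower K E (layM W W' i b n) := IsScalarTower.of_algebraMap_eq (fun x => rfl)
    refine unram_sub (M := layM W W' i b n) hm (odd_hK hC.base) Q (fun P hP g hg => ?_)
    have h2 : (2 : 𝓞 (layM W W' i b n)) ∉ P.asIdeal := by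
      intro h2
      apply hQ
      rw [← hP, Ideal.mem_comap, map_ofNat]
      exact h2
    exact inertia_trivial (wdata_res hC n) (sq4_res hS n) (adjoin_res n) P h2 (g ^ hK K)
      (pow_mem hg _) (fun c => res_fix hC hS n g c)
  · intro t ht x
    have halg : Algebra.IsAlgebraic E (AlgebraicClosure K) :=
      Algebra.IsAlgebraic.tower_top (K := K) E
    have hcl : IsAlgClosure E (AlgebraicClosure K) := ⟨inferInstance, halg⟩
    set c' := IsAlgClosure.equivOfEquiv (AlgebraicClosure K) (AlgebraicClosure K) t with hc'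
    have hext : ∀ y : E, c' (y : AlgebraicClosure K) = ((t y : E) : AlgebraicClosure K) := fun y =>
      IsAlgClosure.equivOfEquiv_algebraMap (AlgebraicClosure K) (AlgebraicClosure K) t y
    have hs' : c' (algebraMap K (AlgebraicClosure K) s) = -algebraMap K (AlgebraicClosure K) s := by
      have h1 := hext (algebraMap K E s)
      rw [ht] at h1
      exact h1
    have h2 := (hD c' hs' (x : AlgebraicClosure K) x.2).2
    rw [hext, hext] at h2
    exact Subtype.ext h2

end Pool.Agent.Work.MP_787500_nt.HD
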