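import Mathlib
import Pool.Agent.Work.MP_787500_nt.HD.Defs
import Pool.Agent.Work.MP_787500_nt.H10_Defs

/-!
# Module FnB: embedding in the algebraic closure

`Ω = AlgebraicClosure K`. `ψ : F →ₐ[K] Ω` (`IsAlgClosed.lift`), `E = ψ.fieldRange`, `e = AlgEquiv.ofInjectiveField ψ` (or
`AlgHom.equivFieldRange`). `E` is a number field (finite over `K`). `InTwoTower K E`: take `L = F` with the algebra structure
of `e.symm` (`Algebra E F`), `IsGalois K F` (from `IsGalois ℚ F`: `IsGalois.tower_top_of_isGalois ℚ K F`), the degree and the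
unramifiedness from the definition. `DihI s E`: let `c` be an automorphism of `Ω` with `c s = -s`. `F` is normal over `ℚ`, so
`c` maps `E` into itself: for `x : F` the minimal polynomial of `x` over `ℚ` splits in `F`, and `c (ψ x)` is a root of it in
`Ω`, so it is `ψ` of a root in `F`. `t = ψ⁻¹ c ψ : F ≃+* F` (injective, and surjective because it is injective and `ℚ`-linear,
`F` finite over `ℚ`), `t s = -s`, so `t (t x) = x` and `c (c (ψ x)) = ψ x`.
-/

set_option autoImplicit false

namespace Pool.Agent.Work.MP_787500_nt.HD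

open WithZero IsDedekindDomain NumberField

universe u

theorem exists_embed {K F : Type u} [Field K] [NumberField K] [Field F] [NumberField F] [Algebra K F]
    {s : K} (h : DihField K F s) :
    ∃ (E : IntermediateField K (AlgebraicClosure K)) (_ : NumberField E) (_ : F ≃ₐ[K] E),
      DihI s E ∧ InTwoTower K E := by
  obtain ⟨hGal, hm, hunr, hinv⟩ := h
  have hfin : Module.Finite K F := Module.Finite.of_restrictScalars_finite ℚ K F
  let ψ : F →ₐ[K] AlgebraicClosure K := IsAlgClosed.lift
  let e : F ≃ₐ[K] ψ.fieldRange := ψ.equivFieldRange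
  have he : ∀ x : F, ((e x : ψ.fieldRange) : AlgebraicClosure K) = ψ x := fun x => rfl
  have hE : NumberField ψ.fieldRange := NumberField.of_ringEquiv F _ e.toRingEquiv
  refine ⟨ψ.fieldRange, hE, e, ?_, ?_⟩
  · intro c hc x hx
    obtain ⟨y, rfl⟩ := hx
    let _ : Algebra F (AlgebraicClosure K) := ψ.toRingHom.toAlgebra
    have hT : IsScalarTower ℚ F (AlgebraicClosure K) := inferInstance
    have hψ : ∀ z : F, algebraMap F (AlgebraicClosure K) z = ψ z := fun z => rfl
    let t : F ≃ₐ[ℚ] F := c.toRatAlgEquiv.restrictNormal F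
    have ht : ∀ z : F, ψ (t z) = c (ψ z) := fun z =>
      c.toRatAlgEquiv.restrictNormal_commutes F z
    have hts : t.toRingEquiv (algebraMap K F s) = -algebraMap K F s := by
      apply ψ.injective
      have h1 : ψ (t (algebraMap K F s)) = -ψ (algebraMap K F s) := by
        rw [ht, AlgHom.commutes, hc]
      exact h1.trans (map_neg ψ _).symm
    have htt : t (t y) = y := hinv t.toRingEquiv hts y
    change c (ψ y) ∈ ψ.fieldRange ∧ c (c (ψ y)) = ψ y
    refine ⟨⟨t y, ht y⟩, ?_⟩
    rw [← ht, ← ht, htt]
  · let _ : Algebra ψ.fieldRange F := e.symm.toRingEquiv.toRingHom.toAlgebra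
    have hT : IsScalarTower K ψ.fieldRange F := IsScalarTower.of_algebraMap_eq fun x => by
      exact (e.symm.commutes x).symm
    exact ⟨F, inferInstance, inferInstance, inferInstance, inferInstance, hT,
      IsGalois.tower_top_of_isGalois ℚ K F, hm, hunr⟩

end Pool.Agent.Work.MP_787500_nt.HD
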