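import Mathlib
import Pool.Agent.Work.MP_787500_nt.H10_Defs
import Pool.Agent.Work.MP_787500_nt.H9_Alg

/-!
# Module FnC: the rank and field isomorphisms

The group isomorphism of the points given by `WeierstrassCurve.Affine.Point.map` for `e` and `e.symm` (as `K`-algebra
homomorphisms the curve has to be defined over the base ring; one way: let `F` be the base, `E` an `F`-algebra through `e`,
`Point.map` (or `Point.baseChange`) from `F` to `E` is injective, and surjective because `e` is; the base change of
`legendre e1 e2 e3` is `legendre (e e1) (e e2) (e e3)`; compare `RS.legendre_bc'`). Isomorphic additive groups have the same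
`Module.finrank ℤ` (`LinearEquiv.finrank_eq` for `AddEquiv.toIntLinearEquiv`).
-/

set_option autoImplicit false

namespace Pool.Agent.Work.MP_787500_nt.HD

open NumberField WeierstrassCurve WeierstrassCurve.Affine

universe u

private theorem bc_self {F : Type u} [Field F] (e1 e2 e3 : F) :
    (legendre e1 e2 e3)⁄F = legendre e1 e2 e3 := by
  simp only [legendre]
  ext <;> simp [WeierstrassCurve.map]

private theorem bc_iso {F E : Type u} [Field F] [Field E] [Algebra F E] (e1 e2 e3 : F) :
    (legendre e1 e2 e3)⁄E = legendre (algebraMap F E e1) (algebraMap F E e2)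
      (algebraMap F E e3) := by
  simp only [legendre]
  ext <;> simp [WeierstrassCurve.map]

open scoped Classical in
theorem finrank_iso {F E : Type u} [Field F] [NumberField F] [Field E] [NumberField E] (e : F ≃+* E)
    (e1 e2 e3 : F) :
    Module.finrank ℤ (legendre (e e1) (e e2) (e e3)).Point =
      Module.finrank ℤ (legendre e1 e2 e3).Point := by
  letI : Algebra F E := (e : F →+* E).toAlgebra
  have he : ∀ x, algebraMap F E x = e x := fun _ => rfl
  have hsurj : Function.Surjective (Point.map (W' := legendre e1 e2 e3) (Algebra.ofId F E)) := by
    rintro (_ | ⟨x, y, h⟩)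
    · exact ⟨0, rfl⟩
    · obtain ⟨x', rfl⟩ := e.surjective x
      obtain ⟨y', rfl⟩ := e.surjective y
      have h' : ((legendre e1 e2 e3)⁄F).Nonsingular x' y' :=
        ((legendre e1 e2 e3).baseChange_nonsingular (f := Algebra.ofId F E)
          (Algebra.ofId F E).injective x' y').mp h
      exact ⟨Point.some x' y' h', rfl⟩
  have key := LinearEquiv.finrank_eq (AddEquiv.ofBijective
    (Point.map (W' := legendre e1 e2 e3) (Algebra.ofId F E))
    ⟨Point.map_injective _, hsurj⟩).toIntLinearEquiv
  rw [bc_self, bc_iso] at key
  exact key.symm

end Pool.Agent.Work.MP_787500_nt.HD
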