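import Mathlib

/-!
# Module GrA: abelian groups of 2-power order with two generators

`two_gen`: let `B` be the subgroup generated by `g` and `t` (elements `g^k t^l`, closed under inverses since `A` is
finite; e.g. `Subgroup.closure {g, t}`, `Subgroup.mem_closure_pair`, and `zpow` reduced to `pow` by the order). If `B ≠ ⊤`,
the quotient `A / B` is a nontrivial abelian group of 2-power order (a `IsPGroup 2`), so it has a subgroup of index 2
(`Sylow.exists_subgroup_card_pow_prime`, or: the quotient by the squares is nontrivial of exponent 2), so there is a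
nontrivial homomorphism `A / B → ℤˣ` (a subgroup `U` of index 2 gives `χ x = 1` for `x ∈ U`, `-1` otherwise: grep Mathlib
for index two, `Subgroup.mul_mem_iff_of_index_two`), which is 1 on `g`, `t`: contradiction.
`sq_mem`: let `B = ⟨g⟩`. If `t^2 = g^a t^(4 b)` then `t^(2 (1 - 2 b)) ∈ B`; `1 - 2 b` is odd and the order of `t` is a power of
2, so there is `c` with `(1 - 2 b) c ≡ 1` modulo the order of `t`, and `t^2 = (t^(2(1 - 2b)))^c ∈ B`.
-/

set_option autoImplicit false

namespace Pool.Agent.Work.MP_787500_nt.HD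

private theorem npow_of_zpow {A : Type*} [Group A] [Finite A] (x : A) (m : ℤ) :
    ∃ k : ℕ, x ^ k = x ^ m := by
  have h1 : x ^ m ∈ Subgroup.zpowers x := ⟨m, rfl⟩
  have h2 := ((isOfFinOrder_of_finite x).mem_powers_iff_mem_zpowers).2 h1
  exact h2

theorem two_gen {A : Type*} [CommGroup A] [Finite A] (h2 : ∃ m, Nat.card A = 2 ^ m) {g t : A}
    (hgen : ∀ χ : A →* ℤˣ, χ g = 1 → χ t = 1 → χ = 1) (a : A) : ∃ k l : ℕ, a = g ^ k * t ^ l := by
  obtain ⟨m, hm⟩ := h2
  have hcl : Subgroup.closure {g, t} = ⊤ := by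
    by_contra hne
    haveI : Fact (Nat.Prime 2) := ⟨Nat.prime_two⟩
    obtain ⟨n, hnm, hn⟩ := (Nat.dvd_prime_pow Nat.prime_two).1
      (hm ▸ Subgroup.card_subgroup_dvd_card (Subgroup.closure {g, t}))
    have hlt : n < m := by
      rcases lt_or_eq_of_le hnm with h | h
      · exact h
      · exfalso
        apply hne
        apply Subgroup.eq_top_of_card_eq
        rw [hn, hm, h]
    obtain ⟨K, hK, hBK⟩ := Sylow.exists_subgroup_card_pow_prime_le 2 (m := m - 1)
      (by rw [hm]; exact pow_dvd_pow 2 (by omega)) (Subgroup.closure {g, t}) hn (by omega)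
    have hidx : K.index = 2 := by
      have h3 := K.card_mul_index
      rw [hK, hm] at h3
      have h4 : 2 ^ m = 2 ^ (m - 1) * 2 := by
        rw [← pow_succ]; congr 1; omega
      rw [h4] at h3
      exact Nat.eq_of_mul_eq_mul_left (by positivity) h3
    classical
    let χ : A →* ℤˣ :=
      { toFun := fun x => if x ∈ K then 1 else -1
        map_one' := if_pos K.one_mem
        map_mul' := by
          intro x y
          have h5 := Subgroup.mul_mem_iff_of_index_two hidx (a := x) (b := y)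
          by_cases hx : x ∈ K <;> by_cases hy : y ∈ K <;> simp [h5, hx, hy] }
    have hg : χ g = 1 := if_pos (hBK (Subgroup.subset_closure (by simp)))
    have ht : χ t = 1 := if_pos (hBK (Subgroup.subset_closure (by simp)))
    have hχ := hgen χ hg ht
    have hKt : K = ⊤ := by
      rw [eq_top_iff]
      intro x _
      by_contra hx
      have h6 : χ x = -1 := if_neg hx
      rw [hχ, MonoidHom.one_apply] at h6
      exact absurd h6 (by decide)
    rw [hKt, Subgroup.index_top] at hidx
    omega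
  have ha : a ∈ Subgroup.closure {g, t} := by rw [hcl]; exact Subgroup.mem_top a
  obtain ⟨k, l, hkl⟩ := Subgroup.mem_closure_pair.1 ha
  obtain ⟨k', hk⟩ := npow_of_zpow g k
  obtain ⟨l', hl⟩ := npow_of_zpow t l
  exact ⟨k', l', by rw [hk, hl, hkl]⟩

theorem sq_mem {A : Type*} [CommGroup A] [Finite A] (h2 : ∃ m, Nat.card A = 2 ^ m) {g t : A}
    (h : t ^ 2 ∈ Subgroup.closure {g, t ^ 4}) : ∃ k : ℕ, t ^ 2 = g ^ k := by
  obtain ⟨m, hm⟩ := h2
  obtain ⟨a, b, hab⟩ := Subgroup.mem_closure_pair.1 h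
  have h4 : (t ^ 4) ^ b = (t ^ 2) ^ (2 * b) := by
    rw [zpow_mul, zpow_ofNat, ← pow_mul]
  have hu : (t ^ 2) ^ (1 - 2 * b) = g ^ a := by
    rw [zpow_sub, zpow_one, ← h4]
    nth_rewrite 1 [← hab]
    rw [mul_inv_cancel_right]
  have hord : orderOf (t ^ 2) ∣ 2 ^ m := by
    rw [← hm]
    exact orderOf_dvd_natCard _
  have hcop : IsCoprime (1 - 2 * b) ((orderOf (t ^ 2) : ℕ) : ℤ) := by
    have h5 : IsCoprime (1 - 2 * b) ((2 : ℤ) ^ m) := by
      apply IsCoprime.pow_right
      exact ⟨1, b, by ring⟩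
    refine IsCoprime.of_isCoprime_of_dvd_right h5 ?_
    exact_mod_cast Int.natCast_dvd_natCast.2 hord
  obtain ⟨c, d, hcd⟩ := hcop
  have h6 : t ^ 2 = g ^ (a * c) := by
    calc t ^ 2 = (t ^ 2) ^ (c * (1 - 2 * b) + d * ((orderOf (t ^ 2) : ℕ) : ℤ)) := by
          rw [hcd, zpow_one]
      _ = ((t ^ 2) ^ (1 - 2 * b)) ^ c * ((t ^ 2) ^ ((orderOf (t ^ 2) : ℕ) : ℤ)) ^ d := by
          rw [zpow_add, mul_comm c, mul_comm d, zpow_mul, zpow_mul]
      _ = g ^ (a * c) := by
          rw [hu, zpow_natCast, pow_orderOf_eq_one, one_zpow, mul_one, zpow_mul]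
  obtain ⟨k, hk⟩ := npow_of_zpow g (a * c)
  exact ⟨k, by rw [hk, h6]⟩

end Pool.Agent.Work.MP_787500_nt.HD
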