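import Mathlib
import Pool.Agent.Work.MP_787500_nt.HD.GrA

/-!
# Module GrB: the automorphisms of a 2-extension with few quadratic subfields

`A = E ≃ₐ[K] E`, finite commutative of order `2^m` (`hdeg`). Let `g₀, t₀ : A` be the restrictions of `g`, `t`
(`AlgEquiv.restrictNormal`, `restrictNormal_commutes`).
1. `two_gen` for `g₀, t₀`: let `χ : A →* ℤˣ` be nontrivial with `χ g₀ = χ t₀ = 1`. The fixed field of `ker χ` has degree 2
over `K`, so there is `δ ∈ E` with `δ ∉ K`, `δ^2 ∈ K` and `ρ δ = χ ρ δ` for all `ρ ∈ A` (take `y` fixed by `ker χ` and not by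
some `ρ₀` with `χ ρ₀ = -1`, `IsGalois` correspondence, `δ = y - ρ₀ y`; then `ρ δ = (χ ρ) δ` because `ρ₀^2 ∈ ker χ`). By `hq`
`δ = z, z j, z r` or `z j r` with `z ∈ K`, `z ≠ 0`, and `g δ = t δ = δ` contradicts: `z ∈ K` is excluded by `χ ≠ 1`; `δ = z j`:
`t δ = -δ`; `δ = z r` or `z j r`: `g δ = -δ` (`g j = j`, `g r = -r`).
2. `t₀^2 = g₀^k` for some `k`: otherwise by `sq_mem` `t₀^2` is not in `U = closure {g₀, t₀^4}`, so there is `y ∈ E` fixed by
`g₀` and `t₀^4` with `t₀^2 y ≠ y` (Galois correspondence). `θ = y - t₀^2 y ≠ 0`, `g₀ θ = θ`, `t₀^2 θ = -θ`. `x = t₀ θ / θ`: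
`t₀^2 x = x`, `g₀ x = x`, `x * t₀ x = t₀^2 θ / θ = -1`. Now `x ∈ K + K j`: put `p = (x + t₀ x)/2`, `p' = (x - t₀ x) / (2 j)`: both
are fixed by `t₀` (`t₀ j = -j`) and by `g₀`, so by all of `A` (1.), so they are in `K`; `x = p + p' j`, `t₀ x = p - p' j`,
`-1 = x * t₀ x = p^2 + p'^2`: contradiction to `hns`.
3. Let `ρ j = j`. `ρ = g₀^k t₀^l` on `E` (1.); `l` is even because `ρ j = (-1)^l j` (`j ∈ E`, `j ≠ 0`); so `ρ` is a power of `g₀`
on `E` by 2.
-/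

set_option autoImplicit false

namespace Pool.Agent.Work.MP_787500_nt.HD

private theorem fix_out {K E : Type*} [Field K] [Field E] [Algebra K E] [FiniteDimensional K E]
    [IsGalois K E] (U : Subgroup (E ≃ₐ[K] E)) (ρ : E ≃ₐ[K] E) (hρ : ρ ∉ U) :
    ∃ y : E, (∀ σ ∈ U, σ y = y) ∧ ρ y ≠ y := by
  by_contra hcon
  push Not at hcon
  apply hρ
  rw [← IntermediateField.fixingSubgroup_fixedField U, IntermediateField.mem_fixingSubgroup_iff]
  intro y hy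
  exact hcon y fun σ hσ => (IntermediateField.mem_fixedField_iff U y).1 hy σ hσ

private theorem in_base {K E : Type*} [Field K] [Field E] [Algebra K E] [FiniteDimensional K E]
    [IsGalois K E] (x : E) (hx : ∀ σ : E ≃ₐ[K] E, σ x = x) : ∃ d : K, algebraMap K E d = x := by
  have h1 := (IsGalois.mem_bot_iff_fixed x).2 hx
  rwa [IntermediateField.mem_bot] at h1

theorem pow_of_fix {K Ω : Type*} [Field K] [Field Ω] [Algebra K Ω] [CharZero K]
    (E : IntermediateField K Ω) [FiniteDimensional K E] [IsGalois K E]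
    (hcomm : ∀ σ τ : E ≃ₐ[K] E, σ * τ = τ * σ) (hdeg : ∃ m, Module.finrank K E = 2 ^ m)
    {j r : Ω} (hj : j ^ 2 = -1) (hr : r ^ 2 = 2) (hjE : j ∈ E) (hns : ∀ u w : K, u ^ 2 + w ^ 2 ≠ -1)
    (hq : ∀ δ ∈ E, ∀ d : K, δ ^ 2 = algebraMap K Ω d → ∃ z : K, δ = algebraMap K Ω z ∨
      δ = algebraMap K Ω z * j ∨ δ = algebraMap K Ω z * r ∨ δ = algebraMap K Ω z * (j * r))
    {g t : Ω ≃ₐ[K] Ω} (hgj : g j = j) (hgr : g r = -r) (htj : t j = -j)
    {ρ : Ω ≃ₐ[K] Ω} (hρ : ρ j = j) : ∃ k : ℕ, ∀ x ∈ E, ρ x = (g ^ k) x := by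
  have : CharZero E := charZero_of_injective_algebraMap (algebraMap K E).injective
  have h20 : (2 : E) ≠ 0 := two_ne_zero
  let CG : CommGroup (E ≃ₐ[K] E) :=
    { (inferInstance : Group (E ≃ₐ[K] E)) with mul_comm := hcomm }
  have hcard : ∃ m, Nat.card (E ≃ₐ[K] E) = 2 ^ m := by
    obtain ⟨m, hm⟩ := hdeg
    exact ⟨m, by rw [← hm]; exact IsGalois.card_aut_eq_finrank K E⟩
  have comm : ∀ (σ τ : E ≃ₐ[K] E) (x : E), σ (τ x) = τ (σ x) := by
    intro σ τ x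
    have h := hcomm σ τ
    exact DFunLike.congr_fun h x
  -- restrictions
  have hres : ∀ (σ : Ω ≃ₐ[K] Ω) (x : E), ((σ.restrictNormal E x : E) : Ω) = σ (x : Ω) := by
    intro σ x
    exact AlgEquiv.restrictNormal_commutes σ E x
  obtain ⟨g₀, hg₀⟩ : ∃ g₀ : E ≃ₐ[K] E, g₀ = g.restrictNormal E := ⟨_, rfl⟩
  obtain ⟨t₀, ht₀⟩ : ∃ t₀ : E ≃ₐ[K] E, t₀ = t.restrictNormal E := ⟨_, rfl⟩
  obtain ⟨ρ₀, hρ₀⟩ : ∃ ρ₀ : E ≃ₐ[K] E, ρ₀ = ρ.restrictNormal E := ⟨_, rfl⟩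
  have hg₀c : ∀ x : E, ((g₀ x : E) : Ω) = g (x : Ω) := by intro x; rw [hg₀]; exact hres g x
  have ht₀c : ∀ x : E, ((t₀ x : E) : Ω) = t (x : Ω) := by intro x; rw [ht₀]; exact hres t x
  have hρ₀c : ∀ x : E, ((ρ₀ x : E) : Ω) = ρ (x : Ω) := by intro x; rw [hρ₀]; exact hres ρ x
  obtain ⟨J, hJ⟩ : ∃ J : E, (J : Ω) = j := ⟨⟨j, hjE⟩, rfl⟩
  have hJ2 : J ^ 2 = -1 := by
    apply Subtype.ext
    push_cast
    rw [hJ, hj]
  have hJ0 : J ≠ 0 := by
    intro h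
    rw [h] at hJ2
    norm_num at hJ2
  have hgJ : g₀ J = J := Subtype.ext (by rw [hg₀c, hJ, hgj])
  have htJ : t₀ J = -J := by
    apply Subtype.ext
    rw [ht₀c, hJ, htj]
    push_cast
    rw [hJ]
  have hρJ : ρ₀ J = J := Subtype.ext (by rw [hρ₀c, hJ, hρ])
  -- step 1
  have hgen : ∀ χ : (E ≃ₐ[K] E) →* ℤˣ, χ g₀ = 1 → χ t₀ = 1 → χ = 1 := by
    intro χ hχg hχt
    by_contra hne
    obtain ⟨σ₀, hσ₀⟩ : ∃ σ₀, χ σ₀ ≠ 1 := by
      by_contra hcon
      push Not at hcon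
      exact hne (MonoidHom.ext fun x => hcon x)
    have hσ₀' : χ σ₀ = -1 := (Int.units_eq_one_or (χ σ₀)).resolve_left hσ₀
    obtain ⟨y, hy, hyne⟩ := fix_out χ.ker σ₀ (fun h => hσ₀ (MonoidHom.mem_ker.1 h))
    obtain ⟨δ, hδ⟩ : ∃ δ : E, δ = y - σ₀ y := ⟨_, rfl⟩
    have hδ0 : δ ≠ 0 := by
      rw [hδ]
      exact sub_ne_zero.2 (Ne.symm hyne)
    have hone : ∀ σ : E ≃ₐ[K] E, χ σ = 1 → σ δ = δ := by
      intro σ hσ
      have h1 : σ y = y := hy σ (MonoidHom.mem_ker.2 hσ)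
      rw [hδ, map_sub, comm σ σ₀ y, h1]
    have hneg : ∀ σ : E ≃ₐ[K] E, χ σ = -1 → σ δ = -δ := by
      intro σ hσ
      have h1 : σ₀ (σ₀ y) = y := by
        have h2 : (σ₀ * σ₀) y = y := hy (σ₀ * σ₀) (MonoidHom.mem_ker.2 (by
          rw [map_mul, hσ₀']; norm_num))
        exact h2
      have h3 : σ y = σ₀ y := by
        have h4 : (σ₀⁻¹ * σ) y = y := hy (σ₀⁻¹ * σ) (MonoidHom.mem_ker.2 (by
          rw [map_mul, map_inv, hσ₀', hσ]; norm_num))
        have h5 : σ₀ ((σ₀⁻¹ * σ) y) = σ₀ y := by rw [h4]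
        have h6 : σ₀ ((σ₀⁻¹ * σ) y) = (σ₀ * (σ₀⁻¹ * σ)) y := rfl
        rw [h6, mul_inv_cancel_left] at h5
        exact h5
      rw [hδ, map_sub, comm σ σ₀ y, h3, h1]
      ring
    have hneg0 : ∀ σ : E ≃ₐ[K] E, σ δ = δ → σ δ = -δ → False := by
      intro σ h1 h2
      rw [h1] at h2
      have h3 : (2 : E) * δ = 0 := by linear_combination h2
      exact (mul_ne_zero h20 hδ0) h3
    have hsq : ∀ σ : E ≃ₐ[K] E, σ (δ ^ 2) = δ ^ 2 := by
      intro σ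
      rcases Int.units_eq_one_or (χ σ) with h | h
      · rw [map_pow, hone σ h]
      · rw [map_pow, hneg σ h, neg_sq]
    obtain ⟨d, hd⟩ := in_base (δ ^ 2) hsq
    have hd' : (δ : Ω) ^ 2 = algebraMap K Ω d := by
      have h1 : ((algebraMap K E d : E) : Ω) = ((δ ^ 2 : E) : Ω) := congrArg Subtype.val hd
      rw [IntermediateField.coe_pow] at h1
      rw [← h1]
      rfl
    have hgδ : g (δ : Ω) = δ := by rw [← hg₀c, hone g₀ hχg]
    have htδ : t (δ : Ω) = δ := by rw [← ht₀c, hone t₀ hχt]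
    have hδΩ : (δ : Ω) ≠ 0 := fun h => hδ0 (Subtype.ext h)
    have : CharZero Ω := charZero_of_injective_algebraMap (algebraMap K Ω).injective
    have hcontr : (δ : Ω) = -δ → False := by
      intro h
      have h3 : (2 : Ω) * δ = 0 := by linear_combination h
      exact (mul_ne_zero two_ne_zero hδΩ) h3
    obtain ⟨z, hz⟩ := hq (δ : Ω) δ.2 d hd'
    rcases hz with hz | hz | hz | hz
    · have h1 : δ = algebraMap K E z := Subtype.ext hz
      refine hneg0 σ₀ ?_ (hneg σ₀ hσ₀')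
      rw [h1, AlgEquiv.commutes]
    · apply hcontr
      nth_rewrite 1 [← htδ]
      rw [hz, map_mul, AlgEquiv.commutes, htj]
      ring
    · apply hcontr
      nth_rewrite 1 [← hgδ]
      rw [hz, map_mul, AlgEquiv.commutes, hgr]
      ring
    · apply hcontr
      nth_rewrite 1 [← hgδ]
      rw [hz, map_mul, map_mul, AlgEquiv.commutes, hgr, hgj]
      ring
  have hall : ∀ a : E ≃ₐ[K] E, ∃ k l : ℕ, a = g₀ ^ k * t₀ ^ l := fun a =>
    two_gen hcard hgen a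
  have hpowfix : ∀ (σ : E ≃ₐ[K] E) (x : E), σ x = x → ∀ k : ℕ, (σ ^ k) x = x := by
    intro σ x hx k
    induction k with
    | zero => rfl
    | succ k ih =>
      rw [pow_succ]
      show (σ ^ k) (σ x) = x
      rw [hx, ih]
  have hbase : ∀ x : E, g₀ x = x → t₀ x = x → ∃ u : K, algebraMap K E u = x := by
    intro x h1 h2
    refine in_base x fun σ => ?_
    obtain ⟨k, l, hkl⟩ := hall σ
    rw [hkl]
    show (g₀ ^ k) ((t₀ ^ l) x) = x
    rw [hpowfix t₀ x h2, hpowfix g₀ x h1]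
  -- step 2
  have hsqt : ∃ k : ℕ, t₀ ^ 2 = g₀ ^ k := by
    by_contra hcon
    have hU : t₀ ^ 2 ∉ Subgroup.closure {g₀, t₀ ^ 4} := fun h => hcon (sq_mem hcard h)
    obtain ⟨y, hy, hyne⟩ := fix_out _ _ hU
    have hgy : g₀ y = y := hy g₀ (Subgroup.subset_closure (by simp))
    have ht4 : (t₀ ^ 4) y = y := hy (t₀ ^ 4) (Subgroup.subset_closure (by simp))
    have ht2 : ∀ z : E, (t₀ ^ 2) z = t₀ (t₀ z) := by
      intro z
      rw [pow_two]
      rfl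
    have ht4' : t₀ (t₀ (t₀ (t₀ y))) = y := by
      have h1 : t₀ ^ 4 = t₀ ^ 2 * t₀ ^ 2 := by rw [← pow_add]
      rw [h1] at ht4
      have h2 : (t₀ ^ 2) ((t₀ ^ 2) y) = y := ht4
      rwa [ht2, ht2] at h2
    rw [ht2] at hyne
    obtain ⟨θ, hθ⟩ : ∃ θ : E, θ = y - t₀ (t₀ y) := ⟨_, rfl⟩
    have hθ0 : θ ≠ 0 := by
      rw [hθ]
      exact sub_ne_zero.2 (Ne.symm hyne)
    have hgθ : g₀ θ = θ := by
      rw [hθ, map_sub, comm g₀ t₀, comm g₀ t₀, hgy]
    have httθ : t₀ (t₀ θ) = -θ := by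
      rw [hθ, map_sub, map_sub, ht4']
      ring
    have htθ0 : t₀ θ ≠ 0 := by
      intro h
      exact hθ0 ((map_eq_zero_iff t₀ t₀.injective).1 h)
    obtain ⟨x, hx⟩ : ∃ x : E, x = t₀ θ / θ := ⟨_, rfl⟩
    have htx : t₀ x = -θ / t₀ θ := by rw [hx, map_div₀, httθ]
    have httx : t₀ (t₀ x) = x := by
      rw [htx, map_div₀, map_neg, httθ, hx, neg_div_neg_eq]
    have hgx : g₀ x = x := by
      rw [hx, map_div₀, comm g₀ t₀, hgθ]
    have hxtx : x * t₀ x = -1 := by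
      rw [htx, hx]
      field_simp
    obtain ⟨u, hu⟩ := hbase ((x + t₀ x) / 2)
      (by rw [map_div₀, map_add, comm g₀ t₀, hgx, map_ofNat])
      (by rw [map_div₀, map_add, httx, map_ofNat, add_comm])
    obtain ⟨w, hw⟩ := hbase ((x - t₀ x) / (2 * J))
      (by rw [map_div₀, map_sub, comm g₀ t₀, hgx, map_mul, hgJ, map_ofNat])
      (by
        rw [map_div₀, map_sub, httx, map_mul, htJ, map_ofNat]
        rw [show (t₀ x - x) = -(x - t₀ x) by ring, show (2 : E) * -J = -(2 * J) by ring,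
          neg_div_neg_eq])
    apply hns u w
    apply (algebraMap K E).injective
    rw [map_add, map_pow, map_pow, map_neg, map_one, hu, hw, ← hxtx]
    have hJJ : (2 * J) ^ 2 = -4 := by rw [mul_pow, hJ2]; norm_num
    rw [div_pow, div_pow, hJJ]
    ring
  -- step 3
  obtain ⟨k', hk'⟩ := hsqt
  obtain ⟨k, l, hkl⟩ := hall ρ₀
  have htl : ∀ l : ℕ, (t₀ ^ l) J = (-1) ^ l * J := by
    intro l
    induction l with
    | zero => simp
    | succ l ih =>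
      rw [pow_succ]
      show (t₀ ^ l) (t₀ J) = _
      rw [htJ, map_neg, ih, pow_succ]
      ring
  have hl : Even l := by
    rcases Nat.even_or_odd l with h | h
    · exact h
    · exfalso
      have h1 : ρ₀ J = -J := by
        rw [hkl]
        show (g₀ ^ k) ((t₀ ^ l) J) = -J
        rw [htl, h.neg_one_pow, neg_one_mul, map_neg, hpowfix g₀ J hgJ]
      rw [hρJ] at h1
      have h3 : (2 : E) * J = 0 := by linear_combination h1
      exact (mul_ne_zero h20 hJ0) h3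
  obtain ⟨m, hm⟩ := hl
  have hfin : ρ₀ = g₀ ^ (k + k' * m) := by
    rw [hkl, hm, pow_add g₀ k (k' * m), pow_mul g₀ k' m, ← hk', ← pow_mul, two_mul]
  have hgp : ∀ (n : ℕ) (x : E), (((g₀ ^ n) x : E) : Ω) = (g ^ n) (x : Ω) := by
    intro n
    induction n with
    | zero => intro x; rfl
    | succ n ih =>
      intro x
      rw [pow_succ, pow_succ]
      show (((g₀ ^ n) (g₀ x) : E) : Ω) = (g ^ n) (g (x : Ω))
      rw [ih, hg₀c]
  refine ⟨k + k' * m, fun x hx => ?_⟩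
  have h1 := hρ₀c ⟨x, hx⟩
  rw [hfin, hgp] at h1
  exact h1.symm

end Pool.Agent.Work.MP_787500_nt.HD
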