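import Mathlib
import Pool.Agent.Work.MP_787500_nt.H10_Defs
import Pool.Agent.Work.MP_787500_nt.H10_Quad

/-!
# Module NtA: -1 is not a sum of two squares

There is a place `v` above 2 (`Quad.exists_place`); `Quad.dyadic`: every integral `x` is congruent to 0 or 1, and
`V 2 = exp (-1)` (`V = v.valuation K`). Suppose `u^2 + w^2 = -1`. There is `z ≠ 0` in `K` such that `A = z`, `B = z u`,
`C = z w` have `V ≤ 1` and one of them has `V = 1` (if `V u, V w ≤ 1` take `z = 1`; otherwise `z` = the inverse of the one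
with the larger valuation). `A^2 + B^2 + C^2 = 0`. If `V x < 1` then `V x ≤ V 2`, `V (x^2) ≤ V 4`; if `V x = 1` then
`V (x - 1) < 1` (for `x ∈ K` with `V x = 1`: write `x` as a quotient of integers, or use the residue statement for `K`:
see `Dya.res`, `Dya.unif` in `HC/Defs.lean` and where they are proved for `v.valuation K`, grep `Dya`), so
`V (x^2 - 1) = V ((x-1)(x+1)) ≤ V 4`. So `V (A^2 + B^2 + C^2 - n) ≤ V 4` with `n` the number of the elements with `V = 1`,
`n = 1, 2, 3`, and `V n > V 4`: contradiction.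
-/

set_option autoImplicit false

namespace Pool.Agent.Work.MP_787500_nt.HD

open WithZero IsDedekindDomain NumberField

universe u

variable {K : Type u} [Field K] [NumberField K] {q : ℕ} {s : K}

private theorem nta_cls {v : HeightOneSpectrum (𝓞 K)}
    (hres : ∀ x : 𝓞 K, x ∈ v.asIdeal ∨ x - 1 ∈ v.asIdeal)
    (h2 : v.valuation K (2 : K) = exp (-1)) {x : K} (hx : v.valuation K x ≤ 1) :
    ∃ n : ℕ, n ≤ 1 ∧ v.valuation K (x ^ 2 - n) ≤ exp (-2) := by
  rcases lt_or_eq_of_le hx with h | h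
  · refine ⟨0, by norm_num, ?_⟩
    rw [Nat.cast_zero, sub_zero, map_pow, pow_two]
    have h1 : v.valuation K x ≤ exp (-1) := le_exp_of_lt (n := 0) (by rwa [exp_zero])
    calc _ ≤ exp (-1) * exp (-1) := mul_le_mul' h1 h1
      _ = exp (-2) := by rw [← exp_add]; rfl
  · refine ⟨1, le_rfl, ?_⟩
    rw [Nat.cast_one]
    refine (Quad.sq_sub_one_le hres h2 h).trans ?_
    rw [exp_le_exp]
    norm_num

private theorem nta_key {v : HeightOneSpectrum (𝓞 K)} (hv : ((2 : ℕ) : 𝓞 K) ∈ v.asIdeal)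
    (hres : ∀ x : 𝓞 K, x ∈ v.asIdeal ∨ x - 1 ∈ v.asIdeal)
    (h2 : v.valuation K (2 : K) = exp (-1)) {x y : K} (hx : v.valuation K x ≤ 1)
    (hy : v.valuation K y ≤ 1) : 1 + x ^ 2 + y ^ 2 ≠ 0 := by
  intro h
  obtain ⟨n, hn, hn2⟩ := nta_cls hres h2 hx
  obtain ⟨m, hm, hm2⟩ := nta_cls hres h2 hy
  have h3 : v.valuation K (((1 + n + m : ℕ) : ℤ) : K) ≤ exp (-2) := by
    have e : (((1 + n + m : ℕ) : ℤ) : K) = -((x ^ 2 - n) + (y ^ 2 - m)) := by
      push_cast
      linear_combination h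
    rw [e, Valuation.map_neg]
    exact (Valuation.map_add _ _ _).trans (max_le hn2 hm2)
  have hlt : (exp (-2) : ℤᵐ⁰) < 1 := by
    rw [← exp_zero, exp_lt_exp]
    norm_num
  have hlt' : (exp (-2) : ℤᵐ⁰) < exp (-1) := by
    rw [exp_lt_exp]
    norm_num
  have hodd : ¬ (2 : ℤ) ∣ ((1 + n + m : ℕ) : ℤ) → False := by
    intro h4
    have := Quad.val_int_eq_one (K := K) Nat.prime_two hv (n := ((1 + n + m : ℕ) : ℤ)) h4
    rw [this] at h3
    exact absurd hlt (not_lt.2 h3)
  have hn' : n = 0 ∨ n = 1 := by omega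
  have hm' : m = 0 ∨ m = 1 := by omega
  rcases hn' with rfl | rfl <;> rcases hm' with rfl | rfl
  · exact hodd (by norm_num)
  · have e : (((1 + 0 + 1 : ℕ) : ℤ) : K) = 2 := by norm_num
    rw [e, h2] at h3
    exact absurd hlt' (not_lt.2 h3)
  · have e : (((1 + 1 + 0 : ℕ) : ℤ) : K) = 2 := by norm_num
    rw [e, h2] at h3
    exact absurd hlt' (not_lt.2 h3)
  · exact hodd (by norm_num)

theorem not_sum_sq (hb : IsBase K q s) (u w : K) : u ^ 2 + w ^ 2 ≠ -1 := by
  intro h
  obtain ⟨hK, hs, hq, hq16⟩ := hb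
  obtain ⟨v, hv⟩ := Quad.exists_place (K := K) Nat.prime_two
  have hv2 : (2 : 𝓞 K) ∈ v.asIdeal := by exact_mod_cast hv
  obtain ⟨hres, h2⟩ := Quad.dyadic hK hs hq (by omega) hv2
  obtain ⟨V, hV⟩ : ∃ V, V = v.valuation K := ⟨_, rfl⟩
  by_cases hu1 : V u ≤ 1 ∧ V w ≤ 1
  · rw [hV] at hu1
    exact nta_key hv hres h2 hu1.1 hu1.2 (by linear_combination h)
  rcases le_total (V w) (V u) with hwu | huw
  · have hu : 1 < V u := by
      by_contra hno
      push Not at hno
      exact hu1 ⟨hno, hwu.trans hno⟩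
    have hu0 : u ≠ 0 := by
      rintro rfl
      rw [map_zero] at hu
      exact absurd hu (not_lt.2 zero_le_one)
    have hVu0 : V u ≠ 0 := (Valuation.ne_zero_iff _).2 hu0
    refine nta_key hv hres h2 (x := u⁻¹) (y := w / u) ?_ ?_ ?_
    · rw [← hV, map_inv₀]
      exact inv_le_one_of_one_le₀ hu.le
    · rw [← hV, map_div₀]
      exact div_le_one_of_le₀ hwu zero_le'
    · field_simp
      linear_combination h
  · have hw : 1 < V w := by
      by_contra hno
      push Not at hno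
      exact hu1 ⟨huw.trans hno, hno⟩
    have hw0 : w ≠ 0 := by
      rintro rfl
      rw [map_zero] at hw
      exact absurd hw (not_lt.2 zero_le_one)
    refine nta_key hv hres h2 (x := w⁻¹) (y := u / w) ?_ ?_ ?_
    · rw [← hV, map_inv₀]
      exact inv_le_one_of_one_le₀ hw.le
    · rw [← hV, map_div₀]
      exact div_le_one_of_le₀ huw zero_le'
    · field_simp
      linear_combination h

end Pool.Agent.Work.MP_787500_nt.HD
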