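import Mathlib
import Pool.Agent.Work.MP_787500_nt.H10_Defs
import Pool.Agent.Work.MP_787500_nt.H10_Quad

/-!
# Module NtB: the quadratic extensions which are Galois over the rational numbers and unramified outside 2

Write `x = r + t s` (`Quad.exists_coords`), `σ x = r - t s`, `N x = x * σ x = r^2 + q t^2`, rational and `> 0` for `x ≠ 0`.
`σ (σ x) = x`. From `h` and `σ`: `d = σ (σ d) = (σ e)^2 * σ d = (σ e)^2 e^2 d`, so `(N e)^2 = 1`, `N e = 1`.
`m = e * d`: `m^2 = e^2 d * d = σ d * d = N d` is rational and positive; `m = r + t s`, `m^2` rational gives `r t = 0`, and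
`r = 0` would give `m^2 = -q t^2 ≤ 0`; so `m` is rational. Hilbert 90: there is `f ≠ 0` with `e * f = σ f`: if `e ≠ -1` take
`f = 1 + σ e` (`e + e * σ e = e + 1 = σ f`), if `e = -1` take `f = s`. So `d = m * e⁻¹ = m * f / σ f = m / N f * f^2 = r * f^2`
with `r` rational, `r ≠ 0`. Multiply by the square of the denominator: `d = n * z^2`, `n ∈ ℤ`, `n ≠ 0`, `z ≠ 0`, and by
`Nat.sq_mul_squarefree` `n = ± a * b^2`, `a` squarefree: `d = ± a * z^2`. Let `l` be an odd prime, `l ≠ q`, `l ∣ a`: take a place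
`w` above `l` (`Quad.exists_place`); `w.valuation K l = exp (-1)` (`Quad.val_prime`), `a = l * a'`, `l` does not divide `a'`, so
`w.valuation K a = exp (-1)` (`Quad.val_int_eq_one`) and `w.valuation K d = exp (-1) * (V z)^2` is not a square:
contradiction to `hev` (`2 ∉ w` as `l` is odd). So the squarefree number `a` divides `2 q`: `a ∈ {1, 2, q, 2 q}`. Finally
`q * z^2 = -(s z)^2`.
-/

set_option autoImplicit false

namespace Pool.Agent.Work.MP_787500_nt.HD

open WithZero IsDedekindDomain NumberField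

universe u

variable {K : Type u} [Field K] [NumberField K] {q : ℕ} {s : K}

private theorem ntb_conj (hb : IsBase K q s) {σ : K ≃+* K} (hσ : σ s = -s) (x : K) :
    σ (σ x) = x := by
  obtain ⟨hK, hs, hq, -⟩ := hb
  obtain ⟨a, b, rfl⟩ := Quad.exists_coords hK hs hq.pos x
  rw [map_add, map_mul, map_ratCast, map_ratCast, hσ, map_add, map_mul, map_neg, map_ratCast,
    map_ratCast, hσ, neg_neg]

/-- the norm is rational and positive -/
private theorem ntb_norm (hb : IsBase K q s) {σ : K ≃+* K} (hσ : σ s = -s) {x : K} (hx : x ≠ 0) :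
    ∃ r : ℚ, 0 < r ∧ x * σ x = r := by
  obtain ⟨hK, hs, hq, -⟩ := hb
  obtain ⟨a, b, rfl⟩ := Quad.exists_coords hK hs hq.pos x
  refine ⟨a ^ 2 + q * b ^ 2, ?_, ?_⟩
  · have hq' : (0 : ℚ) < q := by exact_mod_cast hq.pos
    by_contra hno
    push Not at hno
    have h1 := sq_nonneg a
    have h2 := mul_nonneg hq'.le (sq_nonneg b)
    have h3 : a ^ 2 = 0 := by linarith
    have h4 : (q : ℚ) * b ^ 2 = 0 := by linarith
    have ha : a = 0 := by
      rwa [sq_eq_zero_iff] at h3
    have hb : b = 0 := by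
      have := (mul_eq_zero.1 h4).resolve_left hq'.ne'
      rwa [sq_eq_zero_iff] at this
    exact hx (by rw [ha, hb]; simp)
  · rw [map_add, map_mul, map_ratCast, map_ratCast, hσ]
    push_cast
    linear_combination (-(b : K) ^ 2) * hs

theorem sq_class (hb : IsBase K q s) {σ : K ≃+* K} (hσ : σ s = -s) {d e : K} (hd : d ≠ 0)
    (h : σ d = e ^ 2 * d)
    (hev : ∀ w : HeightOneSpectrum (𝓞 K), (2 : 𝓞 K) ∉ w.asIdeal → IsSquare (w.valuation K d)) :
    ∃ z : K, d = z ^ 2 ∨ d = -z ^ 2 ∨ d = 2 * z ^ 2 ∨ d = -(2 * z ^ 2) := by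
  have hb' := hb
  obtain ⟨hK, hs, hq, hq16⟩ := hb'
  have hs0 := Quad.s_ne_zero hs hq
  have he : e ≠ 0 := by
    rintro rfl
    have h1 : σ d = 0 := by rw [h]; ring
    exact hd ((map_eq_zero σ).1 h1)
  -- the norm of `e`
  have hN : e * σ e = 1 := by
    have h1 : (e * σ e) ^ 2 = 1 := by
      have h2 := ntb_conj hb hσ d
      rw [h, map_mul, map_pow, h] at h2
      have h3 : d * ((e * σ e) ^ 2 - 1) = 0 := by linear_combination h2
      have h4 := (mul_eq_zero.1 h3).resolve_left hd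
      linear_combination h4
    obtain ⟨r, hr, hre⟩ := ntb_norm hb hσ he
    rw [hre] at h1 ⊢
    have h2 : r ^ 2 = 1 := by exact_mod_cast h1
    have h3 : r = 1 := by
      have h4 : (r - 1) * (r + 1) = 0 := by linear_combination h2
      rcases mul_eq_zero.1 h4 with h | h
      · linarith
      · linarith
    rw [h3, Rat.cast_one]
  -- `m = e d` is rational
  obtain ⟨m, hm0, hm⟩ : ∃ m : ℚ, m ≠ 0 ∧ e * d = m := by
    obtain ⟨r, hr, hrd⟩ := ntb_norm hb hσ hd
    obtain ⟨a, b, hab⟩ := Quad.exists_coords hK hs hq.pos (e * d)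
    have h1 : (e * d) ^ 2 = r := by
      rw [← hrd, h]; ring
    rw [hab] at h1
    have h2 : ((a ^ 2 - q * b ^ 2 - r : ℚ) : K) + ((2 * a * b : ℚ) : K) * s = 0 := by
      push_cast
      linear_combination h1 - (b : K) ^ 2 * hs
    obtain ⟨h3, h4⟩ := Quad.not_rat hs hq.pos _ _ h2
    have hq' : (0 : ℚ) < q := by exact_mod_cast hq.pos
    have hb0 : b = 0 := by
      by_contra hb0
      have ha0 : a = 0 := by
        rcases mul_eq_zero.1 h4 with h5 | h5
        · rcases mul_eq_zero.1 h5 with h6 | h6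
          · norm_num at h6
          · exact h6
        · exact absurd h5 hb0
      rw [ha0] at h3
      have := mul_nonneg hq'.le (sq_nonneg b)
      nlinarith
    refine ⟨a, ?_, ?_⟩
    · rintro rfl
      rw [hb0] at hab
      have h5 : e * d = 0 := by rw [hab]; simp
      rcases mul_eq_zero.1 h5 with h6 | h6
      · exact he h6
      · exact hd h6
    · rw [hab, hb0]; simp
  -- Hilbert 90
  obtain ⟨f, hf0, hf⟩ : ∃ f : K, f ≠ 0 ∧ e * f = σ f := by
    by_cases he1 : e = -1
    · exact ⟨s, hs0, by rw [he1, hσ]; ring⟩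
    · refine ⟨1 + σ e, ?_, ?_⟩
      · intro h0
        have h1 : σ e = -1 := by linear_combination h0
        have h2 : σ (σ e) = -1 := by rw [h1, map_neg, map_one]
        rw [ntb_conj hb hσ] at h2
        exact he1 h2
      · rw [map_add, map_one, ntb_conj hb hσ]
        linear_combination hN
  obtain ⟨N, hN0, hNf⟩ := ntb_norm hb hσ hf0
  have hσf0 : σ f ≠ 0 := (map_ne_zero σ).2 hf0
  obtain ⟨ρ, hρ⟩ : ∃ ρ : ℚ, ρ = m / N := ⟨_, rfl⟩
  have hρ0 : ρ ≠ 0 := by rw [hρ]; exact div_ne_zero hm0 hN0.ne'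
  have hN0' : (N : K) ≠ 0 := by exact_mod_cast hN0.ne'
  have hdρ : d = ρ * f ^ 2 := by
    have h1 : (N : K) * d = m * f ^ 2 := by
      rw [← hNf, ← hm, ← hf]; ring
    rw [hρ]
    push_cast
    field_simp
    linear_combination h1
  obtain ⟨M, hM⟩ : ∃ M : ℤ, M = ρ.num * ρ.den := ⟨_, rfl⟩
  have hden : (ρ.den : K) ≠ 0 := by exact_mod_cast ρ.den_ne_zero
  have hM0 : M ≠ 0 := by
    rw [hM]
    exact mul_ne_zero (Rat.num_ne_zero.2 hρ0) (by exact_mod_cast ρ.den_ne_zero)
  have hdM : d = M * (f / ρ.den) ^ 2 := by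
    have h1 : (ρ : K) = ρ.num / ρ.den := by
      conv_lhs => rw [← Rat.num_div_den ρ]
      push_cast
      rfl
    rw [hdρ, hM, h1]
    push_cast
    field_simp
  have hfd : f / (ρ.den : K) ≠ 0 := div_ne_zero hf0 hden
  have hev' : EvenOff2 (M : K) := by
    intro w hw
    have h1 := hev w hw
    rw [hdM, map_mul, map_pow, pow_two] at h1
    exact Quad.IsSquare.of_mul' (mul_ne_zero ((Valuation.ne_zero_iff _).2 hfd)
      ((Valuation.ne_zero_iff _).2 hfd)) h1 ⟨_, rfl⟩
  obtain ⟨ε, b, t, hε, hbb, ht, hMe⟩ := Quad.int_cls hK hs hq (by omega) hM0 hev'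
  refine ⟨t * (f / ρ.den), ?_⟩
  have hd2 : d = ε * b * (t * (f / ρ.den)) ^ 2 := by
    rw [hdM, hMe]; ring
  rcases hε with rfl | rfl <;> rcases hbb with rfl | rfl
  · left
    rw [hd2]; push_cast; ring
  · right; right; left
    rw [hd2]; push_cast; ring
  · right; left
    rw [hd2]; push_cast; ring
  · right; right; right
    rw [hd2]; push_cast; ring

end Pool.Agent.Work.MP_787500_nt.HD
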