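import Mathlib
import Pool.Agent.Work.MP_787500_nt.H10_Defs
import Pool.Agent.Work.MP_787500_nt.H10_Gal
import Pool.Agent.Work.MP_787500_nt.H67_Tower

/-!
# Module RmA: unramified extensions and inertia groups

`Ω = AlgebraicClosure K`. `inertia_fix`: `h` gives `L` with `Algebra E L`, Galois over `K`, unramified off 2. Extend the
inclusion `E → Ω` to `φ : L →ₐ[E] Ω` (`IsAlgClosed.lift`, `L` is algebraic over `E`), make `Ω` an `L`-algebra by `φ`
(as in the proof of `vanish_of_tower` in `H67_Tower.lean`), and apply `fix_of_inertia` with `p = 2` to the image of `x` in `L`.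
`even_of_sup`: if the valuation is not a square, `exists_inertia_of_odd` (`H10_Gal.lean`, `F = K`) gives a prime `Q`, `2 ∉ Q`, and
`σ` in its inertia group with `σ δ = -δ`. `σ` fixes `E` and `E'` (`inertia_fix`), so it fixes `E ⊔ E'` and `δ`; so `δ = 0`,
`d = 0`, and `w.valuation K 0 = 0` is a square: contradiction.
-/

set_option autoImplicit false

namespace Pool.Agent.Work.MP_787500_nt.HD

open WithZero IsDedekindDomain NumberField
open scoped Pointwise

universe u

variable {K : Type u} [Field K] [NumberField K]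

theorem inertia_fix {E : IntermediateField K (AlgebraicClosure K)} [NumberField E]
    (h : InTwoTower K E) {Q : Ideal (𝓞 (AlgebraicClosure K))} (hQ : Q.IsPrime)
    (h2 : (2 : 𝓞 (AlgebraicClosure K)) ∉ Q) {σ : AlgebraicClosure K ≃ₐ[K] AlgebraicClosure K}
    (hσ : σ ∈ Q.inertia (AlgebraicClosure K ≃ₐ[K] AlgebraicClosure K)) {x : AlgebraicClosure K}
    (hx : x ∈ E) : σ x = x := by
  obtain ⟨L, _, _, _, _, _, hgal, -, hunr⟩ := h
  have hG : IsGalois K (AlgebraicClosure K) := inferInstance
  have hfd : FiniteDimensional K L := Module.Finite.of_restrictScalars_finite ℚ K L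
  have halg : Algebra.IsAlgebraic E L := Algebra.IsAlgebraic.tower_top (K := K) E
  let φ : L →ₐ[E] AlgebraicClosure K := IsAlgClosed.lift
  let _ : Algebra L (AlgebraicClosure K) := φ.toRingHom.toAlgebra
  have hmap : ∀ x : L, algebraMap L (AlgebraicClosure K) x = φ x := fun _ => rfl
  have htow2 : IsScalarTower K L (AlgebraicClosure K) := by
    apply IsScalarTower.of_algebraMap_eq
    intro x
    rw [hmap, IsScalarTower.algebraMap_apply K E L, AlgHom.commutes,
      ← IsScalarTower.algebraMap_apply]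
  have h3 : ((2 : ℕ) : 𝓞 (AlgebraicClosure K)) ∉ Q := by
    rw [Nat.cast_ofNat]
    exact h2
  have h1 := OddP.fix_of_inertia (K := K) (L := L) (Ω := AlgebraicClosure K) (p := 2) (by
    intro P hP
    rw [Nat.cast_ofNat] at hP
    exact hunr P hP) Q h3 hσ (algebraMap E L ⟨x, hx⟩)
  rw [hmap, AlgHom.commutes] at h1
  exact h1

theorem even_of_sup {E E' : IntermediateField K (AlgebraicClosure K)} [NumberField E] [NumberField E']
    (h : InTwoTower K E) (h' : InTwoTower K E') {d : K} {δ : AlgebraicClosure K}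
    (hδ : δ ^ 2 = algebraMap K (AlgebraicClosure K) d) (hm : δ ∈ E ⊔ E')
    (w : HeightOneSpectrum (𝓞 K)) (hw : (2 : 𝓞 K) ∉ w.asIdeal) : IsSquare (w.valuation K d) := by
  by_contra hc
  obtain ⟨Q, hQ, h2, σ, hσ, hs⟩ := exists_inertia_of_odd hδ hw hc
  let M : IntermediateField K (AlgebraicClosure K) :=
    IntermediateField.fixedField (Subgroup.zpowers σ)
  have hM : ∀ x : AlgebraicClosure K, σ x = x → x ∈ M := by
    intro x hx
    rw [IntermediateField.mem_fixedField_iff]
    intro τ hτ
    obtain ⟨n, rfl⟩ := Subgroup.mem_zpowers_iff.1 hτ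
    have h3 : σ ∈ MulAction.stabilizer (AlgebraicClosure K ≃ₐ[K] AlgebraicClosure K) x := hx
    exact Subgroup.zpow_mem _ h3 n
  have hle : E ⊔ E' ≤ M :=
    sup_le (fun x hx => hM x (inertia_fix h hQ h2 hσ hx))
      (fun x hx => hM x (inertia_fix h' hQ h2 hσ hx))
  have h3 : σ δ = δ := by
    have h4 := hle hm
    rw [IntermediateField.mem_fixedField_iff] at h4
    exact h4 σ (Subgroup.mem_zpowers σ)
  rw [hs] at h3
  have h5 : δ = 0 := by
    have h6 : (2 : AlgebraicClosure K) * δ = 0 := by linear_combination (-1 : AlgebraicClosure K) * h3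
    rcases mul_eq_zero.1 h6 with h7 | h7
    · exact absurd h7 two_ne_zero
    · exact h7
  rw [h5, zero_pow two_ne_zero] at hδ
  have h6 : d = 0 := (map_eq_zero (algebraMap K (AlgebraicClosure K))).1 hδ.symm
  apply hc
  rw [h6, map_zero]
  exact ⟨0, by rw [mul_zero]⟩

end Pool.Agent.Work.MP_787500_nt.HD
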