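import Mathlib
import Pool.Agent.Work.MP_787500_nt.HD.AgD
import Pool.Agent.Work.MP_787500_nt.HD.NtA
import Pool.Agent.Work.MP_787500_nt.HD.NtB
import Pool.Agent.Work.MP_787500_nt.HD.RmA
import Pool.Agent.Work.MP_787500_nt.HD.GrB

/-!
# Module GrC: dihedral fields are contained in the layers

`Ω = AlgebraicClosure K`, `G = Ω ≃ₐ[K] Ω`, `c` as in the hypothesis.
`dih_ab`: for `F` with `DihI s F`: for `τ ∈ G`, `c` and `c' = c ∘ τ` both have `c' s = -s`, so for `x ∈ F`: `c x ∈ F`,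
`c (c x) = x`, `c (τ x) ∈ F`, `τ x = c (c (τ x)) ∈ F` (as `c (c' x) ∈ F`; here `c (c y) = y` for all `y ∈ F`; to see
`τ x ∈ F`: `c' x = c (τ x) ∈ F`, and `c : F → F` is surjective, `c` injective). `c (τ (c (τ x))) = x`. So with `τ' = c τ c⁻¹`
(`exists_cj`): `τ' (τ x) = x` on `F`, i.e. `τ' = τ⁻¹` on `F`; conjugation by `c` is a homomorphism, so
`(σ τ)⁻¹ = σ⁻¹ τ⁻¹` on `F` and `σ (τ x) = τ (σ x)`: `F ≤ RS.abField K Ω` (`RS.mem_abField`).
`le_layF`: `n = m + 1`, `E = F ⊔ layF n`. `E ≤ abField`; finite over `K`; Galois and abelian (`ab_galois`, it also gives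
restrictions and lifts of automorphisms). Its degree is a power of 2: every `ρ ∈ Gal(E/K)` has `ρ^(2^(m+n+1)) = 1`, because this
holds on `F` (`Gal(F/K)` has `2^m` elements, lift/restrict) and on `layF n` (`2^(n+1)` elements, `finrank_layF`)
(`IsPGroup.iff_card`, `IsGalois.card_aut_eq_finrank`). `DihI s E`: `c' x ∈ E` for `x ∈ E` (`c'` maps generators into `E`), and
`x ↦ c' (c' x)` is a ring homomorphism which fixes `F` and `layF n` (`dih_layF`).
Apply `pow_of_fix` with `j = i` (in `layF`: `i_mem_layF`), `hns = not_sum_sq`, `t = c₀^h` of `exists_c`, `g = σ = g₀^h` of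
`exists_gen4` (`σ i = i`, `σ` fixes `W a`, `W' a` by `pow_fix`), and `r = p + p⁻¹`, `p = b 1 / (W 1 * W' 1)`: `p^2 = -i`
(see `exists_gen4`), so `r^2 = -i + 2 + i = 2`, and `σ p = -p`, `σ r = -r`.
`hq`: let `δ ∈ E`, `δ^2 = d ∈ K`, `d ≠ 0` (`d = 0`: `z = 0`). For `ρ ∈ G` `ρ δ = ε δ`, `ε = ± 1`; `c δ ∈ E`, and `ρ' = c ρ c⁻¹ = ρ⁻¹`
on `E`, `ρ' (c δ) = c (ρ δ) = ε c δ`, so `ρ (c δ) = ε c δ`; so `c δ / δ` is fixed by `G`, it is `e ∈ K`
(`AlgebraicClosure K` is Galois over `K`: `InfiniteGalois` or `IsGalois.mem_bot_iff_fixed`). With `σK` of `exists_res`: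
`σK d = e^2 d`. `even_of_sup` gives `hev`. `sq_class` gives `δ^2 = z^2, -z^2, 2 z^2, -2 z^2`, so `δ = ± z, ± z i, ± z r, ± z i r`.
Conclusion: every `ρ ∈ G` with `ρ i = i` is a power of `σ` on `E`. Let `τ ∈ G` be trivial on `layF n`. Then `τ i = i`, `τ = σ^k` on
`E`, `σ^k` is trivial on `layF n = layF (m+1)`, so `2^(m+1) ∣ k` (`order_layF`), and `σ^(2^m)` is trivial on `F`
(`Gal(F/K)` has `2^m` elements). So `τ` is trivial on `F`. By the Galois correspondence (`layF n` is finite over `K`: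
`InfiniteGalois.fixedField_fixingSubgroup`) `F ≤ layF n`.
-/

set_option autoImplicit false

namespace Pool.Agent.Work.MP_787500_nt.HD

open WithZero IsDedekindDomain NumberField HC

universe u

variable {K : Type u} [Field K] [NumberField K] {q : ℕ} {s : K} {v : HeightOneSpectrum (𝓞 K)}
variable {α : Kˣ} {W W' : ClassGroup (𝓞 K) → AlgebraicClosure K} {i : AlgebraicClosure K}
variable {a b u : ℕ → AlgebraicClosure K}

omit [NumberField K] in
private theorem dih_stab {c : AlgebraicClosure K ≃+* AlgebraicClosure K}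
    (hc : c (algebraMap K (AlgebraicClosure K) s) = -algebraMap K (AlgebraicClosure K) s)
    {F : IntermediateField K (AlgebraicClosure K)} (hF : DihI s F)
    (τ : AlgebraicClosure K ≃ₐ[K] AlgebraicClosure K) {x : AlgebraicClosure K} (hx : x ∈ F) :
    c (c (τ x)) = τ x ∧ τ x ∈ F ∧ c (τ (c (τ x))) = x := by
  have h0 : (τ.toRingEquiv.trans c) (algebraMap K (AlgebraicClosure K) s) =
      -algebraMap K (AlgebraicClosure K) s := by
    show c (τ (algebraMap K (AlgebraicClosure K) s)) = _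
    rw [τ.commutes, hc]
  obtain ⟨h1, h2⟩ := hF _ h0 x hx
  have h1' : c (τ x) ∈ F := h1
  have h2' : c (τ (c (τ x))) = x := h2
  obtain ⟨h3, h4⟩ := hF c hc _ h1'
  have h5 : c (c (τ x)) = τ x := c.injective h4
  exact ⟨h5, h5 ▸ h3, h2'⟩

omit [NumberField K] in
private theorem dih_inv {c : AlgebraicClosure K ≃+* AlgebraicClosure K}
    (hc : c (algebraMap K (AlgebraicClosure K) s) = -algebraMap K (AlgebraicClosure K) s)
    {F : IntermediateField K (AlgebraicClosure K)} (hF : DihI s F)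
    {τ τ' : AlgebraicClosure K ≃ₐ[K] AlgebraicClosure K} (h : ∀ x, τ' (c x) = c (τ x))
    {x : AlgebraicClosure K} (hx : x ∈ F) : τ' (τ x) = x := by
  obtain ⟨h1, -, h3⟩ := dih_stab hc hF τ hx
  have h4 := h (c (τ x))
  rw [h1, h3] at h4
  exact h4

omit [NumberField K] in
private theorem fix_sup {E E' : IntermediateField K (AlgebraicClosure K)}
    {τ : AlgebraicClosure K ≃ₐ[K] AlgebraicClosure K} (h : ∀ x ∈ E, τ x = x)
    (h' : ∀ x ∈ E', τ x = x) {x : AlgebraicClosure K} (hx : x ∈ E ⊔ E') : τ x = x := by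
  have h1 : τ ∈ (E ⊔ E').fixingSubgroup := by
    rw [IntermediateField.fixingSubgroup_sup]
    exact ⟨(IntermediateField.mem_fixingSubgroup_iff E τ).2 h,
      (IntermediateField.mem_fixingSubgroup_iff E' τ).2 h'⟩
  exact (IntermediateField.mem_fixingSubgroup_iff _ τ).1 h1 x hx

omit [NumberField K] in
/-- the order of the Galois group of a finite subfield -/
private theorem pow_card_fix [CharZero K] {E : IntermediateField K (AlgebraicClosure K)}
    (hE : E ≤ RS.abField K (AlgebraicClosure K)) [FiniteDimensional K E] {k : ℕ}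
    (hk : Module.finrank K E = k) (τ : AlgebraicClosure K ≃ₐ[K] AlgebraicClosure K)
    {x : AlgebraicClosure K} (hx : x ∈ E) : (τ ^ k) x = x := by
  obtain ⟨h1, -, -, h4, -⟩ := ab_galois E hE
  obtain ⟨ρ, hρ⟩ := h4 τ
  have h5 : ρ ^ k = 1 := by
    rw [← hk, ← IsGalois.card_aut_eq_finrank K E]
    exact pow_card_eq_one'
  have h6 := apply_pow_coe hρ k ⟨x, hx⟩
  rw [h5] at h6
  exact h6.symm

omit [NumberField K] in
private theorem dih_sup {E E' : IntermediateField K (AlgebraicClosure K)} (h : DihI s E)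
    (h' : DihI s E') : DihI s (E ⊔ E') := by
  intro c hc x hx
  rw [IntermediateField.sup_def] at hx ⊢
  induction hx using IntermediateField.adjoin_induction with
  | mem y hy =>
    rcases hy with hy | hy
    · obtain ⟨h1, h2⟩ := h c hc y hy
      exact ⟨IntermediateField.subset_adjoin _ _ (Or.inl h1), h2⟩
    · obtain ⟨h1, h2⟩ := h' c hc y hy
      exact ⟨IntermediateField.subset_adjoin _ _ (Or.inr h1), h2⟩
  | algebraMap y =>
    obtain ⟨h1, h2⟩ := h c hc _ (E.algebraMap_mem y)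
    exact ⟨IntermediateField.subset_adjoin _ _ (Or.inl h1), h2⟩
  | add y z _ _ hy hz =>
    refine ⟨?_, ?_⟩
    · rw [map_add]
      exact add_mem hy.1 hz.1
    · rw [map_add, map_add, hy.2, hz.2]
  | inv y _ hy =>
    refine ⟨?_, ?_⟩
    · rw [map_inv₀]
      exact inv_mem hy.1
    · rw [map_inv₀, map_inv₀, hy.2]
  | mul y z _ _ hy hz =>
    refine ⟨?_, ?_⟩
    · rw [map_mul]
      exact mul_mem hy.1 hz.1
    · rw [map_mul, map_mul, hy.2, hz.2]

/-- the square classes of `K` in a dihedral field -/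
private theorem sq_cls (hb : IsBase K q s) {c : AlgebraicClosure K ≃+* AlgebraicClosure K}
    (hc : c (algebraMap K (AlgebraicClosure K) s) = -algebraMap K (AlgebraicClosure K) s)
    {E E' : IntermediateField K (AlgebraicClosure K)} [NumberField E] [NumberField E']
    (hE : InTwoTower K E) (hE' : InTwoTower K E') (hD : DihI s (E ⊔ E'))
    {j r : AlgebraicClosure K} (hj : j ^ 2 = -1) (hr : r ^ 2 = 2) {δ : AlgebraicClosure K}
    (hδE : δ ∈ E ⊔ E') {d : K} (hδ : δ ^ 2 = algebraMap K (AlgebraicClosure K) d) :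
    ∃ z : K, δ = algebraMap K (AlgebraicClosure K) z ∨
      δ = algebraMap K (AlgebraicClosure K) z * j ∨
      δ = algebraMap K (AlgebraicClosure K) z * r ∨
      δ = algebraMap K (AlgebraicClosure K) z * (j * r) := by
  by_cases hd : d = 0
  · refine ⟨0, Or.inl ?_⟩
    rw [hd, map_zero] at hδ
    rw [map_zero]
    exact pow_eq_zero_iff two_ne_zero |>.1 hδ
  have hδ0 : δ ≠ 0 := by
    rintro rfl
    rw [zero_pow two_ne_zero] at hδ
    exact hd ((map_eq_zero _).1 hδ.symm)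
  have hcδ0 : c δ ≠ 0 := (map_ne_zero c).2 hδ0
  obtain ⟨hcδ, -⟩ := hD c hc δ hδE
  have hfix : ∀ ρ : AlgebraicClosure K ≃ₐ[K] AlgebraicClosure K, ρ (c δ / δ) = c δ / δ := by
    intro ρ
    obtain ⟨ρ', hρ'⟩ := exists_cj hb hc ρ
    have h1 : (ρ δ) ^ 2 = δ ^ 2 := by
      rw [← map_pow, hδ, ρ.commutes]
    have h2 := dih_inv hc hD hρ' hcδ
    rcases sq_eq_sq_iff_eq_or_eq_neg.1 h1 with h3 | h3
    · have h4 : ρ' (c δ) = c δ := by rw [hρ', h3]
      have h5 : ρ (c δ) = c δ := ρ'.injective (h2.trans h4.symm)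
      rw [map_div₀, h3, h5]
    · have h4 : ρ' (-c δ) = c δ := by rw [map_neg, hρ', h3, map_neg, neg_neg]
      have h5 : ρ (c δ) = -c δ := ρ'.injective (h2.trans h4.symm)
      rw [map_div₀, h3, h5, neg_div_neg_eq]
  obtain ⟨e, he⟩ := (InfiniteGalois.mem_range_algebraMap_iff_fixed (c δ / δ)).2 hfix
  obtain ⟨σ, hσs, -, hσ⟩ := exists_res hb
  have he' : c δ = algebraMap K (AlgebraicClosure K) e * δ := by
    rw [he, div_mul_cancel₀ _ hδ0]
  have h1 : σ d = e ^ 2 * d := by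
    apply (algebraMap K (AlgebraicClosure K)).injective
    rw [← hσ c hc, ← hδ, map_pow, he', map_mul, map_pow, mul_pow, hδ]
  obtain ⟨z, hz⟩ := sq_class hb hσs hd h1 (fun w hw => even_of_sup hE hE' hδ hδE w hw)
  have key : ∀ y : AlgebraicClosure K, δ ^ 2 = (algebraMap K (AlgebraicClosure K) z * y) ^ 2 →
      ∃ z : K, δ = algebraMap K (AlgebraicClosure K) z * y := by
    intro y hy
    rcases sq_eq_sq_iff_eq_or_eq_neg.1 hy with h3 | h3
    · exact ⟨z, h3⟩
    · exact ⟨-z, by rw [h3, map_neg, neg_mul]⟩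
  rcases hz with hz | hz | hz | hz
  · obtain ⟨z', hz'⟩ := key 1 (by rw [hδ, hz, map_pow, mul_one])
    exact ⟨z', Or.inl (by rw [hz', mul_one])⟩
  · obtain ⟨z', hz'⟩ := key j (by rw [hδ, hz, map_neg, map_pow, mul_pow, hj]; ring)
    exact ⟨z', Or.inr (Or.inl hz')⟩
  · obtain ⟨z', hz'⟩ := key r (by
      rw [hδ, hz, map_mul, map_pow, mul_pow, hr, map_ofNat]; ring)
    exact ⟨z', Or.inr (Or.inr (Or.inl hz'))⟩
  · obtain ⟨z', hz'⟩ := key (j * r) (by
      rw [hδ, hz, map_neg, map_mul, map_pow, mul_pow, mul_pow, hj, hr, map_ofNat]; ring)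
    exact ⟨z', Or.inr (Or.inr (Or.inr hz'))⟩

theorem dih_ab (hb : IsBase K q s) {c : AlgebraicClosure K ≃+* AlgebraicClosure K}
    (hc : c (algebraMap K (AlgebraicClosure K) s) = -algebraMap K (AlgebraicClosure K) s)
    {F : IntermediateField K (AlgebraicClosure K)} (hF : DihI s F) :
    F ≤ RS.abField K (AlgebraicClosure K) := by
  intro x hx
  rw [RS.mem_abField]
  intro σ τ
  obtain ⟨σ', hσ'⟩ := exists_cj hb hc σ
  obtain ⟨τ', hτ'⟩ := exists_cj hb hc τ
  have h1 : ∀ y, (σ' * τ') (c y) = c ((σ * τ) y) := by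
    intro y
    rw [AlgEquiv.mul_apply, AlgEquiv.mul_apply, hτ', hσ']
  have h2 := dih_inv hc hF h1 hx
  rw [AlgEquiv.mul_apply, AlgEquiv.mul_apply] at h2
  have h3 : σ' (τ' (τ (σ x))) = x := by
    rw [dih_inv hc hF hτ' (dih_stab hc hF σ hx).2.1, dih_inv hc hF hσ' hx]
  exact τ'.injective (σ'.injective (h2.trans h3.symm))

theorem le_layF (hC : Ctx K q s v α W W') (hS : ∀ n, Sq4 (W 1) (W' 1) i a b u n)
    {c : AlgebraicClosure K ≃+* AlgebraicClosure K}
    (hc : IsCj (algebraMap K (AlgebraicClosure K) s) W W' c)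
    {F : IntermediateField K (AlgebraicClosure K)} [NumberField F] (hF : DihI s F)
    (hT : InTwoTower K F) {m : ℕ} (hm : Module.finrank K F = 2 ^ m) :
    F ≤ layF W W' i b (m + 1) := by
  have hi := (hS 0).i2
  have hFab : F ≤ RS.abField K (AlgebraicClosure K) := dih_ab hC.base hc.neg hF
  have hLab : layF W W' i b (m + 1) ≤ RS.abField K (AlgebraicClosure K) :=
    (layF_le (m + 1)).trans (layM_le_ab hC hS (m + 1))
  have hfF : FiniteDimensional K F := Module.Finite.of_restrictScalars_finite ℚ K F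
  have hfL : FiniteDimensional K (layF W W' i b (m + 1)) := layF_finite (m + 1)
  have hNL : NumberField (layF W W' i b (m + 1)) := layF_numberField hC hS (m + 1)
  have hdL : Module.finrank K (layF W W' i b (m + 1)) = 2 ^ (m + 1 + 1) := finrank_layF hC hS (m + 1)
  have hDL : DihI s (layF W W' i b (m + 1)) := dih_layF hC hS hc (m + 1)
  have hD : DihI s (F ⊔ layF W W' i b (m + 1)) := dih_sup hF hDL
  have hEab : F ⊔ layF W W' i b (m + 1) ≤ RS.abField K (AlgebraicClosure K) := sup_le hFab hLab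
  have hfE : FiniteDimensional K (F ⊔ layF W W' i b (m + 1) : IntermediateField K _) :=
    IntermediateField.finiteDimensional_sup F (layF W W' i b (m + 1))
  obtain ⟨hEg, hEc, -, -, hElift⟩ := ab_galois (F ⊔ layF W W' i b (m + 1)) hEab
  have hdeg : ∃ k, Module.finrank K (F ⊔ layF W W' i b (m + 1) : IntermediateField K _) = 2 ^ k := by
    have hp : Fact (Nat.Prime 2) := ⟨Nat.prime_two⟩
    have h1 : IsPGroup 2 ((F ⊔ layF W W' i b (m + 1) : IntermediateField K _) ≃ₐ[K]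
        (F ⊔ layF W W' i b (m + 1) : IntermediateField K _)) := by
      intro ρ
      refine ⟨m + (m + 1 + 1), ?_⟩
      obtain ⟨τ, hτ⟩ := hElift ρ
      apply AlgEquiv.ext
      intro x
      apply Subtype.ext
      rw [apply_pow_coe hτ, AlgEquiv.one_apply]
      refine fix_sup ?_ ?_ x.2
      · intro y hy
        rw [pow_add, mul_comm, pow_mul]
        exact pow_card_fix hFab hm _ hy
      · intro y hy
        rw [pow_add, pow_mul]
        exact pow_card_fix hLab hdL _ hy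
    obtain ⟨k, hk⟩ := IsPGroup.iff_card.1 h1
    exact ⟨k, by rw [← IsGalois.card_aut_eq_finrank, hk]⟩
  -- the element of order eight
  have hW0 : W 1 * W' 1 ≠ 0 := mul_ne_zero (hS 0).w0 (hS 0).w0'
  obtain ⟨p, hp⟩ : ∃ p : AlgebraicClosure K, p = b 1 / (W 1 * W' 1) := ⟨_, rfl⟩
  have hp2 : p ^ 2 = -i := by
    rw [hp, div_pow, (hS 1).bs 0 (by norm_num), (hS 0).a0, (hS 0).b0,
      div_eq_iff (pow_ne_zero 2 hW0)]
    ring
  have hi0 : i ≠ 0 := by
    rintro rfl
    rw [zero_pow two_ne_zero] at hi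
    exact one_ne_zero (neg_eq_zero.1 hi.symm)
  have hp0 : p ≠ 0 := by
    rintro rfl
    rw [zero_pow two_ne_zero] at hp2
    exact hi0 (neg_eq_zero.1 hp2.symm)
  have hpi : p⁻¹ ^ 2 = i := by
    rw [inv_pow, hp2]
    exact inv_eq_of_mul_eq_one_right (by linear_combination -hi)
  have hr2 : (p + p⁻¹) ^ 2 = 2 := by
    have h1 : p * p⁻¹ = 1 := mul_inv_cancel₀ hp0
    linear_combination hp2 + hpi + 2 * h1
  -- the generator
  obtain ⟨g, hgi, hgb⟩ := exists_gen4 hC hS
  obtain ⟨c₀, hc₀⟩ := exists_c hC hi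
  have hσW : ∀ d, (g ^ hK K) (W d) = W d ∧ (g ^ hK K) (W' d) = W' d := pow_fix hC g
  obtain ⟨σ, hσ⟩ : ∃ σ, σ = g ^ hK K := ⟨_, rfl⟩
  rw [← hσ] at hgi hgb hσW
  have hσp : σ p = -p := by
    have h1 := (hgb 0).1
    rw [pow_zero, pow_one, zero_add] at h1
    rw [hp, map_div₀, map_mul, h1, (hσW 1).1, (hσW 1).2, neg_div]
  have hσr : σ (p + p⁻¹) = -(p + p⁻¹) := by
    rw [map_add, map_inv₀, hσp, inv_neg]
    ring
  have hiE : i ∈ F ⊔ layF W W' i b (m + 1) :=
    (le_sup_right : layF W W' i b (m + 1) ≤ F ⊔ layF W W' i b (m + 1))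
      (i_mem_layF hC hi (m + 1))
  intro x hx
  rw [← InfiniteGalois.fixedField_fixingSubgroup (layF W W' i b (m + 1)),
    IntermediateField.mem_fixedField_iff]
  intro τ hτ
  have hτL : ∀ y ∈ layF W W' i b (m + 1), τ y = y :=
    (IntermediateField.mem_fixingSubgroup_iff _ τ).1 hτ
  obtain ⟨k, hk⟩ := pow_of_fix (F ⊔ layF W W' i b (m + 1)) hEc hdeg hi hr2 hiE
    (not_sum_sq hC.base)
    (fun δ hδ d hd => sq_cls hC.base hc.neg hT (layF_tower hC hS (m + 1)) hD hi hr2 hδ hd)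
    hgi hσr hc₀ (hτL i (i_mem_layF hC hi (m + 1)))
  have hk2 : 2 ^ (m + 1) ∣ k := by
    refine order_layF hC hS hgi hσW hgb (n := m) (m := k) ?_
    intro y hy
    rw [← hk y ((le_sup_right : layF W W' i b (m + 1) ≤ F ⊔ layF W W' i b (m + 1)) hy)]
    exact hτL y hy
  obtain ⟨l, rfl⟩ := hk2
  rw [hk x ((le_sup_left : F ≤ F ⊔ layF W W' i b (m + 1)) hx)]
  rw [pow_succ, mul_assoc, mul_comm (2 ^ m), pow_mul]
  exact pow_card_fix hFab hm _ hx

end Pool.Agent.Work.MP_787500_nt.HD
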