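import Mathlib
import Pool.Agent.Work.MP_787500_nt.HD.Defs
import Pool.Agent.Work.CM.Tw1

/-!
# Module StA: the complex conjugate of a lattice
-/

set_option autoImplicit false

namespace Pool.Agent.Work.MP_787500_nt.HD

open Pool.Agent.Work.CM

/-- conjugation as a bijection of the two lattices -/
private def sta_e (L : Submodule ℤ ℂ) : stL L ≃ L where
  toFun l := ⟨starRingEnd ℂ l.1, l.2⟩
  invFun l := ⟨starRingEnd ℂ l.1, by
    rw [mem_stL, Complex.conj_conj]
    exact l.2⟩
  left_inv l := Subtype.ext (Complex.conj_conj _)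
  right_inv l := Subtype.ext (Complex.conj_conj _)

theorem wp_stL (L : Submodule ℤ ℂ) (z : ℂ) :
    wp (stL L) (starRingEnd ℂ z) = starRingEnd ℂ (wp L z) := by
  unfold wp
  rw [Complex.conj_tsum, ← (sta_e L).tsum_eq]
  refine tsum_congr fun l => ?_
  simp only [sta_e, Equiv.coe_fn_mk, map_sub, map_div₀, map_one, map_pow, Complex.conj_conj]

theorem ev_stL {L L' : Submodule ℤ ℂ} (h : Two L L') (h' : Two (stL L) (stL L')) :
    ev (stL L) (stL L') = starRingEnd ℂ (ev L L') := by
  obtain ⟨u, hu, hu', -⟩ := h.ex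
  have h1 : starRingEnd ℂ u ∈ stL L' := by
    rw [mem_stL, Complex.conj_conj]
    exact hu
  have h2 : starRingEnd ℂ u ∉ stL L := by
    rw [mem_stL, Complex.conj_conj]
    exact hu'
  rw [← h'.ev_eq h1 h2, ← h.ev_eq hu hu', wp_stL]

end Pool.Agent.Work.MP_787500_nt.HD
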