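import Mathlib
import Pool.Agent.Work.MP_787500_nt.HD.Defs
import Pool.Agent.Work.MP_787500_nt.HC.Basic
import Pool.Agent.Work.MP_787500_nt.HC.LatE

/-!
# Module StB: the conjugation of the fractional ideals

`σ : K ≃+* K` with `σ s = -s` (`Quad.exists_conj`). `algebraMap K ℂ (σ x) = conj (algebraMap K ℂ x)`: `x = a + b s` with
rational `a`, `b` (`Quad.exists_coords`), and `algebraMap K ℂ s` is purely imaginary (`Quad.emb_re_im`).
`σ (σ x) = x` (same coordinates). Let `f` be the map on `Idl K` induced by `σ`: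
`Units.map (FractionalIdeal.ringEquivOfRingEquiv K K σO)` with `σO = RingOfIntegers.mapRingEquiv σ` (or define the
fractional ideal `σ I = {x | σ x ∈ I}` by hand: it is a submodule, fractional, `σ (I J) = σ I σ J`, `σ 1 = 1`). So
`x ∈ f I ↔ σ x ∈ I`; `f (f I) = I`; `lat (f I) = stL (lat I)` by `mem_lat`, `mem_stL`; `f (prin x) = prin (σ x)`.
`f (pr v) = pr v'`: the prime `w = σ (v.asIdeal)` (comap along `σO`, a `HeightOneSpectrum`) has `f (pr v) = pr w` and
contains 2. By `h2` (`pr v * pr v' = (2)`) the ideal `w` contains `v.asIdeal * v'.asIdeal` so it contains, hence is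
equal to (maximal), `v.asIdeal` or `v'.asIdeal`. It is not `v.asIdeal`: for `W` of `Quad.exists_W` (`2 W = 1 + s`,
`W (1 - W) = 2 k`) `σO W = 1 - W`, and `v` contains `W` or `1 - W`; if `w = v` then `v` contains both, so `1`.
-/

set_option autoImplicit false

namespace Pool.Agent.Work.MP_787500_nt.HD

open WithZero IsDedekindDomain NumberField Pool.Agent.Work.CM HC
open scoped Pointwise nonZeroDivisors

variable {K : Type*} [Field K] [NumberField K] [Algebra K ℂ] {q : ℕ} {s : K}
variable {v v' : HeightOneSpectrum (𝓞 K)}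

private theorem re_eq (σ : K ≃+* K) (y : K) :
    IsFractionRing.ringEquivOfRingEquiv (K := K) (L := K) (RingOfIntegers.mapRingEquiv σ) y =
      σ y := by
  obtain ⟨a, b, hb, rfl⟩ := IsFractionRing.div_surjective (A := 𝓞 K) y
  rw [map_div₀, map_div₀, IsFractionRing.ringEquivOfRingEquiv_algebraMap,
    IsFractionRing.ringEquivOfRingEquiv_algebraMap]
  rfl

private theorem mem_re (σ : K ≃+* K) (hσ : ∀ x, σ (σ x) = x) (I : FractionalIdeal (𝓞 K)⁰ K)
    (x : K) : x ∈ FractionalIdeal.ringEquivOfRingEquiv K K (RingOfIntegers.mapRingEquiv σ) I ↔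
      σ x ∈ I := by
  constructor
  · rintro ⟨y, hy, h⟩
    have h1 : σ y = x := by
      rw [← re_eq]
      exact h
    rw [← h1, hσ]
    exact hy
  · intro h
    refine ⟨σ x, h, ?_⟩
    have h1 : σ (σ x) = x := hσ x
    rw [← re_eq] at h1
    exact h1

theorem exists_st (hb : IsBase K q s) (hv : (2 : 𝓞 K) ∈ v.asIdeal) (hv' : (2 : 𝓞 K) ∈ v'.asIdeal)
    (hne : v ≠ v') (h2 : pr v * pr v' = prin (Units.mk0 (2 : K) two_ne_zero)) :
    ∃ f : Idl K →* Idl K, (∀ I, f (f I) = I) ∧ (∀ I, lat (f I) = stL (lat I)) ∧ f (pr v) = pr v' ∧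
      ∀ x : Kˣ, ∃ y : Kˣ, f (prin x) = prin y := by
  obtain ⟨hK, hs, hq, hq16⟩ := hb
  obtain ⟨σ, hσs⟩ := Quad.exists_conj hK hs hq.pos
  have hσσ : ∀ x, σ (σ x) = x := by
    intro x
    obtain ⟨a, b, rfl⟩ := Quad.exists_coords hK hs hq.pos x
    rw [map_add, map_mul, map_ratCast, map_ratCast, hσs, map_add, map_mul, map_ratCast,
      map_ratCast, map_neg, hσs, neg_neg]
  have hconj : ∀ x, algebraMap K ℂ (σ x) = starRingEnd ℂ (algebraMap K ℂ x) := by
    intro x
    obtain ⟨a, b, rfl⟩ := Quad.exists_coords hK hs hq.pos x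
    obtain ⟨h1, -⟩ := Quad.emb_re_im hs hq.pos (algebraMap K ℂ)
    have h3 : starRingEnd ℂ (algebraMap K ℂ s) = -algebraMap K ℂ s := by
      apply Complex.ext
      · rw [Complex.conj_re, Complex.neg_re, h1, neg_zero]
      · rw [Complex.conj_im, Complex.neg_im]
    rw [map_add, map_mul, map_ratCast, map_ratCast, hσs, map_add, map_mul, map_ratCast,
      map_ratCast, map_neg, map_add, map_mul, map_ratCast, map_ratCast, map_add, map_mul,
      map_ratCast, map_ratCast, h3]
  let e := FractionalIdeal.ringEquivOfRingEquiv K K (RingOfIntegers.mapRingEquiv σ)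
  let f : Idl K →* Idl K := Units.map (e : FractionalIdeal (𝓞 K)⁰ K →* FractionalIdeal (𝓞 K)⁰ K)
  have hf : ∀ (I : Idl K) (x : K), x ∈ ((f I : Idl K) : FractionalIdeal (𝓞 K)⁰ K) ↔
      σ x ∈ (I : FractionalIdeal (𝓞 K)⁰ K) := fun I x => mem_re σ hσσ _ x
  refine ⟨f, ?_, ?_, ?_, ?_⟩
  · intro I
    apply Units.ext
    apply FractionalIdeal.ext
    intro x
    rw [hf, hf, hσσ]
  · intro I
    ext z
    rw [mem_stL, mem_lat, mem_lat]
    constructor
    · rintro ⟨x, hx, rfl⟩
      exact ⟨σ x, (hf I x).1 hx, hconj x⟩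
    · rintro ⟨y, hy, h⟩
      refine ⟨σ y, (hf I _).2 (by rw [hσσ]; exact hy), ?_⟩
      rw [hconj, h, Complex.conj_conj]
  · obtain ⟨W, k, hW1, hW2, hW3⟩ := Quad.exists_W hK hs hq (by omega)
    set σO : 𝓞 K ≃+* 𝓞 K := RingOfIntegers.mapRingEquiv σ with hσO
    have hσO1 : ∀ a : 𝓞 K, algebraMap (𝓞 K) K (σO a) = σ (algebraMap (𝓞 K) K a) := fun a => rfl
    have hσW : σO W = 1 - W := by
      apply RingOfIntegers.ext
      show algebraMap (𝓞 K) K _ = algebraMap (𝓞 K) K _
      rw [hσO1, map_sub, map_one]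
      have h3 : σ (2 * algebraMap (𝓞 K) K W) = σ (1 + s) := by rw [hW1]
      rw [map_mul, map_ofNat, map_add, map_one, hσs] at h3
      have h4 : (2 : K) * σ (algebraMap (𝓞 K) K W) = 2 * (1 - algebraMap (𝓞 K) K W) := by
        linear_combination h3 + hW1
      exact mul_left_cancel₀ two_ne_zero h4
    have hprod : v.asIdeal * v'.asIdeal = Ideal.span {(2 : 𝓞 K)} := by
      have h3 := congrArg Units.val h2
      rw [Units.val_mul] at h3
      unfold pr prin at h3
      rw [Units.val_mk0, Units.val_mk0, coe_toPrincipalIdeal, Units.val_mk0,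
        ← FractionalIdeal.coeIdeal_mul] at h3
      have h4 : FractionalIdeal.spanSingleton (𝓞 K)⁰ (2 : K) =
          ((Ideal.span {(2 : 𝓞 K)} : Ideal (𝓞 K)) : FractionalIdeal (𝓞 K)⁰ K) := by
        rw [FractionalIdeal.coeIdeal_span_singleton, map_ofNat]
      rw [h4] at h3
      exact FractionalIdeal.coeIdeal_injective h3
    have hw : (v.asIdeal.comap (σO : 𝓞 K →+* 𝓞 K)).IsPrime := Ideal.comap_isPrime _ _
    have hle : v.asIdeal * v'.asIdeal ≤ v.asIdeal.comap (σO : 𝓞 K →+* 𝓞 K) := by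
      rw [hprod, Ideal.span_singleton_le_iff_mem, Ideal.mem_comap]
      show σO 2 ∈ v.asIdeal
      rw [map_ofNat]
      exact hv
    have hwne : v.asIdeal.comap (σO : 𝓞 K →+* 𝓞 K) ≠ ⊤ := hw.ne_top
    have hWv : W ∈ v.asIdeal ∨ 1 - W ∈ v.asIdeal := by
      refine v.isPrime.mem_or_mem ?_
      rw [hW2]
      exact v.asIdeal.mul_mem_right _ hv
    have hnv : ¬ v.asIdeal ≤ v.asIdeal.comap (σO : 𝓞 K →+* 𝓞 K) := by
      intro hcon
      apply v.isPrime.ne_top
      rw [Ideal.eq_top_iff_one]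
      rcases hWv with h | h
      · have h3 : σO W ∈ v.asIdeal := hcon h
        rw [hσW] at h3
        have := v.asIdeal.add_mem h h3
        rwa [add_sub_cancel] at this
      · have h3 : σO (1 - W) ∈ v.asIdeal := hcon h
        rw [map_sub, map_one, hσW, sub_sub_cancel] at h3
        have := v.asIdeal.add_mem h3 h
        rwa [add_sub_cancel] at this
    have hv'w : v'.asIdeal = v.asIdeal.comap (σO : 𝓞 K →+* 𝓞 K) := by
      rcases (hw.mul_le).1 hle with h | h
      · exact absurd h hnv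
      · exact v'.isMaximal.eq_of_le hwne h
    apply Units.ext
    apply FractionalIdeal.ext
    intro x
    rw [hf]
    unfold pr
    rw [Units.val_mk0, Units.val_mk0, FractionalIdeal.mem_coeIdeal, FractionalIdeal.mem_coeIdeal]
    constructor
    · rintro ⟨a, ha, h⟩
      refine ⟨σO a, ?_, ?_⟩
      · rw [hv'w, Ideal.mem_comap]
        show σO (σO a) ∈ v.asIdeal
        have h3 : σO (σO a) = a := by
          apply RingOfIntegers.ext
          exact hσσ _
        rw [h3]
        exact ha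
      · rw [hσO1, h, hσσ]
    · rintro ⟨a, ha, h⟩
      rw [hv'w, Ideal.mem_comap] at ha
      refine ⟨σO a, ha, ?_⟩
      rw [hσO1, h]
  · intro x
    refine ⟨Units.map (σ : K →* K) x, ?_⟩
    apply Units.ext
    apply FractionalIdeal.ext
    intro y
    rw [hf]
    unfold prin
    rw [coe_toPrincipalIdeal, coe_toPrincipalIdeal, FractionalIdeal.mem_spanSingleton,
      FractionalIdeal.mem_spanSingleton]
    constructor
    · rintro ⟨a, h⟩
      refine ⟨RingOfIntegers.mapRingEquiv σ a, ?_⟩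
      rw [Algebra.smul_def] at h ⊢
      have h3 := congrArg σ h
      rw [hσσ, map_mul] at h3
      exact h3
    · rintro ⟨a, h⟩
      refine ⟨RingOfIntegers.mapRingEquiv σ a, ?_⟩
      rw [Algebra.smul_def] at h ⊢
      rw [← h, map_mul]
      show _ = σ (algebraMap (𝓞 K) K a) * σ (σ (x : K))
      rw [hσσ]
      rfl

end Pool.Agent.Work.MP_787500_nt.HD
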