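import Mathlib
import Pool.Agent.Work.MP_787500_nt.HD.StA
import Pool.Agent.Work.MP_787500_nt.HD.StB
import Pool.Agent.Work.MP_787500_nt.HC.LatD
import Pool.Agent.Work.MP_787500_nt.HC.ClsA
import Pool.Agent.Work.MP_787500_nt.HC.CpxA

/-!
# Module StC: conjugation of the functions on the class group

`f` from `exists_st`; `f (pr v') = pr v` (apply `f` to `f (pr v) = pr v'`).
`eV v' (f I) = conj (eV v I)`: `eV v I = ev (lat I) (lat ((pr v)⁻¹ * I))`, `lat (f ((pr v)⁻¹ * I)) = lat ((pr v')⁻¹ * f I)`,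
`ev_stL` with `two_lat hb hv I` and `two_lat hb hv' (f I)` (rewritten by `lat (f _) = stL _`). The same with `v`, `v'`
exchanged. Then `wv (pr v') (eV v') (f I) = conj (wv (pr v) (eV v) I)`: unfold `wv`, `sv`, all arguments are of the form
`f (..)` (`map_mul`, `map_inv`), `map_div₀`, `map_sub`, `map_add`, `map_mul`, `map_ofNat`.
`class_st`: the map `a = cl I ↦ cl (f I)` is well defined (`cl_eq_iff`: `cl I = cl J` iff `J = prin x * I`, look at its
statement, and `f (prin x) = prin y`); define it by `exists_class_fun (fun I => cl (f I))`.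
-/

set_option autoImplicit false

namespace Pool.Agent.Work.MP_787500_nt.HD

open WithZero IsDedekindDomain NumberField Pool.Agent.Work.CM HC
open scoped Pointwise nonZeroDivisors

variable {K : Type*} [Field K] [NumberField K] [Algebra K ℂ] {q : ℕ} {s : K}
variable {v v' : HeightOneSpectrum (𝓞 K)}

private theorem eV_st {w w' : HeightOneSpectrum (𝓞 K)} (hb : IsBase K q s)
    (hw : (2 : 𝓞 K) ∈ w.asIdeal) (hw' : (2 : 𝓞 K) ∈ w'.asIdeal) {f : Idl K →* Idl K}
    (hl : ∀ I, lat (f I) = stL (lat I)) (hf : f (pr w) = pr w') (I : Idl K) :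
    eV w' (f I) = starRingEnd ℂ (eV w I) := by
  have e1 : f ((pr w)⁻¹ * I) = (pr w')⁻¹ * f I := by rw [map_mul, map_inv, hf]
  have h1 := two_lat hb hw' (f I)
  rw [← e1, hl, hl] at h1
  have h2 := ev_stL (two_lat hb hw I) h1
  unfold eV
  rw [← h2, ← e1, hl, hl]

private theorem sv_st {w w' : HeightOneSpectrum (𝓞 K)} {f : Idl K →* Idl K}
    (hf : f (pr w) = pr w') (h : ∀ I, eV w' (f I) = starRingEnd ℂ (eV w I)) (I : Idl K) :
    starRingEnd ℂ (sv (pr w) (eV w) I) = sv (pr w') (eV w') (f I) := by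
  have e1 : f ((pr w)⁻¹ * I) = (pr w')⁻¹ * f I := by rw [map_mul, map_inv, hf]
  have e2 : f (pr w * I) = pr w' * f I := by rw [map_mul, hf]
  unfold sv
  rw [← e1, ← e2, h, h, h, map_div₀, map_sub, map_mul, map_add, map_mul, map_ofNat]

private theorem wv_st {w w' : HeightOneSpectrum (𝓞 K)} {f : Idl K →* Idl K}
    (hf : f (pr w) = pr w') (h : ∀ I, eV w' (f I) = starRingEnd ℂ (eV w I)) (I : Idl K) :
    starRingEnd ℂ (wv (pr w) (eV w) I) = wv (pr w') (eV w') (f I) := by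
  have e1 : f ((pr w)⁻¹ * I) = (pr w')⁻¹ * f I := by rw [map_mul, map_inv, hf]
  unfold wv
  rw [← e1, ← sv_st hf h, ← sv_st hf h, map_div₀, map_mul, map_add, map_one, map_ofNat]

theorem class_st (hb : IsBase K q s) (hv : (2 : 𝓞 K) ∈ v.asIdeal) (hv' : (2 : 𝓞 K) ∈ v'.asIdeal)
    (hne : v ≠ v') (h2 : pr v * pr v' = prin (Units.mk0 (2 : K) two_ne_zero))
    {W W' : ClassGroup (𝓞 K) → ℂ} (hW : ∀ I, W (cl I) = wv (pr v) (eV v) I)
    (hW' : ∀ I, W' (cl I) = wv (pr v') (eV v') I) :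
    ∃ g : ClassGroup (𝓞 K) → ClassGroup (𝓞 K), g 1 = 1 ∧ (∀ a, g (g a) = a) ∧
      ∀ a, starRingEnd ℂ (W a) = W' (g a) ∧ starRingEnd ℂ (W' a) = W (g a) := by
  obtain ⟨f, hff, hl, hf, hp⟩ := exists_st (s := s) (q := q) hb hv hv' hne h2
  have hf' : f (pr v') = pr v := by rw [← hf, hff]
  have hE := eV_st hb hv hv' hl hf
  have hE' := eV_st hb hv' hv hl hf'
  obtain ⟨g, hg⟩ := exists_class_fun (K := K) (fun I => cl (f I)) (by
    intro x I
    obtain ⟨y, hy⟩ := hp x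
    show cl (f (prin x * I)) = cl (f I)
    rw [map_mul, hy]
    exact (cl_eq_iff.2 ⟨y, rfl⟩).symm)
  refine ⟨g, ?_, ?_, ?_⟩
  · rw [← cl_one, hg]
    show cl (f 1) = cl 1
    rw [map_one]
  · intro a
    obtain ⟨I, rfl⟩ := cl_surjective a
    rw [hg, hg]
    show cl (f (f I)) = cl I
    rw [hff]
  · intro a
    obtain ⟨I, rfl⟩ := cl_surjective a
    rw [hg]
    show starRingEnd ℂ (W (cl I)) = W' (cl (f I)) ∧ starRingEnd ℂ (W' (cl I)) = W (cl (f I))
    rw [hW, hW', hW', hW]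
    exact ⟨wv_st hf hE I, wv_st hf' hE' I⟩

end Pool.Agent.Work.MP_787500_nt.HD
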