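import Mathlib
import Pool.Agent.Work.MP_787500_nt.HD.StC
import Pool.Agent.Work.MP_787500_nt.HC.TrB

/-!
# Module StD: the setting with a complex conjugation

Copy the proof of `exists_ctx` (`HC/TrB.lean`); it gives `v`, `v'`, `α`, the complex functions `Wc`, `Wc'`, and
`transfer` gives `ψ : Ω →ₐ[K] ℂ`, `W`, `W'` with `ψ (W a) = Wc a`, `ψ (W' a) = Wc' a` (`Ω = AlgebraicClosure K`).
`c : Ω ≃+* Ω` with `ψ (c x) = conj (ψ x)`: the range of `ψ` is the set of all `z ∈ ℂ` which are algebraic over `ℚ` (every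
`x ∈ Ω` is algebraic over `ℚ`; conversely `Ω` is algebraically closed, see the private theorem `mem_range` of
`HC/TrA.lean`, copy it), and `conj z` is algebraic over `ℚ` if `z` is. So choose `c x` with `ψ (c x) = conj (ψ x)`; it is a
ring homomorphism (`ψ` is injective) and `c (c x) = x`.
`c s = -s`: `conj (φ s) = -φ s` since the real part of `φ s` is 0 (`Quad.emb_re_im`). `c j = -j` for `j^2 = -1`:
`ψ j = ± I`, `conj I = -I`. `W`, `W'`: `class_st`.
-/

set_option autoImplicit false

namespace Pool.Agent.Work.MP_787500_nt.HD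

open WithZero IsDedekindDomain NumberField Pool.Agent.Work.CM HC
open scoped Pointwise nonZeroDivisors

universe u

private theorem std_range {K : Type*} [Field K] [Algebra K ℂ]
    (ψ : AlgebraicClosure K →ₐ[K] ℂ) {z : ℂ} (hz : IsAlgebraic K z) :
    ∃ x, ψ x = z := by
  have h1 : IsIntegral K z := hz.isIntegral
  have h2 : ((minpoly K z).map (algebraMap K (AlgebraicClosure K))).Splits :=
    IsAlgClosed.splits _
  have h3 : (Polynomial.aeval z (minpoly K z)) = 0 := minpoly.aeval K z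
  have h4 : ((minpoly K z).map (algebraMap K (AlgebraicClosure K))).map (ψ : AlgebraicClosure K →+* ℂ)
      = (minpoly K z).map (algebraMap K ℂ) := by
    rw [Polynomial.map_map]
    congr 1
    exact ψ.comp_algebraMap
  have h5 : z ∈ ((minpoly K z).map (algebraMap K ℂ)).roots := by
    rw [Polynomial.mem_roots (Polynomial.map_ne_zero (minpoly.ne_zero h1)), Polynomial.IsRoot.def,
      Polynomial.eval_map_algebraMap]
    exact h3
  rw [← h4, h2.roots_map] at h5
  obtain ⟨x, -, hx⟩ := Multiset.mem_map.1 h5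
  exact ⟨x, hx⟩

private theorem std_conj {K : Type*} [Field K] [NumberField K] [Algebra K ℂ]
    (ψ : AlgebraicClosure K →ₐ[K] ℂ) (x : AlgebraicClosure K) :
    ∃ y, ψ y = starRingEnd ℂ (ψ x) := by
  apply std_range
  have h0 : Algebra.IsAlgebraic ℚ (AlgebraicClosure K) := Algebra.IsAlgebraic.trans ℚ K _
  have h1 : IsAlgebraic ℚ x := Algebra.IsAlgebraic.isAlgebraic x
  have h2 : IsAlgebraic ℚ (ψ x) := h1.algHom (ψ : AlgebraicClosure K →+* ℂ).toRatAlgHom
  have h3 : IsAlgebraic ℚ (starRingEnd ℂ (ψ x)) := h2.algHom (starRingEnd ℂ).toRatAlgHom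
  exact h3.tower_top K

private theorem std_c {K : Type*} [Field K] [NumberField K] [Algebra K ℂ]
    (ψ : AlgebraicClosure K →ₐ[K] ℂ) :
    ∃ c : AlgebraicClosure K ≃+* AlgebraicClosure K, ∀ x, ψ (c x) = starRingEnd ℂ (ψ x) := by
  have hinj : Function.Injective ψ := (ψ : AlgebraicClosure K →+* ℂ).injective
  choose c hc using std_conj ψ
  have hcc : ∀ x, c (c x) = x := by
    intro x
    apply hinj
    rw [hc, hc, Complex.conj_conj]
  exact ⟨{ toFun := c
           invFun := c
           left_inv := hcc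
           right_inv := hcc
           map_mul' := fun x y => hinj (by rw [map_mul, hc, hc, hc, map_mul, map_mul])
           map_add' := fun x y => hinj (by rw [map_add, hc, hc, hc, map_add, map_add]) }, hc⟩

theorem exists_ctx_cj {K : Type u} [Field K] [NumberField K] {q : ℕ} {s : K} (hb : IsBase K q s) :
    ∃ (v : HeightOneSpectrum (𝓞 K)) (α : Kˣ) (W W' : ClassGroup (𝓞 K) → AlgebraicClosure K)
      (c : AlgebraicClosure K ≃+* AlgebraicClosure K), Ctx K q s v α W W' ∧
        IsCj (algebraMap K (AlgebraicClosure K) s) W W' c := by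
  obtain ⟨φ⟩ : Nonempty (K →+* ℂ) := inferInstance
  let _ : Algebra K ℂ := φ.toAlgebra
  obtain ⟨v, v', hne, hv, hv', h2⟩ := exists_places hb
  obtain ⟨α, hα⟩ := exists_alpha v
  obtain ⟨Wc, hW⟩ := exists_class_fun (wv (pr v) (eV v)) (wv_prin hb hv)
  obtain ⟨Wc', hW'⟩ := exists_class_fun (wv (pr v') (eV v')) (wv_prin hb hv')
  have hdat := wdata_complex hb hne hv hv' h2 hα hW hW'
  have hact := act_complex hb hv hv' hW hW'
  obtain ⟨ψ, W, W', h3, h4, h5⟩ := transfer hact
  obtain ⟨g, hg1, hgg, hg⟩ := class_st hb hv hv' hne h2 hW hW'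
  obtain ⟨c, hc⟩ := std_c ψ
  have hinj : Function.Injective ψ := (ψ : AlgebraicClosure K →+* ℂ).injective
  refine ⟨v, α, W, W', c, ⟨hb, hv, hα, ?_, h5, fun i a b u hS m => ?_⟩, ?_, ?_, g, hg1, hgg,
    fun a => ⟨hinj ?_, hinj ?_⟩⟩
  · apply Wdata.comap ψ
    have e1 : (fun a => ψ (W a)) = Wc := funext h3
    have e2 : (fun a => ψ (W' a)) = Wc' := funext h4
    rw [e1, e2]
    exact hdat
  · have hS' : ∀ n, Sq4 (Wc 1) (Wc' 1) (ψ i) (ψ ∘ a) (ψ ∘ b) (ψ ∘ u) n := by
      intro n
      have := (hS n).map (ψ : AlgebraicClosure K →+* ℂ)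
      rw [← h3, ← h4]
      exact this
    obtain ⟨g1, g2⟩ := agm_complex hb hne hv hv' h2 hW hW' hS' m
    exact ⟨mem_of_map ψ g1, mem_of_map ψ g2⟩
  · apply hinj
    rw [hc, map_neg, AlgHom.commutes]
    obtain ⟨hre, -⟩ := Quad.emb_re_im hb.2.1 hb.2.2.1.pos φ
    have hre' : (algebraMap K ℂ s).re = 0 := hre
    apply Complex.ext
    · rw [Complex.conj_re, Complex.neg_re, hre', neg_zero]
    · rw [Complex.conj_im, Complex.neg_im]
  · intro j hj
    apply hinj
    rw [hc, map_neg]
    have h6 : (ψ j) ^ 2 = -1 := by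
      rw [← map_pow, hj, map_neg, map_one]
    have h7 : (ψ j - Complex.I) * (ψ j + Complex.I) = 0 := by
      linear_combination h6 - Complex.I_sq
    rcases mul_eq_zero.1 h7 with h8 | h8
    · rw [sub_eq_zero.1 h8, Complex.conj_I]
    · rw [eq_neg_of_add_eq_zero_left h8, map_neg, Complex.conj_I]
  · rw [hc, h3, h4]
    exact (hg a).1
  · rw [hc, h3, h4]
    exact (hg a).2

end Pool.Agent.Work.MP_787500_nt.HD
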