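import Mathlib
import Pool.Agent.Work.MP_787500_nt.H10_Defs
import Pool.Agent.Work.MP_787500_nt.H9_Alg
import Pool.Agent.Work.MP_787500_nt.RS.Isom
import Pool.Agent.Work.MP_787500_nt.RS.RankSplit

/-!
# Module TwQ: the rank of a quadratic twist

`F'/F` quadratic, `δ ∈ F'`, `δ^2 = d ∈ F`, `δ ∉ F`, `g` the nontrivial automorphism of `F'/F` (`g δ = -δ`). `A` = the group of the
points of `y^2 = x^3 - x` (`legendre 0 1 (-1)`) over `F'`, `B = {P | g P = P}`, `B' = {P | g P = -P}`: `B ∩ B'` is killed by 2 and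
`2 A ⊆ B + B'`, so `rank A = rank B + rank B'` (`RS.finrank_add_le` for one inequality; the other: `2 P = (P + g P) + (P - g P)`;
`A` is finitely generated by the Mordell-Weil hypothesis `hfg`). `B` is isomorphic to the group over `F` (a point is fixed
iff its coordinates are in `F`). `B'` is isomorphic to the group of `y^2 = x (x - d) (x + d)` over `F`: `(x, y) ↦ (d x, d δ y)`
(a point over `F'` is in `B'` iff `x ∈ F`, `g y = -y`, iff `x ∈ F` and `y = y' δ`, `y' ∈ F`, and then `d δ y = d^2 y' ∈ F`); this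
is the restriction of the isomorphism `RS.exists_isom` over `F'` with `u = δ` (look at its statement), composed with the
inclusion of the points over `F`.
-/

set_option autoImplicit false

namespace Pool.Agent.Work.MP_787500_nt.HD

open NumberField WeierstrassCurve WeierstrassCurve.Affine

universe u

private theorem tq_tt {K : Type*} [Field K] [CharZero K] {d : K} (hd : d ≠ 0) :
    TwoTors (⟨0, -(0 + d + -d), 0, 0 * d + d * -d + -d * 0, -(0 * d * -d)⟩ :
      WeierstrassCurve.Affine K) 0 d (-d) :=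
  ⟨rfl, rfl, rfl, rfl, rfl, hd.symm, by
    intro h
    exact hd (by
      have h2 : (2 : K) * d = 0 := by linear_combination h
      exact (mul_eq_zero.1 h2).resolve_left two_ne_zero), by
    intro h
    exact hd (neg_eq_zero.1 h)⟩

private theorem tq_leg {K : Type*} [Field K] [NumberField K] {d : K} (hd : d ≠ 0) :
    TwoTors (legendre 0 d (-d)) 0 d (-d) := tq_tt hd

/-- an isomorphism and its inverse -/
private theorem isomE {L : Type*} [Field L] [CharZero L] [DecidableEq L]
    {W W' : WeierstrassCurve.Affine L} {e1 e2 e3 f1 f2 f3 u : L} (h : TwoTors W e1 e2 e3)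
    (h' : TwoTors W' f1 f2 f3) (hu : u ≠ 0) (h1 : f1 = u ^ 2 * e1) (h2 : f2 = u ^ 2 * e2)
    (h3 : f3 = u ^ 2 * e3) :
    ∃ (φ : W.Point →+ W'.Point) (ψ : W'.Point →+ W.Point), (∀ P, ψ (φ P) = P) ∧
      (∀ Q, φ (ψ Q) = Q) ∧
      (∀ (x y : L) (hn : W.Nonsingular x y), ∃ hn' : W'.Nonsingular (u ^ 2 * x) (u ^ 3 * y),
        φ (Point.some x y hn) = Point.some _ _ hn') ∧
      (∀ (x y : L) (hn : W'.Nonsingular x y),
        ∃ hn' : W.Nonsingular ((u ^ 2)⁻¹ * x) ((u ^ 3)⁻¹ * y),
        ψ (Point.some x y hn) = Point.some _ _ hn') := by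
  have hu2 : u ^ 2 ≠ 0 := pow_ne_zero 2 hu
  have hu3 : u ^ 3 ≠ 0 := pow_ne_zero 3 hu
  have hi : ∀ e f : L, f = u ^ 2 * e → e = u⁻¹ ^ 2 * f + 0 := by
    rintro e f rfl
    field_simp
    ring
  obtain ⟨φ, hφ⟩ := RS.exists_isom (u := u) (r := 0) h h' hu (by rw [h1, add_zero])
    (by rw [h2, add_zero]) (by rw [h3, add_zero])
  obtain ⟨ψ, hψ⟩ := RS.exists_isom (u := u⁻¹) (r := 0) h' h (inv_ne_zero hu) (hi _ _ h1)
    (hi _ _ h2) (hi _ _ h3)
  have hφ' : ∀ (x y : L) (hn : W.Nonsingular x y),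
      ∃ hn' : W'.Nonsingular (u ^ 2 * x) (u ^ 3 * y),
        φ (Point.some x y hn) = Point.some _ _ hn' := by
    intro x y hn
    obtain ⟨hn', h1⟩ := hφ x y hn
    have e1 : u ^ 2 * x + 0 = u ^ 2 * x := add_zero _
    refine ⟨by rw [← e1]; exact hn', ?_⟩
    rw [h1]
    simp only [Point.some.injEq]
    exact ⟨e1, trivial⟩
  have hψ' : ∀ (x y : L) (hn : W'.Nonsingular x y),
      ∃ hn' : W.Nonsingular ((u ^ 2)⁻¹ * x) ((u ^ 3)⁻¹ * y),
        ψ (Point.some x y hn) = Point.some _ _ hn' := by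
    intro x y hn
    obtain ⟨hn', h1⟩ := hψ x y hn
    have e1 : u⁻¹ ^ 2 * x + 0 = (u ^ 2)⁻¹ * x := by rw [add_zero, inv_pow]
    have e2 : u⁻¹ ^ 3 * y = (u ^ 3)⁻¹ * y := by rw [inv_pow]
    refine ⟨by rw [← e1, ← e2]; exact hn', ?_⟩
    rw [h1]
    simp only [Point.some.injEq]
    exact ⟨e1, e2⟩
  refine ⟨φ, ψ, ?_, ?_, hφ', hψ'⟩
  · intro P
    rcases P with _ | ⟨x, y, hn⟩
    · change ψ (φ 0) = 0
      rw [map_zero, map_zero]
    · obtain ⟨n1, e1⟩ := hφ' x y hn
      obtain ⟨n2, e2⟩ := hψ' _ _ n1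
      rw [e1, e2]
      simp only [Point.some.injEq]
      exact ⟨by field_simp, by field_simp⟩
  · intro P
    rcases P with _ | ⟨x, y, hn⟩
    · change φ (ψ 0) = 0
      rw [map_zero, map_zero]
    · obtain ⟨n1, e1⟩ := hψ' x y hn
      obtain ⟨n2, e2⟩ := hφ' _ _ n1
      rw [e1, e2]
      simp only [Point.some.injEq]
      exact ⟨by field_simp, by field_simp⟩

/-- rank of a group `A` with two almost disjoint subgroups which contain `2 A` -/
private theorem finrank_split {A B C : Type*} [AddCommGroup A] [AddCommGroup B] [AddCommGroup C]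
    [Module.Finite ℤ A] (i : B →+ A) (j : C →+ A) (hi : Function.Injective i)
    (hj : Function.Injective j) (h1 : ∀ x ∈ i.range, x ∈ j.range → x + x = 0)
    (h2 : ∀ x : A, ∃ b c, x + x = i b + j c) :
    Module.finrank ℤ A = Module.finrank ℤ B + Module.finrank ℤ C := by
  have eB : Module.finrank ℤ B = Module.finrank ℤ i.range :=
    LinearEquiv.finrank_eq (AddMonoidHom.ofInjective hi).toIntLinearEquiv
  have eC : Module.finrank ℤ C = Module.finrank ℤ j.range :=
    LinearEquiv.finrank_eq (AddMonoidHom.ofInjective hj).toIntLinearEquiv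
  refine le_antisymm ?_ ?_
  · -- doubling
    let s : Submodule ℤ A := AddSubgroup.toIntSubmodule i.range
    let t : Submodule ℤ A := AddSubgroup.toIntSubmodule j.range
    have hdbl : LinearMap.range (LinearMap.lsmul ℤ A (2 : ℤ)) ≤ s ⊔ t := by
      rintro _ ⟨x, rfl⟩
      obtain ⟨b, c, hbc⟩ := h2 x
      have : (LinearMap.lsmul ℤ A (2 : ℤ)) x = i b + j c := by
        rw [← hbc]
        simp [two_smul]
      rw [this]
      exact Submodule.add_mem_sup ⟨b, rfl⟩ ⟨c, rfl⟩
    have hker : Module.rank ℤ (LinearMap.ker (LinearMap.lsmul ℤ A (2 : ℤ))) = 0 := by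
      rw [rank_eq_zero_iff]
      rintro ⟨x, hx⟩
      refine ⟨2, two_ne_zero, ?_⟩
      apply Subtype.ext
      exact hx
    have hrn : Module.finrank ℤ (LinearMap.range (LinearMap.lsmul ℤ A (2 : ℤ))) =
        Module.finrank ℤ A := by
      have h := LinearMap.rank_range_add_rank_ker (LinearMap.lsmul ℤ A (2 : ℤ))
      rw [hker, add_zero] at h
      rw [Module.finrank, Module.finrank, h]
    have h3 : Module.finrank ℤ (LinearMap.range (LinearMap.lsmul ℤ A (2 : ℤ))) ≤
        Module.finrank ℤ (s ⊔ t : Submodule ℤ A) := Submodule.finrank_mono hdbl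
    have h4 : Module.finrank ℤ (s ⊔ t : Submodule ℤ A) =
        Module.finrank ℤ s + Module.finrank ℤ t := by
      have k1 := Submodule.rank_sup_add_rank_inf_eq s t
      have k2 : Module.rank ℤ (s ⊓ t : Submodule ℤ A) = 0 := by
        rw [rank_eq_zero_iff]
        rintro ⟨x, hx⟩
        refine ⟨2, two_ne_zero, ?_⟩
        apply Subtype.ext
        have h3 := h1 x hx.1 hx.2
        show (2 : ℤ) • x = 0
        rw [two_smul, h3]
      rw [k2, add_zero] at k1
      have k5 : Module.rank ℤ s < Cardinal.aleph0 := Module.rank_lt_aleph0 ℤ s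
      have k6 : Module.rank ℤ t < Cardinal.aleph0 := Module.rank_lt_aleph0 ℤ t
      unfold Module.finrank
      rw [k1, Cardinal.toNat_add k5 k6]
    have h5 : Module.finrank ℤ s = Module.finrank ℤ B := eB.symm
    have h6 : Module.finrank ℤ t = Module.finrank ℤ C := eC.symm
    omega
  · rw [eB, eC]
    exact RS.finrank_add_le i.range j.range h1

open scoped Classical in
/-- the twist over a quadratic extension with automorphism `σ` -/
private theorem twist_aux {F F' : Type*} [Field F] [CharZero F] [Field F'] [CharZero F']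
    [Algebra F F'] {W Wd : WeierstrassCurve.Affine F} {d : F} {δ : F'}
    (hW : TwoTors (W⁄F') 0 1 (-1)) (hd : TwoTors (Wd⁄F') 0 (δ ^ 2) (-δ ^ 2)) (σ : F' ≃ₐ[F] F')
    (hσδ : σ δ = -δ) (hσσ : ∀ x, σ (σ x) = x)
    (hfix : ∀ x, σ x = x → x ∈ Set.range (algebraMap F F'))
    (hδ : δ ^ 2 = algebraMap F F' d) (hδ0 : δ ≠ 0) [Module.Finite ℤ (W⁄F').Point] :
    Module.finrank ℤ (W⁄F').Point =
      Module.finrank ℤ (W⁄F).Point + Module.finrank ℤ (Wd⁄F).Point := by
  obtain ⟨φ, ψ, hψφ, hφψ, hφ, hψ⟩ := isomE hW hd hδ0 (by ring) (by ring) (by ring)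
  have hδ2 : δ ^ 2 ≠ 0 := pow_ne_zero 2 hδ0
  have hδ3 : δ ^ 3 ≠ 0 := pow_ne_zero 3 hδ0
  let τ : (W⁄F').Point →+ (W⁄F').Point := Point.map (W' := W) (σ : F' →ₐ[F] F')
  have hτs : ∀ (x y : F') (hn : (W⁄F').Nonsingular x y),
      ∃ hn' : (W⁄F').Nonsingular (σ x) (σ y), τ (Point.some x y hn) = Point.some _ _ hn' :=
    fun x y hn => ⟨(W.baseChange_nonsingular (f := (σ : F' →ₐ[F] F')) σ.injective x y).mpr hn, rfl⟩
  have hneg : ∀ (x y : F') (hn : (W⁄F').Nonsingular x y), ∃ hn' : (W⁄F').Nonsingular x (-y),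
      -(Point.some x y hn) = Point.some _ _ hn' := by
    intro x y hn
    refine ⟨by rw [← hW.negY_eq x y]; exact (nonsingular_neg ..).2 hn, ?_⟩
    rw [Point.neg_some]
    simp only [Point.some.injEq, true_and]
    exact hW.negY_eq x y
  have hττ : ∀ P, τ (τ P) = P := by
    intro P
    rcases P with _ | ⟨x, y, hn⟩
    · change τ (τ 0) = 0
      rw [map_zero, map_zero]
    · obtain ⟨n1, e1⟩ := hτs x y hn
      obtain ⟨n2, e2⟩ := hτs _ _ n1
      rw [e1, e2]
      simp only [Point.some.injEq]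
      exact ⟨hσσ x, hσσ y⟩
  let ι : (W⁄F).Point →+ (W⁄F').Point := Point.map (W' := W) (Algebra.ofId F F')
  let ιd : (Wd⁄F).Point →+ (Wd⁄F').Point := Point.map (W' := Wd) (Algebra.ofId F F')
  have hσa : ∀ a : F, σ (algebraMap F F' a) = algebraMap F F' a := fun a => σ.commutes a
  -- fixed points
  have hιfix : ∀ P, τ (ι P) = ι P := by
    intro P
    rcases P with _ | ⟨x, y, hn⟩
    · change τ (ι 0) = ι 0
      rw [map_zero, map_zero]
    · obtain ⟨n1, e1⟩ := hτs _ _ ((W.baseChange_nonsingular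
        (f := Algebra.ofId F F') (Algebra.ofId F F').injective x y).mpr hn)
      refine e1.trans ?_
      change _ = Point.some _ _ _
      simp only [Point.some.injEq]
      exact ⟨hσa x, hσa y⟩
  have hfixι : ∀ P, τ P = P → ∃ Q, P = ι Q := by
    intro P hP
    rcases P with _ | ⟨x, y, hn⟩
    · exact ⟨0, (map_zero ι).symm⟩
    · obtain ⟨n1, e1⟩ := hτs x y hn
      rw [e1] at hP
      simp only [Point.some.injEq] at hP
      obtain ⟨a, ha⟩ := hfix x hP.1
      obtain ⟨b, hb⟩ := hfix y hP.2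
      subst ha hb
      exact ⟨Point.some a b ((W.baseChange_nonsingular
        (f := Algebra.ofId F F') (Algebra.ofId F F').injective a b).mp hn), rfl⟩
  -- the twist
  have hjneg : ∀ Q, τ (ψ (ιd Q)) = -(ψ (ιd Q)) := by
    intro Q
    rcases Q with _ | ⟨x, y, hn⟩
    · change τ (ψ (ιd 0)) = -(ψ (ιd 0))
      rw [map_zero, map_zero, map_zero, neg_zero]
    · obtain ⟨n1, e1⟩ := hψ _ _ ((Wd.baseChange_nonsingular
        (f := Algebra.ofId F F') (Algebra.ofId F F').injective x y).mpr hn)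
      have e2 : ψ (ιd (Point.some x y hn)) = Point.some _ _ n1 := e1
      rw [e2]
      obtain ⟨n2, e3⟩ := hτs _ _ n1
      obtain ⟨n3, e4⟩ := hneg _ _ n1
      rw [e3, e4]
      simp only [Point.some.injEq]
      have hx : σ ((Algebra.ofId F F') x) = (Algebra.ofId F F') x := hσa x
      have hy : σ ((Algebra.ofId F F') y) = (Algebra.ofId F F') y := hσa y
      rw [map_mul, map_mul, map_inv₀, map_inv₀, map_pow, map_pow, hσδ, hx, hy]
      constructor
      · rw [neg_pow_two]
      · have : (-δ) ^ 3 = -δ ^ 3 := by ring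
        rw [this, inv_neg, neg_mul]
  have hnegj : ∀ P, τ P = -P → ∃ Q, P = ψ (ιd Q) := by
    intro P hP
    rcases P with _ | ⟨x, y, hn⟩
    · exact ⟨0, by rw [map_zero, map_zero]; rfl⟩
    · obtain ⟨n1, e1⟩ := hτs x y hn
      obtain ⟨n2, e2⟩ := hneg x y hn
      rw [e1, e2] at hP
      simp only [Point.some.injEq] at hP
      obtain ⟨n3, e3⟩ := hφ x y hn
      obtain ⟨a, ha⟩ := hfix (δ ^ 2 * x) (by rw [map_mul, map_pow, hσδ, hP.1, neg_pow_two])
      obtain ⟨b, hb⟩ := hfix (δ ^ 3 * y) (by rw [map_mul, map_pow, hσδ, hP.2]; ring)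
      have n4 : (Wd⁄F').Nonsingular ((Algebra.ofId F F') a) ((Algebra.ofId F F') b) := by
        change (Wd⁄F').Nonsingular (algebraMap F F' a) (algebraMap F F' b)
        rw [ha, hb]; exact n3
      have n5 : (Wd⁄F).Nonsingular a b := (Wd.baseChange_nonsingular
        (f := Algebra.ofId F F') (Algebra.ofId F F').injective a b).mp n4
      refine ⟨Point.some a b n5, ?_⟩
      have e4 : ιd (Point.some a b n5) = φ (Point.some x y hn) := by
        rw [e3]
        change Point.some _ _ _ = _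
        simp only [Point.some.injEq]
        exact ⟨ha, hb⟩
      rw [e4, hψφ]
  refine finrank_split ι (ψ.comp ιd) (Point.map_injective _) ?_ ?_ ?_
  · intro P Q h
    have h5 : ιd P = ιd Q := by
      have h6 := congrArg φ h
      simp only [AddMonoidHom.comp_apply, hφψ] at h6
      exact h6
    exact Point.map_injective (W' := Wd) _ h5
  · rintro _ ⟨P, rfl⟩ ⟨Q, hQ⟩
    have h5 := hjneg Q
    have h6 : ψ (ιd Q) = ι P := hQ
    rw [h6, hιfix] at h5
    nth_rw 1 [h5]
    exact neg_add_cancel _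
  · intro P
    obtain ⟨Q, hQ⟩ := hfixι (P + τ P) (by rw [map_add, hττ, add_comm])
    obtain ⟨R, hR⟩ := hnegj (P - τ P) (by rw [map_sub, hττ, neg_sub])
    refine ⟨Q, R, ?_⟩
    rw [AddMonoidHom.comp_apply, ← hQ, ← hR]
    abel

private theorem leg_bc {F F' : Type*} [Field F] [NumberField F] [Field F'] [NumberField F']
    [Algebra F F'] (d : F) : ((legendre (0 : F) d (-d))⁄F') =
      legendre (0 : F') (algebraMap F F' d) (-algebraMap F F' d) := by
  ext <;> simp [legendre]

open scoped Classical in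
theorem finrank_twist {F F' : Type u} [Field F] [NumberField F] [Field F'] [NumberField F']
    [Algebra F F'] (h2 : Module.finrank F F' = 2) {d : F} {δ : F'} (hδ : δ ^ 2 = algebraMap F F' d)
    (hne : δ ∉ Set.range (algebraMap F F')) (hfg : AddGroup.FG (legendre (0 : F') 1 (-1)).Point) :
    Module.finrank ℤ (legendre (0 : F') 1 (-1)).Point =
      Module.finrank ℤ (legendre (0 : F) 1 (-1)).Point +
        Module.finrank ℤ (legendre 0 d (-d)).Point := by
  have hδ0 : δ ≠ 0 := by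
    rintro rfl
    exact hne ⟨0, map_zero _⟩
  have hd0 : d ≠ 0 := by
    rintro rfl
    rw [map_zero] at hδ
    exact hδ0 (pow_eq_zero_iff two_ne_zero |>.1 hδ)
  have hq : Algebra.IsQuadraticExtension F F' := ⟨h2⟩
  have hcard : Nat.card (F' ≃ₐ[F] F') = 2 := by
    rw [IsGalois.card_aut_eq_finrank, h2]
  obtain ⟨σ, hσ1, hσu⟩ := (Nat.card_eq_two_iff' (1 : F' ≃ₐ[F] F')).1 hcard
  have hfix : ∀ x, σ x = x → x ∈ Set.range (algebraMap F F') := by
    intro x hx
    rw [IsGalois.mem_range_algebraMap_iff_fixed]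
    intro g
    by_cases hg : g = 1
    · rw [hg]; rfl
    · rw [hσu g hg]; exact hx
  have hσσ : ∀ x, σ (σ x) = x := by
    intro x
    by_cases h : σ * σ = 1
    · have := congrArg (fun g : F' ≃ₐ[F] F' => g x) h
      exact this
    · have h3 := hσu _ h
      exact absurd (mul_eq_left.1 h3) hσ1
  have hσδ : σ δ = -δ := by
    have h3 : σ δ ^ 2 = δ ^ 2 := by
      rw [← map_pow, hδ]; exact σ.commutes d
    rcases sq_eq_sq_iff_eq_or_eq_neg.1 h3 with h4 | h4
    · exact absurd (hfix δ h4) hne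
    · exact h4
  have hE1 : legendre (0 : F') 1 (-1) = ((legendre (0 : F) 1 (-1))⁄F') := by
    rw [leg_bc, map_one]
  have hE0 : ((legendre (0 : F) 1 (-1))⁄F) = legendre (0 : F) 1 (-1) := leg_bc 1
  have hEd : ((legendre (0 : F) d (-d))⁄F) = legendre (0 : F) d (-d) := leg_bc d
  have hT1 : TwoTors ((legendre (0 : F) 1 (-1))⁄F') 0 1 (-1) := by
    rw [← hE1]; exact tq_leg one_ne_zero
  have hTd : TwoTors ((legendre (0 : F) d (-d))⁄F') 0 (δ ^ 2) (-δ ^ 2) := by
    rw [leg_bc, ← hδ]; exact tq_leg (pow_ne_zero 2 hδ0)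
  rw [hE1] at hfg ⊢
  have : Module.Finite ℤ ((legendre (0 : F) 1 (-1))⁄F').Point :=
    Module.Finite.iff_addGroup_fg.2 hfg
  have h4 := twist_aux (d := d) hT1 hTd σ hσδ hσσ hfix hδ hδ0
  rw [hE0, hEd] at h4
  exact h4

open scoped Classical in
/-- the case that `d = δ^2` is a square in `F`, `δ ≠ 0` -/
theorem finrank_scale {F : Type u} [Field F] [NumberField F] {δ : F} (h : δ ≠ 0) :
    Module.finrank ℤ (legendre 0 (δ ^ 2) (-δ ^ 2)).Point =
      Module.finrank ℤ (legendre (0 : F) 1 (-1)).Point := by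
  obtain ⟨φ, ψ, hψφ, hφψ, -, -⟩ := isomE (tq_leg (K := F) one_ne_zero)
    (tq_leg (pow_ne_zero 2 h)) h (by ring) (by ring) (by ring)
  have e : (legendre 0 (δ ^ 2) (-δ ^ 2)).Point ≃+ (legendre (0 : F) 1 (-1)).Point :=
    { toFun := ψ
      invFun := φ
      left_inv := hφψ
      right_inv := hψφ
      map_add' := map_add ψ }
  exact LinearEquiv.finrank_eq e.toIntLinearEquiv

end Pool.Agent.Work.MP_787500_nt.HD
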