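import Mathlib
import Pool.Agent.Work.MP_787500_nt.HD.StD
import Pool.Agent.Work.MP_787500_nt.HD.GrC
import Pool.Agent.Work.MP_787500_nt.HD.FnA
import Pool.Agent.Work.MP_787500_nt.HD.FnB
import Pool.Agent.Work.MP_787500_nt.HD.FnC
import Pool.Agent.Work.MP_787500_nt.HD.TwQ

/-!
# Module FnD: assembly

`exists_ctx_cj hb`, `hC.data.exists_sq4 1` (see `exists_union` in `HC/Fin2.lean`). Every `F` with `DihField K F s` is isomorphic
over `K` to `E ≤ Ω` (`exists_embed`), `E ≤ layF (m+1)` by `le_layF`.
* `rank_dih`: `sub_sharp` for `E` (`E ≤ ⨆ n, layF n`), transported: `IsGalois K F` (`IsGalois ℚ F`), commutativity and the degree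
  through `e`, `InTwoTower K F` with `L = F`, the rank with `finrank_iso` for `e` (`RS.rk`, `e 0 = 0`, `e 1 = 1`, `e (-1) = -1`).
* `exists_dih`: `layF n` has degree `2^(n+1)` (`finrank_layF`, `dihField_of`, `dihI_mono`); degree 1: `F = K` (`IsGalois ℚ K`
  because the degree is 2; unramified: `Algebra.IsUnramifiedAt (𝓞 K)` over itself; `t s = -s`: `x = r + t s`).
* `rank_twist`: `F ⊆ F'` dihedral, `δ ∈ F'`, `δ^2 = d ∈ F`, `d ≠ 0`. If `δ ∈ F`: `finrank_scale`. Otherwise let `F₁ = F(δ) ⊆ F'`, of
  degree 2 over `F`. Embed `F'` in `Ω`: `E' ≤ layF n`; the images `E` of `F` and `E₁` of `F₁` are contained in `E'`, so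
  `sub_sharp` gives `rk E = [E:K]`, `rk E₁ = [E₁:K] = 2 [E:K]` (and `FG` from `RS.bound` / `rk_bound`, see `HC/LyO.lean`);
  `finrank_twist` for `E₁/E` and `finrank_iso`.
-/

set_option autoImplicit false

namespace Pool.Agent.Work.MP_787500_nt.HD

open WithZero IsDedekindDomain NumberField WeierstrassCurve WeierstrassCurve.Affine HC

universe u

private theorem rk_sub {K : Type u} [Field K] [NumberField K] {q : ℕ} {s : K} (hb : IsBase K q s)
    (F F' : Type u) [Field F] [NumberField F] [Algebra K F] [Field F'] [NumberField F']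
    [Algebra K F'] [Algebra F F'] [IsScalarTower K F F'] (h : DihField K F' s) :
    IsGalois K F ∧ (∀ σ τ : F ≃ₐ[K] F, σ * τ = τ * σ) ∧ InTwoTower K F ∧
      RS.rk F = Module.finrank K F := by
  obtain ⟨v, α, W, W', c, hC, hc⟩ := exists_ctx_cj hb
  obtain ⟨i, a, b, u, hS⟩ := hC.data.exists_sq4 1
  obtain ⟨E', hE', e, hD, hT⟩ := exists_embed h
  obtain ⟨h1, ⟨m, hm⟩, h3, -⟩ := h
  have hm' : Module.finrank K E' = 2 ^ m := by
    rw [← hm]
    exact e.toLinearEquiv.finrank_eq.symm
  have hle := le_layF hC hS hc hD hT hm'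
  let ψ : F →ₐ[K] AlgebraicClosure K :=
    E'.val.comp (e.toAlgHom.comp (IsScalarTower.toAlgHom K F F'))
  let e1 : F ≃ₐ[K] ψ.fieldRange := ψ.equivFieldRange
  have hNE : NumberField ψ.fieldRange := NumberField.of_ringEquiv F _ e1.toRingEquiv
  have hEE : ψ.fieldRange ≤ E' := by
    rintro _ ⟨x, rfl⟩
    exact (e (algebraMap F F' x)).2
  obtain ⟨g1, g2, g3, g4, -⟩ := sub_sharp hC hS (hEE.trans (hle.trans (layF_le_sup _)))
  have hG : IsGalois K F' := IsGalois.tower_top_of_isGalois ℚ K F'
  refine ⟨IsGalois.of_algEquiv e1.symm, ?_,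
    ⟨F', inferInstance, inferInstance, inferInstance, inferInstance, inferInstance, hG,
      ⟨m, hm⟩, h3⟩, ?_⟩
  · intro σ τ
    apply (AlgEquiv.autCongr e1).injective
    rw [map_mul, map_mul]
    exact g2 _ _
  · classical
    have h4 := finrank_iso e1.toRingEquiv (0 : F) 1 (-1)
    rw [map_zero, map_one, map_neg, map_one] at h4
    have h5 : RS.rk ψ.fieldRange = RS.rk F := by
      unfold RS.rk
      convert h4
    rw [← h5, g4]
    exact e1.toLinearEquiv.finrank_eq.symm

theorem rank_dih {K : Type u} [Field K] [NumberField K] {q : ℕ} {s : K} (hb : IsBase K q s)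
    {F : Type u} [Field F] [NumberField F] [Algebra K F] (h : DihField K F s) :
    IsGalois K F ∧ (∀ σ τ : F ≃ₐ[K] F, σ * τ = τ * σ) ∧ InTwoTower K F ∧
      RS.rk F = Module.finrank K F :=
  rk_sub hb F F h

theorem exists_dih {K : Type u} [Field K] [NumberField K] {q : ℕ} {s : K} (hb : IsBase K q s)
    (n : ℕ) : ∃ (F : Type u) (_ : Field F) (_ : NumberField F) (_ : Algebra K F),
      DihField K F s ∧ Module.finrank K F = 2 ^ n := by
  obtain ⟨v, α, W, W', c, hC, hc⟩ := exists_ctx_cj hb
  obtain ⟨i, a, b, u, hS⟩ := hC.data.exists_sq4 1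
  cases n with
  | zero =>
    have hB : (⊥ : IntermediateField K (AlgebraicClosure K)) ≤ layF W W' i b 0 := bot_le
    have hfin : FiniteDimensional K (⊥ : IntermediateField K (AlgebraicClosure K)) := inferInstance
    have hN : NumberField (⊥ : IntermediateField K (AlgebraicClosure K)) :=
      NumberField.of_module_finite K _
    exact ⟨(⊥ : IntermediateField K (AlgebraicClosure K)), inferInstance, hN, inferInstance,
      dihField_of hC hS hB (dihI_mono hC hS hc hB), by
        rw [IntermediateField.finrank_bot, pow_zero]⟩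
  | succ n =>
    have hN := layF_numberField hC hS n
    exact ⟨layF W W' i b n, inferInstance, hN, inferInstance,
      dihField_of hC hS le_rfl (dihI_mono hC hS hc le_rfl), finrank_layF hC hS n⟩

open scoped Classical in
private theorem twist_step {K : Type u} [Field K] [NumberField K] {q : ℕ} {s : K}
    (hb : IsBase K q s) {F F₁ : Type u} [Field F] [NumberField F] [Algebra K F] [Field F₁]
    [NumberField F₁] [Algebra K F₁] [Algebra F F₁] [IsScalarTower K F F₁]
    (h2 : Module.finrank F F₁ = 2) {d : F} {δ : F₁} (hδ : δ ^ 2 = algebraMap F F₁ d)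
    (hne : δ ∉ Set.range (algebraMap F F₁)) (hT₁ : InTwoTower K F₁)
    (hrk : RS.rk F = Module.finrank K F) (hrk₁ : RS.rk F₁ = Module.finrank K F₁) :
    Module.finrank ℤ (legendre 0 d (-d)).Point = Module.finrank K F := by
  have hrk' : Module.finrank ℤ (legendre (0 : F) 1 (-1)).Point = Module.finrank K F := by
    rw [← hrk]
    rfl
  have hrk₁' : Module.finrank ℤ (legendre (0 : F₁) 1 (-1)).Point = Module.finrank K F₁ := by
    rw [← hrk₁]
    rfl
  obtain ⟨-, hFG, -⟩ := RS.bound hb hT₁ (zero_ne_one : (0 : F₁) ≠ 1)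
    (by norm_num : (1 : F₁) ≠ -1) (by norm_num)
  have hFG' : AddGroup.FG (legendre (0 : F₁) 1 (-1)).Point := by
    convert hFG
  have h6 := finrank_twist (F := F) (F' := F₁) h2 hδ hne hFG'
  have h7 : Module.finrank K F₁ = Module.finrank K F * 2 := by
    rw [← h2]
    exact (Module.finrank_mul_finrank K F F₁).symm
  rw [hrk₁', hrk', h7] at h6
  omega

open scoped Classical in
theorem rank_twist {K : Type u} [Field K] [NumberField K] {q : ℕ} {s : K} (hb : IsBase K q s)
    {F F' : Type u} [Field F] [NumberField F] [Algebra K F] [Field F'] [NumberField F']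
    [Algebra K F'] [Algebra F F'] [IsScalarTower K F F'] (h : DihField K F' s) {d : F} {δ : F'}
    (hd : d ≠ 0) (hδ : δ ^ 2 = algebraMap F F' d) :
    Module.finrank ℤ (legendre 0 d (-d)).Point = Module.finrank K F := by
  obtain ⟨-, -, -, hrk⟩ := rk_sub hb F F' h
  by_cases hr : δ ∈ Set.range (algebraMap F F')
  · obtain ⟨δ₀, rfl⟩ := hr
    rw [← map_pow] at hδ
    have hd' : d = δ₀ ^ 2 := (algebraMap F F').injective hδ.symm
    subst hd'
    have hδ₀ : δ₀ ≠ 0 := fun h0 => hd (by rw [h0]; ring)
    rw [finrank_scale hδ₀, ← hrk]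
    rfl
  · have hfin : Module.Finite F F' := Module.Finite.of_restrictScalars_finite ℚ F F'
    have hint : IsIntegral F δ := Algebra.IsIntegral.isIntegral δ
    have hN : NumberField (IntermediateField.adjoin F {δ}) := NumberField.of_module_finite F _
    have h2 : Module.finrank F (IntermediateField.adjoin F {δ}) = 2 := by
      rw [IntermediateField.adjoin.finrank hint]
      have hmin : minpoly F δ ∣ Polynomial.X ^ 2 - Polynomial.C d := by
        apply minpoly.dvd
        rw [map_sub, map_pow, Polynomial.aeval_X, Polynomial.aeval_C, hδ, sub_self]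
      have hdeg : (minpoly F δ).natDegree ≤ 2 := by
        have h3 := Polynomial.natDegree_le_of_dvd hmin
          (Polynomial.X_pow_sub_C_ne_zero (by norm_num) d)
        rwa [Polynomial.natDegree_X_pow_sub_C] at h3
      have hpos : 0 < (minpoly F δ).natDegree := minpoly.natDegree_pos hint
      have hne1 : (minpoly F δ).natDegree ≠ 1 := by
        intro h3
        exact hr (minpoly.mem_range_of_degree_eq_one F δ (by
          rw [Polynomial.degree_eq_natDegree (minpoly.ne_zero hint), h3]
          rfl))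
      omega
    have hST : IsScalarTower K (IntermediateField.adjoin F {δ}) F' :=
      IsScalarTower.of_algebraMap_eq fun x => by
        rw [IsScalarTower.algebraMap_apply K F F' x,
          IsScalarTower.algebraMap_apply K F (IntermediateField.adjoin F {δ}) x]
        rfl
    obtain ⟨-, -, hT₁, hrk₁⟩ := rk_sub hb (IntermediateField.adjoin F {δ}) F' h
    refine twist_step hb h2 (δ := (⟨δ, IntermediateField.mem_adjoin_simple_self F δ⟩ :
      IntermediateField.adjoin F {δ})) (Subtype.ext hδ) ?_ hT₁ hrk hrk₁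
    rintro ⟨x, hx⟩
    exact hr ⟨x, congrArg Subtype.val hx⟩

end Pool.Agent.Work.MP_787500_nt.HD
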