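import Mathlib
import Pool.Agent.Work.MP_787500_nt.HD.Defs

/-!
The statement about all layers.
-/

set_option autoImplicit false

namespace Pool.Agent.Work.MP_787500_nt.HD

open NumberField

universe u

open scoped Classical in
/-- Let `F'` be a number field with `DihField K F' s`, `F` a field between `K` and `F'`, and `d ≠ 0` an element of `F`
which is a square in `F'`. Then `F` is in the maximal 2-extension of `K` unramified outside 2, and the curve
`y ^ 2 = x ^ 3 - d ^ 2 x` over `F` has good reduction outside 2 and rank `[F : K]`. There are such fields `F'` of all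
degrees `2 ^ n`. -/
def AllLayers (K : Type u) [Field K] [NumberField K] (s : K) : Prop :=
  (∀ (F F' : Type u) [Field F] [NumberField F] [Algebra K F] [Field F'] [NumberField F']
    [Algebra K F'] [Algebra F F'] [IsScalarTower K F F'], DihField K F' s →
    ∀ (d : F) (r : F'), d ≠ 0 → r ^ 2 = algebraMap F F' d →
      InTwoTower K F ∧ multPlaces 0 d (-d) ∪ addPlaces 0 d (-d) = ∅ ∧
        Module.finrank ℤ (legendre 0 d (-d)).Point = Module.finrank K F) ∧
  ∀ n : ℕ, ∃ (F : Type u) (_ : Field F) (_ : NumberField F) (_ : Algebra K F),
    DihField K F s ∧ Module.finrank K F = 2 ^ n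

end Pool.Agent.Work.MP_787500_nt.HD
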