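import Mathlib
import Pool.Agent.Work.MP_787500_nt.HD.Defs
import Pool.Agent.Work.MP_787500_nt.H10_Tower

/-!
# Module FnE: the twists have good reduction outside 2
-/

set_option autoImplicit false

namespace Pool.Agent.Work.MP_787500_nt.HD

open WithZero IsDedekindDomain NumberField

universe u

private theorem fne_two {F : Type u} [Field F] [NumberField F] {v : HeightOneSpectrum (𝓞 F)}
    (hv : (2 : 𝓞 F) ∉ v.asIdeal) : v.valuation F (2 : F) = 1 := by
  have h1 : (2 : F) = algebraMap (𝓞 F) F 2 := by rw [map_ofNat]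
  rw [h1, HeightOneSpectrum.valuation_eq_one_iff_notMem]
  exact hv

theorem good_twist {K : Type u} [Field K] [NumberField K] {s : K}
    {F F' : Type u} [Field F] [NumberField F] [Algebra K F] [Field F'] [NumberField F']
    [Algebra K F'] [Algebra F F'] [IsScalarTower K F F'] (h : DihField K F' s) {d : F} {δ : F'}
    (hd : d ≠ 0) (hδ : δ ^ 2 = algebraMap F F' d) :
    multPlaces 0 d (-d) ∪ addPlaces 0 d (-d) = ∅ := by
  have _ := hd
  have hsq : ∀ v : HeightOneSpectrum (𝓞 F), (2 : 𝓞 F) ∉ v.asIdeal →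
      IsSquare (v.valuation F d) := by
    intro v hv
    obtain ⟨Q, rfl⟩ := exists_above (L := F') v
    have hQ : (2 : 𝓞 F') ∉ Q.asIdeal := fun h1 => hv ((two_mem_below Q).2 h1)
    have hu : Algebra.IsUnramifiedAt (𝓞 K) Q.asIdeal := h.2.2.1 Q hQ
    have hu' : Algebra.IsUnramifiedAt (𝓞 F) Q.asIdeal :=
      Algebra.IsUnramifiedAt.of_restrictScalars (R := 𝓞 K) Q.asIdeal
    rw [valuation_below_of_unramified Q hu' d, ← hδ, map_pow]
    exact ⟨_, sq _⟩
  have hV : ∀ v : HeightOneSpectrum (𝓞 F), (2 : 𝓞 F) ∉ v.asIdeal →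
      v.valuation F (0 - d) = v.valuation F d ∧ v.valuation F (d - -d) = v.valuation F d ∧
        v.valuation F (-d - 0) = v.valuation F d := by
    intro v hv
    refine ⟨?_, ?_, ?_⟩
    · rw [zero_sub, Valuation.map_neg]
    · rw [sub_neg_eq_add, ← two_mul, map_mul, fne_two hv, one_mul]
    · rw [sub_zero, Valuation.map_neg]
  ext v
  simp only [Set.mem_union, Set.mem_empty_iff_false, iff_false, not_or]
  constructor
  · rintro ⟨h1, -, h3⟩
    obtain ⟨a, b, c⟩ := hV v h1
    exact h3 ⟨a.trans b.symm, b.trans c.symm⟩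
  · rintro ⟨h1, h2⟩
    obtain ⟨a, b, c⟩ := hV v h1
    apply h2
    unfold diffVal
    rw [a, b, c, max_self, max_self]
    exact hsq v h1

end Pool.Agent.Work.MP_787500_nt.HD
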