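import Mathlib
import Pool.Agent.Work.MP_787500_nt.HD.FDefs
import Pool.Agent.Work.MP_787500_nt.HD.FnD
import Pool.Agent.Work.MP_787500_nt.HD.FnE

/-!
# All layers: assembly
-/

set_option autoImplicit false

namespace Pool.Agent.Work.MP_787500_nt.HD

open NumberField

universe u

theorem allLayers {K : Type u} [Field K] [NumberField K] {q : ℕ} {s : K} (hb : IsBase K q s) :
    AllLayers K s := by
  refine ⟨fun F F' _ _ _ _ _ _ _ _ h d r hd hr => ⟨?_, good_twist h hd hr, rank_twist hb h hd hr⟩,
    exists_dih hb⟩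
  obtain ⟨h1, h2, h3, -⟩ := h
  have : IsGalois K F' := IsGalois.tower_top_of_isGalois ℚ K F'
  exact ⟨F', inferInstance, inferInstance, inferInstance, inferInstance, inferInstance, this, h2, h3⟩

end Pool.Agent.Work.MP_787500_nt.HD
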